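import Mathlib

/-!
# Irreducible algebras of operators

PACKAGE (statements frozen).
* `eq_top_of_irr` (Burnside): `V` is a simple module over the algebra `A` (a subspace stable under
  `A` is zero or everything), `End_A V = K` (Schur,
  `IsSimpleModule.algebraMap_end_bijective_of_isAlgClosed`), and by
  `Module.Finite.toModuleEnd_moduleEnd_surjective` (Jacobson density) every `End_A V`-linear map,
  that is every `K`-linear map, is given by an element of `A`.
* `exists_matrix`: let `W ≠ 0` be a subspace stable under `A` of the smallest dimension. Restriction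
  to `W` is a homomorphism `A → End W`. Its image is irreducible, so it is surjective by
  `eq_top_of_irr`. If `a` is zero on `W` then `a (b w) = b (a w) = 0` for `b ∈ B`; the span of all `b w`,
  `b ∈ B`, `w ∈ W`, is stable under `A` and under `B` and not zero, so it is `V`, and `a = 0`. So
  `A ≃ End W ≃ Matrix (Fin m) (Fin m) K` with `m = dim W`.
-/

set_option autoImplicit false

namespace Pool.Agent.FQ

open Module

variable {K V : Type*} [Field K] [IsAlgClosed K] [AddCommGroup V] [Module K V]
  [FiniteDimensional K V]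

theorem eq_top_of_irr (A : Subalgebra K (End K V))
    (hirr : ∀ W : Submodule K V, (∀ a ∈ A, ∀ w ∈ W, a w ∈ W) → W = ⊥ ∨ W = ⊤) : A = ⊤ := by
  classical
  rcases subsingleton_or_nontrivial V with hV | hV
  · rw [eq_top_iff]
    intro f _
    have h0 : f = 0 := LinearMap.ext fun v => Subsingleton.elim _ _
    rw [h0]
    exact A.zero_mem
  have hst : IsScalarTower K A V := ⟨fun c a v => rfl⟩
  have hsimple : IsSimpleModule A V := by
    rw [isSimpleModule_iff]
    refine { exists_pair_ne := ⟨⊥, ⊤, bot_ne_top⟩, eq_bot_or_eq_top := fun W => ?_ }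
    rcases hirr (W.restrictScalars K) (fun a ha w hw => W.smul_mem (⟨a, ha⟩ : A) hw) with h | h
    · left
      rwa [Submodule.restrictScalars_eq_bot_iff] at h
    · right
      rwa [Submodule.restrictScalars_eq_top_iff] at h
  rw [eq_top_iff]
  intro f _
  have hD := (IsSimpleModule.algebraMap_end_bijective_of_isAlgClosed (A := A) (V := V) K).2
  let f' : Module.End (Module.End A V) V :=
    { toFun := f
      map_add' := f.map_add
      map_smul' := by
        intro g v
        obtain ⟨c, rfl⟩ := hD g
        exact f.map_smul c v }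
  let b := Module.finBasis K V
  obtain ⟨r, hr⟩ := jacobson_density (R := A) f' (Finset.univ.image b)
  have h1 : f = (r : End K V) := by
    refine b.ext fun i => ?_
    exact hr (b i) (Finset.mem_image_of_mem b (Finset.mem_univ i))
  rw [h1]
  exact r.2

/-- the action on a stable subspace -/
private def resW (A : Subalgebra K (End K V)) (W : Submodule K V)
    (hW : ∀ a ∈ A, ∀ w ∈ W, a w ∈ W) : A →ₐ[K] End K W where
  toFun a := (a : End K V).restrict (hW a a.2)
  map_one' := LinearMap.ext fun _ => Subtype.ext rfl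
  map_mul' _ _ := LinearMap.ext fun _ => Subtype.ext rfl
  map_zero' := LinearMap.ext fun _ => Subtype.ext rfl
  map_add' _ _ := LinearMap.ext fun _ => Subtype.ext rfl
  commutes' _ := LinearMap.ext fun _ => Subtype.ext rfl

private theorem resW_apply (A : Subalgebra K (End K V)) (W : Submodule K V)
    (hW : ∀ a ∈ A, ∀ w ∈ W, a w ∈ W) (a : A) (w : W) :
    ((resW A W hW a w : W) : V) = (a : End K V) w := rfl

private theorem matrix_of_bij (A : Subalgebra K (End K V)) (W : Submodule K V)
    (hW : ∀ a ∈ A, ∀ w ∈ W, a w ∈ W) (h : Function.Bijective (resW A W hW)) :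
    ∃ m : ℕ, Nonempty (A ≃ₐ[K] Matrix (Fin m) (Fin m) K) :=
  ⟨finrank K W, ⟨(AlgEquiv.ofBijective _ h).trans (algEquivMatrix (Module.finBasis K W))⟩⟩

theorem exists_matrix (A B : Subalgebra K (End K V)) (hAB : ∀ a ∈ A, ∀ b ∈ B, a * b = b * a)
    (hirr : ∀ W : Submodule K V, (∀ a ∈ A, ∀ w ∈ W, a w ∈ W) → (∀ b ∈ B, ∀ w ∈ W, b w ∈ W) →
      W = ⊥ ∨ W = ⊤) : ∃ m : ℕ, Nonempty (A ≃ₐ[K] Matrix (Fin m) (Fin m) K) := by
  rcases subsingleton_or_nontrivial V with hV | hV
  · refine matrix_of_bij A ⊤ (fun _ _ _ _ => Submodule.mem_top) ⟨fun a b _ => ?_, fun f => ?_⟩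
    · exact Subtype.ext (LinearMap.ext fun v => Subsingleton.elim _ _)
    · exact ⟨0, LinearMap.ext fun v => Subsingleton.elim _ _⟩
  -- a minimal stable subspace
  obtain ⟨W, ⟨hW0, hW⟩, hmin⟩ := (wellFounded_lt (α := Submodule K V)).has_min
    {W : Submodule K V | W ≠ ⊥ ∧ ∀ a ∈ A, ∀ w ∈ W, a w ∈ W}
    ⟨⊤, top_ne_bot, fun _ _ _ _ => Submodule.mem_top⟩
  refine matrix_of_bij A W hW ⟨?_, ?_⟩
  · rw [injective_iff_map_eq_zero]
    intro a ha
    have haw : ∀ w ∈ W, (a : End K V) w = 0 := by
      intro w hw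
      have h1 := resW_apply A W hW a ⟨w, hw⟩
      rw [ha] at h1
      exact h1.symm
    obtain ⟨S, hS⟩ : ∃ S, S = Submodule.span K {x | ∃ b ∈ B, ∃ w ∈ W, x = b w} := ⟨_, rfl⟩
    have hstab : ∀ c : End K V, (∀ b ∈ B, ∀ w ∈ W, c (b w) ∈ S) → ∀ x ∈ S, c x ∈ S := by
      intro c hc x hx
      have h1 : S ≤ S.comap c := by
        conv_lhs => rw [hS]
        rw [Submodule.span_le]
        rintro _ ⟨b, hb, w, hw, rfl⟩
        exact hc b hb w hw
      exact h1 hx
    have hgen : ∀ b ∈ B, ∀ w ∈ W, b w ∈ S := by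
      intro b hb w hw
      rw [hS]
      exact Submodule.subset_span ⟨b, hb, w, hw, rfl⟩
    have htop : S = ⊤ := by
      refine (hirr S ?_ ?_).resolve_left ?_
      · intro a' ha'
        refine hstab a' fun b hb w hw => ?_
        have h1 : a' (b w) = b (a' w) := DFunLike.congr_fun (hAB a' ha' b hb) w
        rw [h1]
        exact hgen b hb _ (hW a' ha' w hw)
      · intro b' hb'
        refine hstab b' fun b hb w hw => ?_
        exact hgen (b' * b) (B.mul_mem hb' hb) w hw
      · intro hbot
        apply hW0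
        rw [eq_bot_iff, ← hbot]
        exact fun w hw => hgen 1 B.one_mem w hw
    refine Subtype.ext (LinearMap.ext fun x => ?_)
    have h1 : S ≤ LinearMap.ker (a : End K V) := by
      rw [hS, Submodule.span_le]
      rintro _ ⟨b, hb, w, hw, rfl⟩
      have h1 : (a : End K V) (b w) = b ((a : End K V) w) :=
        DFunLike.congr_fun (hAB a a.2 b hb) w
      rw [SetLike.mem_coe, LinearMap.mem_ker, h1, haw w hw, map_zero]
    have h2 : x ∈ S := by
      rw [htop]
      trivial
    exact h1 h2
  · rw [← AlgHom.range_eq_top]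
    refine eq_top_of_irr _ fun U hU => ?_
    by_cases hU0 : U = ⊥
    · exact Or.inl hU0
    · right
      have h1 : U.map W.subtype ≠ ⊥ := by
        intro h1
        apply hU0
        rw [eq_bot_iff]
        intro u hu
        have h2 : (u : V) ∈ U.map W.subtype := ⟨u, hu, rfl⟩
        rw [h1, Submodule.mem_bot] at h2
        rw [Submodule.mem_bot]
        exact Subtype.ext h2
      have h2 : ∀ a ∈ A, ∀ w ∈ U.map W.subtype, a w ∈ U.map W.subtype := by
        rintro a ha _ ⟨u, hu, rfl⟩
        exact ⟨resW A W hW ⟨a, ha⟩ u, hU _ ⟨⟨a, ha⟩, rfl⟩ u hu, rfl⟩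
      have h3 : U.map W.subtype = W := by
        refine (Submodule.map_subtype_le W U).eq_of_not_lt ?_
        exact hmin _ ⟨h1, h2⟩
      rw [eq_top_iff]
      intro w _
      have h4 : (w : V) ∈ U.map W.subtype := by
        rw [h3]
        exact w.2
      obtain ⟨u, hu, hw⟩ := h4
      have h5 : u = w := Subtype.ext hw
      rw [← h5]
      exact hu

end Pool.Agent.FQ
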