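import Pool.Agent.FQ.Defs

/-!
# The automorphisms of `ℂ` and subspaces of complex matrices

PACKAGE (statements frozen). `act τ U` is the subspace of the `A.map τ`, `A ∈ U`. Everything is
elementary: `(A.map τ).map τ.symm = A`. `act_iSup`: `act τ` is an order isomorphism (`act_mono`,
`act_symm_act`). `finrank_act`: `A ↦ A.map τ` is a `τ`-semilinear bijection of `U` and `act τ U`, so it
maps a basis to a basis (`LinearEquiv` over `τ : ℂ ≃+* ℂ` with `RingHomInvPair`, or
`rank_eq_of_equiv_equiv`, or `finrank_eq_card_basis` by hand).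
-/

set_option autoImplicit false

namespace Pool.Agent.FQ

open Module
open Pool.Agent.CoprimeSig (ratM)

variable {ι : Type} [Fintype ι] [DecidableEq ι]

/-- The conjugate of a subspace by an automorphism of `ℂ`. -/
def act (τ : ℂ ≃+* ℂ) (U : Submodule ℂ (Matrix ι ι ℂ)) : Submodule ℂ (Matrix ι ι ℂ) where
  carrier := {A | A.map τ.symm ∈ U}
  add_mem' := fun {A B} hA hB => by
    have h : (A + B).map τ.symm = A.map τ.symm + B.map τ.symm := by
      ext i j
      simp
    rw [Set.mem_ofPred_eq, h]
    exact U.add_mem hA hB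
  zero_mem' := by
    have h : (0 : Matrix ι ι ℂ).map τ.symm = 0 := by
      ext i j
      simp
    rw [Set.mem_ofPred_eq, h]
    exact U.zero_mem
  smul_mem' := fun c A hA => by
    have h : (c • A).map τ.symm = τ.symm c • A.map τ.symm := by
      ext i j
      simp
    rw [Set.mem_ofPred_eq, h]
    exact U.smul_mem _ hA

variable {U U' : Submodule ℂ (Matrix ι ι ℂ)} {A : Matrix ι ι ℂ} {τ τ' : ℂ ≃+* ℂ}

theorem mem_act : A ∈ act τ U ↔ A.map τ.symm ∈ U := Iff.rfl

theorem map_mem_act : A.map τ ∈ act τ U ↔ A ∈ U := by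
  have h : (A.map τ).map τ.symm = A := by
    ext i j
    simp
  rw [mem_act, h]

theorem act_refl : act (RingEquiv.refl ℂ) U = U := by
  ext A
  have h : A.map (RingEquiv.refl ℂ).symm = A := by
    ext i j
    simp
  rw [mem_act, h]

theorem act_trans : act (τ.trans τ') U = act τ' (act τ U) := by
  ext A
  have h : A.map (τ.trans τ').symm = (A.map τ'.symm).map τ.symm := by
    ext i j
    simp
  rw [mem_act, mem_act, mem_act, h]

theorem act_symm_act : act τ.symm (act τ U) = U := by
  ext A
  have h : (A.map τ.symm.symm).map τ.symm = A := by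
    ext i j
    simp
  rw [mem_act, mem_act, h]

theorem act_mono (hU : U ≤ U') : act τ U ≤ act τ U' := fun _ hA => hU hA

/-- The order isomorphism given by the action. -/
private def actIso (τ : ℂ ≃+* ℂ) :
    Submodule ℂ (Matrix ι ι ℂ) ≃o Submodule ℂ (Matrix ι ι ℂ) where
  toFun := act τ
  invFun := act τ.symm
  left_inv _ := act_symm_act
  right_inv U := by
    have h := act_symm_act (τ := τ.symm) (U := U)
    rwa [RingEquiv.symm_symm] at h
  map_rel_iff' := by
    intro a b
    constructor
    · intro h
      have h1 : act τ a ≤ act τ b := h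
      have h2 := act_mono (τ := τ.symm) h1
      rwa [act_symm_act, act_symm_act] at h2
    · intro h
      exact act_mono h

theorem act_iSup {κ : Sort*} (f : κ → Submodule ℂ (Matrix ι ι ℂ)) :
    act τ (⨆ i, f i) = ⨆ i, act τ (f i) :=
  (actIso τ).map_iSup f

/-- The additive equivalence of a subspace and its conjugate. -/
private def actAdd (τ : ℂ ≃+* ℂ) (U : Submodule ℂ (Matrix ι ι ℂ)) : U ≃+ act τ U where
  toFun A := ⟨(A : Matrix ι ι ℂ).map τ, map_mem_act.2 A.2⟩
  invFun A := ⟨(A : Matrix ι ι ℂ).map τ.symm, A.2⟩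
  left_inv A := by
    apply Subtype.ext
    ext i j
    simp
  right_inv A := by
    apply Subtype.ext
    ext i j
    simp
  map_add' A B := by
    apply Subtype.ext
    ext i j
    simp

theorem finrank_act : finrank ℂ (act τ U) = finrank ℂ U := by
  have h := rank_eq_of_equiv_equiv (R := ℂ) (R' := ℂ) (τ : ℂ → ℂ) (actAdd τ U) τ.bijective
    (fun c A => by
      apply Subtype.ext
      ext i j
      simp [actAdd])
  exact (congrArg Cardinal.toNat h).symm

end Pool.Agent.FQ
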