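import Pool.Agent.LargeDom.Aut

/-!
# A complex number with finitely many conjugates is algebraic

PACKAGE (statement frozen). Suppose `x` is transcendental. The field `ℚ(x)` has the automorphisms
`x ↦ x + k` (`k ∈ ℕ`), and they extend to automorphisms of `ℂ`, so `x` has infinitely many conjugates.
Other way: `{x}` is contained in a transcendence basis `B` of `ℂ` over `ℚ`, `B` is infinite
(uncountable), and every permutation of `B` extends to an automorphism of `ℂ` (see the private
theorem `exists_aut` of LargeDom/Aut.lean, copy and adapt it), so all elements of `B` are conjugates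
of `x`.
-/

set_option autoImplicit false

namespace Pool.Agent.FQ

/-- Automorphisms of `ℂ` extending a permutation of a transcendence basis. -/
private theorem exists_aut {T : Type*} (π : T ≃ T) {x : T → ℂ} (hx : IsTranscendenceBasis ℚ x) :
    ∃ σ : ℂ ≃+* ℂ, ∀ t, σ (x t) = x (π t) := by
  let h0 : IsAlgClosure (Algebra.adjoin ℚ (Set.range x)) ℂ :=
    IsAlgClosed.isAlgClosure_of_transcendence_basis x hx
  let e : Algebra.adjoin ℚ (Set.range x) ≃+* Algebra.adjoin ℚ (Set.range x) :=
    hx.1.aevalEquiv.symm.toRingEquiv.trans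
      ((MvPolynomial.renameEquiv ℚ π).toRingEquiv.trans hx.1.aevalEquiv.toRingEquiv)
  have he : ∀ p : MvPolynomial T ℚ, e (hx.1.aevalEquiv p) =
      hx.1.aevalEquiv (MvPolynomial.rename π p) := by
    intro p
    change hx.1.aevalEquiv (MvPolynomial.rename π
      (hx.1.aevalEquiv.symm (hx.1.aevalEquiv p))) = _
    rw [AlgEquiv.symm_apply_apply]
  have hσ : ∀ p : MvPolynomial T ℚ, IsAlgClosure.equivOfEquiv ℂ ℂ e (MvPolynomial.aeval x p) =
      MvPolynomial.aeval x (MvPolynomial.rename π p) := by
    intro p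
    rw [← hx.1.algebraMap_aevalEquiv, IsAlgClosure.equivOfEquiv_algebraMap, he,
      hx.1.algebraMap_aevalEquiv]
  refine ⟨IsAlgClosure.equivOfEquiv ℂ ℂ e, fun t => ?_⟩
  have h1 := hσ (MvPolynomial.X t)
  rw [MvPolynomial.rename_X, MvPolynomial.aeval_X, MvPolynomial.aeval_X] at h1
  exact h1

theorem isAlgebraic_of_finite {x : ℂ} (hx : (Set.range fun τ : ℂ ≃+* ℂ => τ x).Finite) :
    IsAlgebraic ℚ x := by
  classical
  by_contra hcon
  have hxt : Transcendental ℚ x := hcon
  have h0 : AlgebraicIndepOn ℚ id ({x} : Set ℂ) := by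
    have : AlgebraicIndependent ℚ (fun i : ({x} : Set ℂ) => (i : ℂ)) := by
      have : Unique ({x} : Set ℂ) := Set.uniqueSingleton x
      rw [algebraicIndependent_unique_type_iff]
      have h1 : ((default : ({x} : Set ℂ)) : ℂ) = x :=
        Set.mem_singleton_iff.mp (default : ({x} : Set ℂ)).2
      rw [h1]
      exact hxt
    exact this
  obtain ⟨t, hxt, ht⟩ := exists_isTranscendenceBasis_superset h0
  have hcard : Cardinal.mk ℂ = Cardinal.mk t := by
    refine IsAlgClosed.cardinal_eq_cardinal_transcendence_basis_of_aleph0_lt'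
      (R := ℚ) (Subtype.val : t → ℂ) ht ?_ ?_
    · exact Cardinal.mk_le_aleph0
    · rw [Cardinal.mk_complex]
      exact Cardinal.aleph0_lt_continuum
  have hinf : Infinite t := by
    rw [Cardinal.infinite_iff, ← hcard, Cardinal.mk_complex]
    exact Cardinal.aleph0_le_continuum
  let x0 : t := ⟨x, hxt (Set.mem_singleton x)⟩
  have hsub : t ⊆ Set.range fun τ : ℂ ≃+* ℂ => τ x := by
    intro y hy
    obtain ⟨σ, hσ⟩ := exists_aut (Equiv.swap x0 ⟨y, hy⟩) ht
    refine ⟨σ, ?_⟩
    have h2 := hσ x0
    rw [Equiv.swap_apply_left] at h2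
    exact h2
  have hfin : t.Finite := hx.subset hsub
  exact (Set.infinite_coe_iff.1 hinf) hfin

end Pool.Agent.FQ
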