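import Pool.Agent.FQ.Defs

/-!
# Components of odd order
-/

set_option autoImplicit false
set_option linter.unusedSectionVars false

namespace Pool.Agent.FQ

section General

variable {K A : Type*} [Field K] [Ring A] [Algebra K A]

theorem IsExp.conj {N u : A} (hN : IsExp K N u) (g : Aˣ) :
    IsExp K ((g : A) * N * ((g⁻¹ : Aˣ) : A)) ((g : A) * u * ((g⁻¹ : Aˣ) : A)) := by
  obtain ⟨k, h1, h2⟩ := hN
  have h3 : ∀ i : ℕ, ((g : A) * N * ((g⁻¹ : Aˣ) : A)) ^ i =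
      (g : A) * N ^ i * ((g⁻¹ : Aˣ) : A) := fun i => by
    rw [← Units.conj_pow]
  refine ⟨k, by rw [h3, h1, mul_zero, zero_mul], ?_⟩
  rw [h2, Finset.mul_sum, Finset.sum_mul]
  refine Finset.sum_congr rfl fun i _ => ?_
  rw [h3, mul_smul_comm, smul_mul_assoc]

/-- The normaliser of `g` normalises the group generated by exponentials. -/
theorem expG_conj {g : Submodule K A} {n : Aˣ}
    (hn : ∀ x ∈ g, (n : A) * x * ((n⁻¹ : Aˣ) : A) ∈ g) {u : Aˣ} (hu : u ∈ expG K g) :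
    n * u * n⁻¹ ∈ expG K g := by
  unfold expG at hu ⊢
  induction hu using Subgroup.closure_induction with
  | mem x hx =>
    obtain ⟨N, hN, hx⟩ := hx
    refine Subgroup.subset_closure ⟨(n : A) * N * ((n⁻¹ : Aˣ) : A), hn N hN, ?_⟩
    exact hx.conj n
  | one =>
    rw [mul_one, mul_inv_cancel]
    exact one_mem _
  | mul x y _ _ hx hy =>
    have h1 : n * (x * y) * n⁻¹ = (n * x * n⁻¹) * (n * y * n⁻¹) := by group
    rw [h1]
    exact mul_mem hx hy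
  | inv x _ hx =>
    have h1 : n * x⁻¹ * n⁻¹ = (n * x * n⁻¹)⁻¹ := by group
    rw [h1]
    exact inv_mem hx

end General

variable {ι : Type} [Fintype ι] [DecidableEq ι] {h : Submodule ℚ (Matrix ι ι ℚ)}

/-- The powers of an element of a component. -/
theorem pow_comp {C : Type} [Group C] {τ : ℂ ≃+* ℂ} {ν : C → (Matrix ι ι ℂ)ˣ}
    (hν : CompData h τ ν) {c : C} {u : (Matrix ι ι ℂ)ˣ} (hu : u ∈ expG ℂ (cx h)) (j : ℕ) :
    ∃ a : ℂ, ∃ w ∈ expG ℂ (cx h), (((ν c * u) ^ j : (Matrix ι ι ℂ)ˣ) : Matrix ι ι ℂ) =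
      a • (w : Matrix ι ι ℂ) * ν (c ^ j) := by
  induction j with
  | zero =>
    obtain ⟨a, w, hw, h1⟩ := hν.mul 1 1
    rw [mul_one] at h1
    have h2 : (ν 1 : Matrix ι ι ℂ) = a • (w : Matrix ι ι ℂ) := by
      have h3 := congrArg (fun B => B * (((ν 1)⁻¹ : (Matrix ι ι ℂ)ˣ) : Matrix ι ι ℂ)) h1
      simp only [Matrix.smul_mul, mul_assoc, Units.mul_inv, mul_one] at h3
      exact h3
    rcases eq_or_ne a 0 with ha | ha
    · refine ⟨0, 1, one_mem _, ?_⟩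
      rw [ha, zero_smul] at h2
      have h3 : (1 : Matrix ι ι ℂ) = 0 := by
        rw [← Units.mul_inv (ν 1), h2, zero_mul]
      rw [pow_zero, Units.val_one, h3, zero_smul, zero_mul]
    · refine ⟨a⁻¹, w⁻¹, inv_mem hw, ?_⟩
      rw [pow_zero, pow_zero, h2, Units.val_one, Matrix.smul_mul, Matrix.mul_smul, smul_smul,
        inv_mul_cancel₀ ha, one_smul, Units.inv_mul]
  | succ j ih =>
    obtain ⟨a, w, hw, h1⟩ := ih
    obtain ⟨b, w', hw', h2⟩ := hν.mul (c ^ j) c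
    refine ⟨a * b, w * (w' * (ν (c ^ (j + 1)) * u * (ν (c ^ (j + 1)))⁻¹)),
      mul_mem hw (mul_mem hw' (expG_conj (hν.norm _) hu)), ?_⟩
    rw [pow_succ, Units.val_mul, h1, Units.val_mul, Units.val_mul, Units.val_mul, Units.val_mul,
      Units.val_mul, ← mul_assoc, mul_assoc _ _ (ν c : Matrix ι ι ℂ), h2, pow_succ,
      Matrix.smul_mul, Matrix.mul_smul, Matrix.smul_mul, Matrix.smul_mul, smul_smul]
    simp only [Matrix.smul_mul, mul_assoc, Units.inv_mul, mul_one]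

/-- Conjugation by proportional matrices. -/
theorem conj_of_smul {x y : (Matrix ι ι ℂ)ˣ} {a : ℂ} (hxy : (x : Matrix ι ι ℂ) = a • y)
    (e : Matrix ι ι ℂ) : (x : Matrix ι ι ℂ) * e * ((x⁻¹ : (Matrix ι ι ℂ)ˣ) : Matrix ι ι ℂ) =
      (y : Matrix ι ι ℂ) * e * ((y⁻¹ : (Matrix ι ι ℂ)ˣ) : Matrix ι ι ℂ) := by
  rw [Units.mul_inv_eq_iff_eq_mul, hxy, Matrix.smul_mul, Matrix.mul_smul]
  congr 1
  rw [mul_assoc, Units.inv_mul, mul_one]

/-- If the order of the group of the components is odd then the conjugacy of `e` and `1 - e` is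
given by an element of the group generated by exponentials. -/
theorem exists_exp_of_odd {C : Type} [Group C] {τ : ℂ ≃+* ℂ} {ν : C → (Matrix ι ι ℂ)ˣ}
    (hν : CompData h τ ν) (hC : Odd (Nat.card C)) {c : C} {u : (Matrix ι ι ℂ)ˣ}
    (hu : u ∈ expG ℂ (cx h)) {e : Matrix ι ι ℂ}
    (hue : ((ν c * u : (Matrix ι ι ℂ)ˣ) : Matrix ι ι ℂ) * e *
      (((ν c * u)⁻¹ : (Matrix ι ι ℂ)ˣ) : Matrix ι ι ℂ) = 1 - e) :
    ∃ u' ∈ expG ℂ (cx h),
      (u' : Matrix ι ι ℂ) * e * ((u'⁻¹ : (Matrix ι ι ℂ)ˣ) : Matrix ι ι ℂ) = 1 - e := by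
  set g := ν c * u with hg
  have hinv : ∀ (x : (Matrix ι ι ℂ)ˣ), (x : Matrix ι ι ℂ) * (1 - e) *
      ((x⁻¹ : (Matrix ι ι ℂ)ˣ) : Matrix ι ι ℂ) = 1 -
      (x : Matrix ι ι ℂ) * e * ((x⁻¹ : (Matrix ι ι ℂ)ˣ) : Matrix ι ι ℂ) := fun x => by
    rw [mul_sub, mul_one, sub_mul, Units.mul_inv]
  have hmul : ∀ (x y : (Matrix ι ι ℂ)ˣ) (z : Matrix ι ι ℂ),
      ((x * y : (Matrix ι ι ℂ)ˣ) : Matrix ι ι ℂ) * z *
        (((x * y)⁻¹ : (Matrix ι ι ℂ)ˣ) : Matrix ι ι ℂ) =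
      (x : Matrix ι ι ℂ) * ((y : Matrix ι ι ℂ) * z *
        ((y⁻¹ : (Matrix ι ι ℂ)ˣ) : Matrix ι ι ℂ)) * ((x⁻¹ : (Matrix ι ι ℂ)ˣ) : Matrix ι ι ℂ) :=
    fun x y z => by
      rw [mul_inv_rev, Units.val_mul, Units.val_mul]
      simp only [mul_assoc]
  have hpow : ∀ j : ℕ, ((g ^ (2 * j + 1) : (Matrix ι ι ℂ)ˣ) : Matrix ι ι ℂ) * e *
      (((g ^ (2 * j + 1))⁻¹ : (Matrix ι ι ℂ)ˣ) : Matrix ι ι ℂ) = 1 - e := by
    intro j
    induction j with
    | zero =>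
      rw [mul_zero, zero_add, pow_one]
      exact hue
    | succ j ih =>
      have h1 : g ^ (2 * (j + 1) + 1) = g ^ (2 * j + 1) * (g * g) := by
        rw [← pow_two, ← pow_add]
        congr 1
      rw [h1, hmul, hmul g g, hue, hinv, hue, sub_sub_cancel, ih]
  obtain ⟨j, hj⟩ := hC
  have hc : c ^ (2 * j + 1) = 1 := by
    rw [← hj]
    exact pow_card_eq_one'
  obtain ⟨a, w, hw, h1⟩ := pow_comp hν (c := c) hu (2 * j + 1)
  obtain ⟨b, w', hw', h2⟩ := pow_comp hν (c := c) hu 0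
  rw [hc] at h1
  rw [pow_zero, pow_zero] at h2
  rcases subsingleton_or_nontrivial (Matrix ι ι ℂ) with hsub | hnt
  · exact ⟨1, one_mem _, Subsingleton.elim _ _⟩
  have hb : b ≠ 0 := by
    rintro rfl
    rw [zero_smul, zero_mul, Units.val_one] at h2
    exact one_ne_zero h2
  have h3 : ((g ^ (2 * j + 1) : (Matrix ι ι ℂ)ˣ) : Matrix ι ι ℂ) =
      (a * b⁻¹) • ((w * w'⁻¹ : (Matrix ι ι ℂ)ˣ) : Matrix ι ι ℂ) := by
    have h4 : (ν 1 : Matrix ι ι ℂ) = b⁻¹ • ((w'⁻¹ : (Matrix ι ι ℂ)ˣ) : Matrix ι ι ℂ) := by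
      have h5 := congrArg (fun B => b⁻¹ • (((w'⁻¹ : (Matrix ι ι ℂ)ˣ) : Matrix ι ι ℂ) * B)) h2
      simp only [Units.val_one, mul_one, Matrix.smul_mul, Matrix.mul_smul, smul_smul,
        inv_mul_cancel₀ hb, one_smul, Units.inv_mul_cancel_left] at h5
      exact h5.symm
    rw [h1, h4, Units.val_mul, Matrix.smul_mul, Matrix.mul_smul, smul_smul]
  refine ⟨w * w'⁻¹, mul_mem hw (inv_mem hw'), ?_⟩
  rw [← conj_of_smul h3 e]
  exact hpow j

end Pool.Agent.FQ
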