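import Pool.Agent.CoprimeSig.Defs2
import Pool.Agent.OneFrob.Torus

/-!
# The Mumford–Tate conjecture for abelian varieties over fields with a real place: definitions

`h` is a Lie algebra of rational matrices: the derived algebra of the Lie algebra of the group over
`ℚ` whose extensions to `ℚ_ℓ` are the `ℓ`-adic monodromy groups (Pink 1998, Theorem 5.13).
-/

set_option autoImplicit false

namespace Pool.Agent.FQ

open Pool.Agent.CoprimeSig (ratM)
open Pool.Agent.OneFrob (frobTorus)

section Exp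

variable (K : Type*) {A : Type*} [Field K] [Ring A] [Algebra K A]

/-- `u` is the exponential of the nilpotent element `N`. -/
def IsExp (N u : A) : Prop :=
  ∃ k : ℕ, N ^ k = 0 ∧ u = ∑ i ∈ Finset.range k, ((i.factorial : ℕ) : K)⁻¹ • N ^ i

/-- The group generated by the exponentials of the nilpotent elements of `g`. -/
def expG (g : Submodule K A) : Subgroup Aˣ :=
  Subgroup.closure {u | ∃ N ∈ g, IsExp K N (u : A)}

end Exp

section Data

variable {ι : Type} [Fintype ι] [DecidableEq ι]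

/-- The complex vector space spanned by a space of rational matrices. -/
def cx (h : Submodule ℚ (Matrix ι ι ℚ)) : Submodule ℂ (Matrix ι ι ℂ) :=
  Submodule.span ℂ (ratM '' (h : Set (Matrix ι ι ℚ)))

/-- `h` is a Lie algebra of rational matrices which are skew for the nondegenerate alternating form
with the matrix `F`; it has no ideals over `ℚ` except zero and `h`, and `ℂ^ι` is irreducible. -/
structure LieData (F : Matrix ι ι ℚ) (h : Submodule ℚ (Matrix ι ι ℚ)) : Prop where
  alt : F.transpose = -F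
  nondeg : IsUnit F
  skew : ∀ x ∈ h, x.transpose * F + F * x = 0
  lie : ∀ x ∈ h, ∀ y ∈ h, x * y - y * x ∈ h
  simple : ∀ a : Submodule ℚ (Matrix ι ι ℚ), a ≤ h → (∀ x ∈ h, ∀ y ∈ a, x * y - y * x ∈ a) →
    a = ⊥ ∨ a = h
  irr : ∀ W : Submodule ℂ (ι → ℂ), (∀ x ∈ h, ∀ w ∈ W, (ratM x).mulVec w ∈ W) → W = ⊥ ∨ W = ⊤

/-- An idempotent in `h` plus the homotheties, over `ℂ`, such that `2 e - 1` is in `h`. -/
structure IsCochar (h : Submodule ℚ (Matrix ι ι ℚ)) (e : Matrix ι ι ℂ) : Prop where
  idem : e * e = e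
  mem : (2 : ℂ) • e - 1 ∈ cx h

/-- The data of the components of the monodromy group: `ν c` is a point over `ℚ_ℓ` of the component
`c` of the monodromy group over `ℚ_ℓ`. -/
structure CompData (h : Submodule ℚ (Matrix ι ι ℚ)) {C : Type} [Group C] (τ : ℂ ≃+* ℂ)
    (ν : C → (Matrix ι ι ℂ)ˣ) : Prop where
  fixed : ∀ c, (ν c : Matrix ι ι ℂ).map τ = ν c
  norm : ∀ c, ∀ x ∈ cx h, (ν c : Matrix ι ι ℂ) * x * ((ν c)⁻¹ : (Matrix ι ι ℂ)ˣ) ∈ cx h
  mul : ∀ c c', ∃ a : ℂ, ∃ u ∈ expG ℂ (cx h),
    (ν c : Matrix ι ι ℂ) * ν c' = a • ((u : Matrix ι ι ℂ) * ν (c * c'))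

/-- The data given by the theory of Hodge and Tate at a prime `ℓ` and a place of degree one over
`ℓ`, if `ℂ` is identified with an algebraic closure of `ℚ_ℓ` and `τ` is in the decomposition group:
`Φ` is the Frobenius element of a fixed place of good reduction with the characteristic polynomial
`P`, the idempotent `e` in the Lie algebra of its torus is conjugate to the idempotent of the
decomposition of Hodge and Tate, so that `τ(e)` and `e` are conjugate by an element of the
monodromy group with the group of components `C`. -/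
def HodgeTate (h : Submodule ℚ (Matrix ι ι ℚ)) (P : Polynomial ℚ) (C : Type) [Group C]
    (τ : ℂ ≃+* ℂ) : Prop :=
  ∃ (Φ e : Matrix ι ι ℂ) (ν : C → (Matrix ι ι ℂ)ˣ),
    Φ.charpoly = P.map (algebraMap ℚ ℂ) ∧
    (⨆ μ, Module.End.eigenspace (Matrix.toLin' Φ) μ = ⊤) ∧ Φ.map τ = Φ ∧
    Matrix.toLin' e ∈ frobTorus (Matrix.toLin' Φ) ∧ IsCochar h e ∧ CompData h τ ν ∧
    ∃ c, ∃ u ∈ expG ℂ (cx h),
      e.map τ = ((ν c * u : (Matrix ι ι ℂ)ˣ) : Matrix ι ι ℂ) * e *
        (((ν c * u)⁻¹ : (Matrix ι ι ℂ)ˣ) : Matrix ι ι ℂ)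

end Data

end Pool.Agent.FQ
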