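import Pool.Agent.Mod4.Split
import Pool.Agent.FQ.Defs

/-!
# Ideals of an irreducible Lie algebra of complex matrices

PACKAGE (statements frozen). `H` is closed under commutators, consists of matrices of trace zero
and acts irreducibly. Everything is a translation of results for `Module.End ℂ (ι → ℂ)` by
`Matrix.toLin'` / `Matrix.toLinAlgEquiv'` (`CoprimeSig.endo H = H.map toLin'`, `CoprimeSig.mem_endo`):
* `IsIdl.abelian`: `Mod4.abelian_zero`.
* `comm_split`: `Mod4.comm_split` (the trace of `2 e - 1` is zero because it is in `H`).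
* `idl H e` is the smallest subspace containing `2 e - 1` which is stable under `[x, -]`, `x ∈ H`;
  it is contained in `H` because `H` is such a subspace.
* `idl_dichotomy`: by `comm_split` either `2 e - 1 ∈ s`, and then `idl H e ≤ s`, or `e` commutes with
  `s`; then `{z | z ∈ H ∧ ∀ y ∈ s, z * y = y * z}` is an ideal (Jacobi: `[[x, z], y] =
  [x, [z, y]] - [z, [x, y]]` and `[x, y] ∈ s`) which contains `2 e - 1`.
* `idl_ne_bot`: `(2 e - 1) * (2 e - 1) = 1 ≠ 0`.
* `idl_eq_or_comm`: `idl_dichotomy` for `e` and `s = idl H e'` and for `e'` and `s = idl H e`. If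
  `idl H e ≤ idl H e'` and `idl H e'` commutes with `idl H e` then `idl H e` is abelian, hence zero,
  contradiction.
-/

set_option autoImplicit false

namespace Pool.Agent.FQ

open Module

variable {ι : Type} [Fintype ι] [DecidableEq ι]

/-- An irreducible Lie algebra of complex matrices of trace zero. -/
structure CxLie (H : Submodule ℂ (Matrix ι ι ℂ)) : Prop where
  lie : ∀ x ∈ H, ∀ y ∈ H, x * y - y * x ∈ H
  tr : ∀ x ∈ H, x.trace = 0
  irr : ∀ W : Submodule ℂ (ι → ℂ), (∀ x ∈ H, ∀ w ∈ W, x.mulVec w ∈ W) → W = ⊥ ∨ W = ⊤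

/-- `s` is an ideal of `H`. -/
def IsIdl (H s : Submodule ℂ (Matrix ι ι ℂ)) : Prop :=
  s ≤ H ∧ ∀ x ∈ H, ∀ y ∈ s, x * y - y * x ∈ s

/-- The ideal generated by `2 e - 1`. -/
def idl (H : Submodule ℂ (Matrix ι ι ℂ)) (e : Matrix ι ι ℂ) : Submodule ℂ (Matrix ι ι ℂ) :=
  sInf {s | (2 : ℂ) • e - 1 ∈ s ∧ ∀ x ∈ H, ∀ y ∈ s, x * y - y * x ∈ s}

variable {H s : Submodule ℂ (Matrix ι ι ℂ)} {e e' : Matrix ι ι ℂ}

private theorem tl_mul (x y : Matrix ι ι ℂ) :
    Matrix.toLin' (x * y) = Matrix.toLin' x * Matrix.toLin' y := Matrix.toLin'_mul x y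

private theorem tl_one : Matrix.toLin' (1 : Matrix ι ι ℂ) = 1 := Matrix.toLin'_one

private theorem tl_trace (x : Matrix ι ι ℂ) :
    LinearMap.trace ℂ (ι → ℂ) (Matrix.toLin' x) = x.trace := by
  rw [LinearMap.trace_eq_matrix_trace ℂ (Pi.basisFun ℂ ι), LinearMap.toMatrix_eq_toMatrix',
    LinearMap.toMatrix'_toLin']

private theorem tl_inj {x y : Matrix ι ι ℂ} (h : Matrix.toLin' x = Matrix.toLin' y) : x = y :=
  (Matrix.toLin' (R := ℂ)).injective h

private theorem tl_irr (hH : CxLie H) : ∀ U : Submodule ℂ (ι → ℂ),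
    (∀ a ∈ CoprimeSig.endo H, ∀ w ∈ U, a w ∈ U) → U = ⊥ ∨ U = ⊤ := fun U hU =>
  hH.irr U fun x hx w hw => by
    have h := hU (Matrix.toLin' x) (CoprimeSig.mem_endo.2 hx) w hw
    rwa [Matrix.toLin'_apply] at h

private theorem tl_lie (hs : ∀ x ∈ H, ∀ y ∈ s, x * y - y * x ∈ s) :
    ∀ a ∈ CoprimeSig.endo H, ∀ b ∈ CoprimeSig.endo s, a * b - b * a ∈ CoprimeSig.endo s := by
  rintro _ ⟨x, hx, rfl⟩ _ ⟨y, hy, rfl⟩
  refine ⟨x * y - y * x, hs x hx y hy, ?_⟩
  change Matrix.toLin' (x * y - y * x) = Matrix.toLin' x * Matrix.toLin' y -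
    Matrix.toLin' y * Matrix.toLin' x
  rw [map_sub, tl_mul, tl_mul]

theorem mem_idl : (2 : ℂ) • e - 1 ∈ idl H e :=
  Submodule.mem_sInf.2 fun _ hs => hs.1

theorem idl_stable : ∀ x ∈ H, ∀ y ∈ idl H e, x * y - y * x ∈ idl H e := by
  intro x hx y hy
  refine Submodule.mem_sInf.2 fun s hs => hs.2 x hx y ?_
  exact Submodule.mem_sInf.1 hy s hs

theorem idl_le (h1 : (2 : ℂ) • e - 1 ∈ s) (h2 : ∀ x ∈ H, ∀ y ∈ s, x * y - y * x ∈ s) :
    idl H e ≤ s := sInf_le ⟨h1, h2⟩

theorem isIdl_idl (hH : CxLie H) (he : (2 : ℂ) • e - 1 ∈ H) : IsIdl H (idl H e) :=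
  ⟨idl_le he hH.lie, idl_stable⟩

theorem IsIdl.abelian [Nonempty ι] (hH : CxLie H) (hs : IsIdl H s)
    (hab : ∀ a ∈ s, ∀ b ∈ s, a * b = b * a) : s = ⊥ := by
  rw [Submodule.eq_bot_iff]
  intro x hx
  have h := Mod4.abelian_zero (tl_irr hH) (Submodule.map_mono hs.1) (tl_lie hs.2) ?_ ?_
    (Matrix.toLin' x) (CoprimeSig.mem_endo.2 hx)
  · exact tl_inj (h.trans (map_zero _).symm)
  · rintro _ ⟨a, ha, rfl⟩ _ ⟨b, hb, rfl⟩
    change Matrix.toLin' a * Matrix.toLin' b = Matrix.toLin' b * Matrix.toLin' a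
    rw [← tl_mul, ← tl_mul, hab a ha b hb]
  · rintro _ ⟨a, ha, rfl⟩
    exact (tl_trace a).trans (hH.tr a (hs.1 ha))

theorem comm_split [Nonempty ι] (hH : CxLie H) (hs : IsIdl H s) (hee : e * e = e)
    (he : (2 : ℂ) • e - 1 ∈ H) : (2 : ℂ) • e - 1 ∈ s ∨ ∀ y ∈ s, e * y = y * e := by
  have e1 : Matrix.toLin' ((2 : ℂ) • e - 1) = (2 : ℂ) • Matrix.toLin' e - 1 := by
    rw [map_sub, map_smul, tl_one]
  have h := Mod4.comm_split (e := Matrix.toLin' e) (tl_lie hH.lie) (tl_irr hH)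
    (Submodule.map_mono hs.1) (tl_lie hs.2) ?_ ?_ ?_ ?_
  · rcases h with h | h
    · left
      rw [← e1] at h
      exact CoprimeSig.mem_endo.1 h
    · right
      intro y hy
      have h1 := h (Matrix.toLin' y) (CoprimeSig.mem_endo.2 hy)
      rw [← tl_mul, ← tl_mul] at h1
      exact tl_inj h1
  · rintro _ ⟨a, ha, rfl⟩
    exact (tl_trace a).trans (hH.tr a (hs.1 ha))
  · rw [← e1]
    exact CoprimeSig.mem_endo.2 he
  · rw [← tl_mul, hee]
  · rw [← e1, tl_trace]
    exact hH.tr _ he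

theorem idl_dichotomy [Nonempty ι] (hH : CxLie H) (hs : IsIdl H s) (hee : e * e = e)
    (he : (2 : ℂ) • e - 1 ∈ H) : idl H e ≤ s ∨ ∀ z ∈ idl H e, ∀ y ∈ s, z * y = y * z := by
  rcases comm_split hH hs hee he with h | h
  · exact Or.inl (idl_le h hs.2)
  · right
    let c : Submodule ℂ (Matrix ι ι ℂ) :=
      { carrier := {z | ∀ y ∈ s, z * y = y * z}
        add_mem' := by
          intro a b ha hb y hy
          rw [add_mul, mul_add, ha y hy, hb y hy]
        zero_mem' := by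
          intro y _
          rw [zero_mul, mul_zero]
        smul_mem' := by
          intro r a ha y hy
          rw [smul_mul_assoc, mul_smul_comm, ha y hy] }
    have hc : idl H e ≤ c := by
      refine idl_le ?_ ?_
      · intro y hy
        rw [sub_mul, mul_sub, smul_mul_assoc, mul_smul_comm, h y hy, one_mul, mul_one]
      · intro x hx z hz y hy
        have h1 : z * y = y * z := hz y hy
        have h2 : z * (x * y - y * x) = (x * y - y * x) * z := hz _ (hs.2 x hx y hy)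
        have h3 : z * (x * y) - z * (y * x) = x * y * z - y * x * z := by
          rw [← mul_sub, h2, sub_mul]
        have e1 : (x * z - z * x) * y - y * (x * z - z * x) =
            x * (z * y) - z * (x * y) - (y * x * z - y * z * x) := by
          simp only [sub_mul, mul_sub, mul_assoc]
        have e2 : x * (z * y) = x * y * z := by rw [h1, mul_assoc]
        have e3 : z * (y * x) = y * z * x := by rw [← mul_assoc, h1]
        have e4 : (x * z - z * x) * y - y * (x * z - z * x) = 0 := by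
          rw [e1, e2, ← e3]
          have h4 : x * y * z = z * (x * y) - z * (y * x) + y * x * z := by rw [h3]; abel
          rw [h4]
          abel
        exact sub_eq_zero.1 e4
    exact fun z hz y hy => hc hz y hy

theorem idl_ne_bot [Nonempty ι] (hee : e * e = e) : idl H e ≠ ⊥ := by
  intro h
  have h1 : (2 : ℂ) • e - 1 ∈ idl H e := mem_idl
  rw [h, Submodule.mem_bot] at h1
  have h2 : ((2 : ℂ) • e - 1) * ((2 : ℂ) • e - 1) = 1 := by
    have h1 : ((2 : ℂ) • e - 1) * ((2 : ℂ) • e - 1) = (4 : ℂ) • (e * e) - (4 : ℂ) • e + 1 := by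
      simp only [sub_mul, mul_sub, smul_mul_assoc, mul_smul_comm, mul_one, one_mul]
      module
    rw [h1, hee]
    module
  rw [h1, mul_zero] at h2
  exact zero_ne_one h2

theorem idl_eq_or_comm [Nonempty ι] (hH : CxLie H) (hee : e * e = e) (he : (2 : ℂ) • e - 1 ∈ H)
    (hee' : e' * e' = e') (he' : (2 : ℂ) • e' - 1 ∈ H) :
    idl H e = idl H e' ∨ ∀ z ∈ idl H e, ∀ y ∈ idl H e', z * y = y * z := by
  rcases idl_dichotomy hH (isIdl_idl hH he') hee he with h1 | h1
  · rcases idl_dichotomy hH (isIdl_idl hH he) hee' he' with h2 | h2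
    · exact Or.inl (le_antisymm h1 h2)
    · exfalso
      refine idl_ne_bot (H := H) hee (IsIdl.abelian hH (isIdl_idl hH he) ?_)
      intro a ha b hb
      exact h2 a (h1 ha) b hb
  · exact Or.inr h1

end Pool.Agent.FQ
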