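import Pool.Agent.FQ.Act
import Pool.Agent.FQ.Mat
import Pool.Agent.LargeDom.Aut

/-!
# The automorphisms of `ℂ` and ideals of the complex Lie algebra

PACKAGE (statements frozen).
* `act_cx`: `act τ` maps the spanning set `ratM '' h` to itself.
* `act_idl`: `act τ` maps the subspaces in the definition of `idl (cx h) e` to those for `e.map τ`.
* `ratM_mem_cx`: a rational matrix in the complex span of `h` is in `h` (choose a rational linear
  form which vanishes on `h` but not on the matrix, `Submodule.exists_le_ker_of_notMem`, and extend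
  it to the complex matrices: it is given by rational coefficients `∑ c i j * A i j`).
* `exists_cx`: `LargeDom.descent_aut` with `M = ι × ι`; `a` is the space of the rational
  matrices `A` with `ratM A ∈ U`.
* `eq_bot_or_eq_cx`: `exists_cx` gives `s = cx a`; `a ≤ h` and `a` is an ideal by `ratM_mem_cx`.
* `skew_cx`: linear in `A`, true for the spanning set.
* `cxLie`: trace: `x ∈ h` is skew, `xᵀ = - F x F⁻¹` has the trace of `-x`. The commutators: bilinear
  in the spanning set. Irreducible: `ratM x ∈ cx h`.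
* `IsCochar.mult`: `skew_cx` for `2 e - 1`.
-/

set_option autoImplicit false
set_option linter.unusedSectionVars false

namespace Pool.Agent.FQ

open Module
open Pool.Agent.CoprimeSig (ratM)

variable {ι : Type} [Fintype ι] [DecidableEq ι]

variable {U s : Submodule ℂ (Matrix ι ι ℂ)} {A e : Matrix ι ι ℂ} {τ : ℂ ≃+* ℂ}
  {F : Matrix ι ι ℚ} {h : Submodule ℚ (Matrix ι ι ℚ)}

private theorem desc_ratM_mul (A B : Matrix ι ι ℚ) : ratM (A * B) = ratM A * ratM B := by
  ext i j
  simp [ratM, Matrix.mul_apply, Matrix.map_apply]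

private theorem desc_ratM_add (A B : Matrix ι ι ℚ) : ratM (A + B) = ratM A + ratM B := by
  ext i j
  simp [ratM, Matrix.map_apply]

private theorem desc_ratM_sub (A B : Matrix ι ι ℚ) : ratM (A - B) = ratM A - ratM B := by
  ext i j
  simp [ratM, Matrix.map_apply]

private theorem desc_ratM_smul (q : ℚ) (A : Matrix ι ι ℚ) :
    ratM (q • A) = (q : ℂ) • ratM A := by
  ext i j
  simp [ratM, Matrix.map_apply]

private theorem desc_ratM_zero : ratM (0 : Matrix ι ι ℚ) = 0 := by
  ext i j
  simp [ratM, Matrix.map_apply]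

private theorem desc_ratM_transpose (A : Matrix ι ι ℚ) :
    ratM A.transpose = (ratM A).transpose := by
  ext i j
  simp [ratM, Matrix.map_apply]

private theorem desc_map_ratM (τ : ℂ ≃+* ℂ) (B : Matrix ι ι ℚ) : (ratM B).map τ = ratM B := by
  ext i j
  rw [Matrix.map_apply, ratM, Matrix.map_apply, map_ratCast]

private theorem desc_map_mul (τ : ℂ ≃+* ℂ) (A B : Matrix ι ι ℂ) :
    (A * B).map τ = A.map τ * B.map τ := by
  ext i j
  simp [Matrix.mul_apply, Matrix.map_apply]

private theorem desc_map_sub (τ : ℂ ≃+* ℂ) (A B : Matrix ι ι ℂ) :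
    (A - B).map τ = A.map τ - B.map τ := by
  ext i j
  simp [Matrix.map_apply]

private theorem desc_map_comm (τ : ℂ ≃+* ℂ) (A B : Matrix ι ι ℂ) :
    (A * B - B * A).map τ = A.map τ * B.map τ - B.map τ * A.map τ := by
  rw [desc_map_sub, desc_map_mul, desc_map_mul]

private theorem desc_map_two (τ : ℂ ≃+* ℂ) (A : Matrix ι ι ℂ) :
    ((2 : ℂ) • A - 1).map τ = (2 : ℂ) • A.map τ - 1 := by
  rw [desc_map_sub]
  congr 1
  · ext i j
    rw [Matrix.map_apply, Matrix.smul_apply, Matrix.smul_apply, Matrix.map_apply, smul_eq_mul,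
      smul_eq_mul, map_mul, map_ofNat]
  · ext i j
    rw [Matrix.map_apply, Matrix.one_apply, apply_ite τ, map_one, map_zero]

private theorem desc_symm_map (τ : ℂ ≃+* ℂ) (A : Matrix ι ι ℂ) : (A.map τ).map τ.symm = A := by
  ext i j
  simp [Matrix.map_apply]

private theorem desc_map_symm (τ : ℂ ≃+* ℂ) (A : Matrix ι ι ℂ) : (A.map τ.symm).map τ = A := by
  ext i j
  simp [Matrix.map_apply]

private theorem desc_ratM_mem {B : Matrix ι ι ℚ} (hB : B ∈ h) : ratM B ∈ cx h :=
  Submodule.subset_span ⟨B, hB, rfl⟩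

private theorem desc_cx_le (τ : ℂ ≃+* ℂ) : cx h ≤ act τ (cx h) := by
  refine Submodule.span_le.2 ?_
  rintro _ ⟨B, hB, rfl⟩
  change (ratM B).map τ.symm ∈ cx h
  rw [desc_map_ratM]
  exact desc_ratM_mem hB

theorem act_cx : act τ (cx h) = cx h := by
  refine le_antisymm (fun A hA => ?_) (desc_cx_le τ)
  have h1 : A.map τ.symm ∈ cx h := hA
  have h2 : (A.map τ.symm).map τ ∈ cx h := desc_cx_le τ.symm h1
  rwa [desc_map_symm] at h2

theorem map_mem_cx (hA : A ∈ cx h) : A.map τ ∈ cx h := desc_cx_le τ.symm hA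

private theorem desc_idl_le (τ : ℂ ≃+* ℂ) (e : Matrix ι ι ℂ) :
    idl (cx h) (e.map τ) ≤ act τ (idl (cx h) e) := by
  refine idl_le ?_ fun x hx y hy => ?_
  · change ((2 : ℂ) • e.map τ - 1).map τ.symm ∈ idl (cx h) e
    rw [desc_map_two, desc_symm_map]
    exact mem_idl
  · change (x * y - y * x).map τ.symm ∈ idl (cx h) e
    rw [desc_map_comm]
    exact idl_stable _ (map_mem_cx hx) _ hy

theorem act_idl : act τ (idl (cx h) e) = idl (cx h) (e.map τ) := by
  refine le_antisymm (fun A hA => ?_) (desc_idl_le τ e)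
  have h1 : A.map τ.symm ∈ idl (cx h) e := hA
  have h2 : idl (cx h) ((e.map τ).map τ.symm) ≤ act τ.symm (idl (cx h) (e.map τ)) :=
    desc_idl_le τ.symm (e.map τ)
  rw [desc_symm_map] at h2
  have h3 : (A.map τ.symm).map τ ∈ idl (cx h) (e.map τ) := h2 h1
  rwa [desc_map_symm] at h3

theorem IsIdl.act (hs : IsIdl (cx h) s) (τ : ℂ ≃+* ℂ) : IsIdl (cx h) (act τ s) := by
  refine ⟨fun A hA => ?_, fun x hx y hy => ?_⟩
  · have h1 : A.map τ.symm ∈ s := hA
    have h2 : (A.map τ.symm).map τ ∈ cx h := map_mem_cx (hs.1 h1)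
    rwa [desc_map_symm] at h2
  · change (x * y - y * x).map τ.symm ∈ s
    rw [desc_map_comm]
    exact hs.2 _ (map_mem_cx hx) _ hy

theorem ratM_mem_cx {B : Matrix ι ι ℚ} : ratM B ∈ cx h ↔ B ∈ h := by
  refine ⟨fun hB => ?_, desc_ratM_mem⟩
  by_contra hn
  obtain ⟨f, hf1, hf2⟩ := Submodule.exists_le_ker_of_notMem hn
  let G : Matrix ι ι ℂ →ₗ[ℂ] ℂ :=
    { toFun := fun A => ∑ i, ∑ j, A i j * (f (Matrix.single i j 1) : ℂ)
      map_add' := fun A B => by
        simp only [Matrix.add_apply, add_mul, Finset.sum_add_distrib]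
      map_smul' := fun c A => by
        simp only [Matrix.smul_apply, smul_eq_mul, mul_assoc, Finset.mul_sum, RingHom.id_apply] }
  have hG : ∀ C : Matrix ι ι ℚ, G (ratM C) = (f C : ℂ) := by
    intro C
    have e1 : f C = ∑ i, ∑ j, C i j * f (Matrix.single i j 1) := by
      conv_lhs => rw [Matrix.matrix_eq_sum_single C]
      rw [map_sum]
      refine Finset.sum_congr rfl fun i _ => ?_
      rw [map_sum]
      refine Finset.sum_congr rfl fun j _ => ?_
      have e2 : Matrix.single i j (C i j) = C i j • Matrix.single i j (1 : ℚ) := by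
        rw [Matrix.smul_single, smul_eq_mul, mul_one]
      rw [e2, map_smul, smul_eq_mul]
    rw [e1]
    push_cast
    rfl
  have hle : cx h ≤ LinearMap.ker G := by
    refine Submodule.span_le.2 ?_
    rintro _ ⟨C, hC, rfl⟩
    have e3 : f C = 0 := hf2 hC
    change G (ratM C) = 0
    rw [hG, e3, Rat.cast_zero]
  have h4 : G (ratM B) = 0 := hle hB
  rw [hG] at h4
  exact hf1 (by exact_mod_cast h4)

theorem exists_cx (hU : ∀ τ : ℂ ≃+* ℂ, FQ.act τ U ≤ U) :
    ∃ a : Submodule ℚ (Matrix ι ι ℚ), cx a = U := by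
  let a : Submodule ℚ (Matrix ι ι ℚ) :=
    { carrier := {A | ratM A ∈ U}
      add_mem' := fun {A B} hA hB => by
        change ratM (A + B) ∈ U
        rw [desc_ratM_add]
        exact U.add_mem hA hB
      zero_mem' := by
        change ratM (0 : Matrix ι ι ℚ) ∈ U
        rw [desc_ratM_zero]
        exact U.zero_mem
      smul_mem' := fun q A hA => by
        change ratM (q • A) ∈ U
        rw [desc_ratM_smul]
        exact U.smul_mem _ hA }
  have ha : ∀ A : Matrix ι ι ℚ, A ∈ a ↔ ratM A ∈ U := fun A => Iff.rfl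
  let M : (ι × ι → ℂ) →ₗ[ℂ] Matrix ι ι ℂ :=
    { toFun := fun v => Matrix.of fun i j => v (i, j)
      map_add' := fun v w => by
        ext i j
        rfl
      map_smul' := fun c v => by
        ext i j
        rfl }
  have hM : ∀ (v : ι × ι → ℂ) (i j : ι), M v i j = v (i, j) := fun v i j => rfl
  refine ⟨a, le_antisymm (Submodule.span_le.2 ?_) fun A hA => ?_⟩
  · rintro _ ⟨B, hB, rfl⟩
    exact hB
  · have hd := Pool.Agent.LargeDom.descent_aut (U.comap M) (fun σ u hu => by
      have h1 : M u ∈ U := hu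
      have h2 : (M u).map σ ∈ FQ.act σ U := by
        change ((M u).map σ).map σ.symm ∈ U
        rwa [desc_symm_map]
      exact hU σ h2)
    have hv : (fun p : ι × ι => A p.1 p.2) ∈ U.comap M := by
      change M (fun p : ι × ι => A p.1 p.2) ∈ U
      have e : M (fun p : ι × ι => A p.1 p.2) = A := by
        ext i j
        rfl
      rwa [e]
    have h3 := Submodule.mem_map_of_mem (f := M) (hd hv)
    rw [Submodule.map_span] at h3
    have e : M (fun p : ι × ι => A p.1 p.2) = A := by
      ext i j
      rfl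
    rw [e] at h3
    refine Submodule.span_mono ?_ h3
    rintro _ ⟨u, ⟨hu1, hu2⟩, rfl⟩
    choose q hq using hu2
    have e2 : ratM (Matrix.of fun i j => q (i, j)) = M u := by
      ext i j
      rw [hM, hq]
      rfl
    refine ⟨Matrix.of fun i j => q (i, j), ?_, e2⟩
    change ratM (Matrix.of fun i j => q (i, j)) ∈ U
    rw [e2]
    exact hu1

/-- Induction for the elements of `cx h`. -/
private theorem desc_induction {p : Matrix ι ι ℂ → Prop} (hp : ∀ B ∈ h, p (ratM B)) (h0 : p 0)
    (hadd : ∀ x y, p x → p y → p (x + y)) (hsmul : ∀ (c : ℂ) x, p x → p (c • x)) :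
    ∀ x ∈ cx h, p x := by
  intro x hx
  induction hx using Submodule.span_induction with
  | mem x hx =>
    obtain ⟨B, hB, rfl⟩ := hx
    exact hp B hB
  | zero => exact h0
  | add x y _ _ h1 h2 => exact hadd x y h1 h2
  | smul c x _ h1 => exact hsmul c x h1

theorem cxLie (D : LieData F h) : CxLie (cx h) := by
  refine ⟨?_, ?_, ?_⟩
  · refine desc_induction ?_ ?_ ?_ ?_
    · intro B hB
      refine desc_induction ?_ ?_ ?_ ?_
      · intro C hC
        rw [← desc_ratM_mul, ← desc_ratM_mul, ← desc_ratM_sub]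
        exact desc_ratM_mem (D.lie B hB C hC)
      · rw [mul_zero, zero_mul, sub_zero]
        exact Submodule.zero_mem _
      · intro x y hx hy
        have e : ratM B * (x + y) - (x + y) * ratM B =
            (ratM B * x - x * ratM B) + (ratM B * y - y * ratM B) := by noncomm_ring
        rw [e]
        exact Submodule.add_mem _ hx hy
      · intro c x hx
        have e : ratM B * (c • x) - (c • x) * ratM B = c • (ratM B * x - x * ratM B) := by
          rw [Matrix.mul_smul, Matrix.smul_mul, smul_sub]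
        rw [e]
        exact Submodule.smul_mem _ _ hx
    · intro y _
      rw [mul_zero, zero_mul, sub_zero]
      exact Submodule.zero_mem _
    · intro x x' hx hx' y hy
      have e : (x + x') * y - y * (x + x') = (x * y - y * x) + (x' * y - y * x') := by
        noncomm_ring
      rw [e]
      exact Submodule.add_mem _ (hx y hy) (hx' y hy)
    · intro c x hx y hy
      have e : (c • x) * y - y * (c • x) = c • (x * y - y * x) := by
        rw [Matrix.mul_smul, Matrix.smul_mul, smul_sub]
      rw [e]
      exact Submodule.smul_mem _ _ (hx y hy)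
  · refine desc_induction ?_ ?_ ?_ ?_
    · intro B hB
      have h1 := D.skew B hB
      have hu := D.nondeg
      have hdet : IsUnit F.det := (Matrix.isUnit_iff_isUnit_det F).1 hu
      have h2 : B = -(F⁻¹ * B.transpose * F) := by
        have h3 : F * B = -(B.transpose * F) := by
          rw [eq_neg_iff_add_eq_zero, add_comm]
          exact h1
        calc B = F⁻¹ * (F * B) := by
              rw [← mul_assoc, Matrix.nonsing_inv_mul F hdet, one_mul]
          _ = _ := by rw [h3, mul_neg, mul_assoc]
      have h4 : B.trace = -B.trace := by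
        conv_lhs => rw [h2]
        rw [Matrix.trace_neg, Matrix.trace_mul_comm, ← mul_assoc, Matrix.mul_nonsing_inv F hdet,
          one_mul, Matrix.trace_transpose]
      have h5 : B.trace = 0 := by linarith
      have h6 : (ratM B).trace = ((B.trace : ℚ) : ℂ) := by
        rw [Matrix.trace, Matrix.trace]
        push_cast
        rfl
      rw [h6, h5, Rat.cast_zero]
    · exact Matrix.trace_zero _ _
    · intro x y hx hy
      rw [Matrix.trace_add, hx, hy, add_zero]
    · intro c x hx
      rw [Matrix.trace_smul, hx, smul_zero]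
  · intro W hW
    exact D.irr W fun x hx w hw => hW _ (desc_ratM_mem hx) w hw

theorem eq_bot_or_eq_cx (D : LieData F h) (hs : IsIdl (cx h) s)
    (hst : ∀ τ : ℂ ≃+* ℂ, FQ.act τ s ≤ s) : s = ⊥ ∨ s = cx h := by
  obtain ⟨a, rfl⟩ := exists_cx hst
  have h1 : a ≤ h := fun B hB => ratM_mem_cx.1 (hs.1 (desc_ratM_mem hB))
  have h2 : ∀ x ∈ h, ∀ y ∈ a, x * y - y * x ∈ a := by
    intro x hx y hy
    rw [← ratM_mem_cx (h := a), desc_ratM_sub, desc_ratM_mul, desc_ratM_mul]
    exact hs.2 _ (desc_ratM_mem hx) _ (desc_ratM_mem hy)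
  rcases D.simple a h1 h2 with rfl | rfl
  · left
    refine (Submodule.eq_bot_iff _).2 (desc_induction ?_ rfl ?_ ?_)
    · intro B hB
      rw [(Submodule.mem_bot ℚ).1 hB, desc_ratM_zero]
    · intro x y hx hy
      rw [hx, hy, add_zero]
    · intro c x hx
      rw [hx, smul_zero]
  · right
    rfl

theorem IsCochar.map (hc : IsCochar h e) (τ : ℂ ≃+* ℂ) : IsCochar h (e.map τ) := by
  refine ⟨?_, ?_⟩
  · rw [← desc_map_mul, hc.idem]
  · rw [← desc_map_two]
    exact map_mem_cx hc.mem

/-- The elements of `cx h` are skew. -/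
theorem skew_cx (D : LieData F h) (hA : A ∈ cx h) :
    A.transpose * ratM F + ratM F * A = 0 := by
  refine desc_induction (p := fun A => A.transpose * ratM F + ratM F * A = 0) ?_ ?_ ?_ ?_ A hA
  · intro B hB
    rw [← desc_ratM_transpose, ← desc_ratM_mul, ← desc_ratM_mul, ← desc_ratM_add, D.skew B hB,
      desc_ratM_zero]
  · rw [Matrix.transpose_zero, zero_mul, mul_zero, add_zero]
  · intro x y hx hy
    have e : (x + y).transpose * ratM F + ratM F * (x + y) =
        (x.transpose * ratM F + ratM F * x) + (y.transpose * ratM F + ratM F * y) := by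
      rw [Matrix.transpose_add]
      noncomm_ring
    rw [e, hx, hy, add_zero]
  · intro c x hx
    have e : (c • x).transpose * ratM F + ratM F * (c • x) =
        c • (x.transpose * ratM F + ratM F * x) := by
      rw [Matrix.transpose_smul, Matrix.mul_smul, Matrix.smul_mul, smul_add]
    rw [e, hx, smul_zero]

/-- The multiplier is one. -/
theorem IsCochar.mult (D : LieData F h) (hc : IsCochar h e) :
    e.transpose * ratM F + ratM F * e = ratM F := by
  have h1 := skew_cx D hc.mem
  have e1 : ((2 : ℂ) • e - 1).transpose * ratM F + ratM F * ((2 : ℂ) • e - 1) =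
      (2 : ℂ) • ((e.transpose * ratM F + ratM F * e) - ratM F) := by
    rw [Matrix.transpose_sub, Matrix.transpose_smul, Matrix.transpose_one, sub_mul, mul_sub,
      Matrix.smul_mul, Matrix.mul_smul, one_mul, mul_one, smul_sub, smul_add, two_smul ℂ (ratM F)]
    abel
  rw [e1] at h1
  have h2 := (smul_eq_zero.1 h1).resolve_left two_ne_zero
  exact sub_eq_zero.1 h2

end Pool.Agent.FQ
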