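import Pool.Agent.OddRank.MainOT
import Pool.Agent.OddRank.Symp
import Pool.Agent.FQ.Defs

/-!
# Dimension eight

PACKAGE (statement frozen). `V` has dimension eight, `W₁ = e V`, `W₀ = ker e` have dimension four (they
are totally isotropic and complementary). Let `H₁` (`H₋₁`) be the space of the `x ∈ H` of degree one:
`e x = x`, `x e = 0` (degree `-1`: `e x = 0`, `x e = x`); `x² = 0`.
(1) If `H₁` or `H₋₁` contains a nonzero element of rank at most three, its rank is odd or two, and
`OddRank.irred`, `OddRank.irred_two` (for the algebra `g = H + K`, and the set `G` of all idempotents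
of multiplier one in `g`: it contains `e` and `e + x` for `x` of degree `± 1`, so a subspace stable
under `G` is stable under the elements of degree `± 1`) show that `g` contains all `mm ψ u v`, so all
skew operators (`OddRank.skew_mem` as in `OddRank/MainOT.lean`, theorem `full`); a skew operator in
`H + K` is in `H`, because the elements of `H` are skew and a nonzero scalar is not.
(2) Otherwise all nonzero elements of `H₁` are bijective from `W₀` to `W₁`, so `dim H₁ ≤ 1`: if `x`,
`y ∈ H₁`, `x ≠ 0`, then `y - t x` is not injective on `W₀` for an eigenvalue `t` of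
`x⁻¹ y : W₀ → W₀`, so it is zero. In the same way `dim H₋₁ ≤ 1`. Let `H₁ ⊆ K x`, `H₋₁ ⊆ K y`. Let
`w ∈ W₁` be an eigenvector of `x y` (which maps `W₁` to itself; if `y = 0` take any `w ≠ 0`). The
subspace spanned by `w` and `y w` is stable under `x` and `y`, not zero, of dimension at most two,
contradiction to `hirr`.
-/

set_option autoImplicit false
set_option linter.unusedSectionVars false

namespace Pool.Agent.FQ

open Module

variable {K V : Type*} [Field K] [CharZero K] [IsAlgClosed K] [AddCommGroup V] [Module K V]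
  [FiniteDimensional K V]

theorem eight_rank (h8 : finrank K V = 8) {ψ : V →ₗ[K] V →ₗ[K] K}
    (hnd : ∀ x, (∀ y, ψ x y = 0) → x = 0) {e : End K V} (hee : e * e = e)
    (hmult : ∀ u v, ψ (e u) v + ψ u (e v) = ψ u v) :
    finrank K (LinearMap.range e) = 4 ∧ finrank K (LinearMap.ker e) = 4 := by
  have hinj : Function.Injective ψ := by
    rw [injective_iff_map_eq_zero]
    intro x hx
    exact hnd x fun y => by rw [hx, LinearMap.zero_apply]
  let J : V ≃ₗ[K] Module.Dual K V :=
    LinearMap.linearEquivOfInjective ψ hinj Subspace.dual_finrank_eq.symm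
  have hJ : ∀ v, J v = ψ v := fun v => rfl
  have h1 : J.toLinearMap ∘ₗ e = (1 - e).dualMap ∘ₗ J.toLinearMap := by
    ext u v
    change J (e u) v = J u ((1 - e) v)
    rw [hJ, hJ, LinearMap.sub_apply, Module.End.one_apply, map_sub]
    linear_combination hmult u v
  have h2 : finrank K (LinearMap.range (J.toLinearMap ∘ₗ e)) = finrank K (LinearMap.range e) := by
    rw [LinearMap.range_comp]
    exact LinearEquiv.finrank_map_eq J _
  have h3 : finrank K (LinearMap.range ((1 - e).dualMap ∘ₗ J.toLinearMap)) =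
      finrank K (LinearMap.range (1 - e)) := by
    rw [LinearMap.range_comp, LinearEquiv.range, Submodule.map_top]
    exact LinearMap.finrank_range_dualMap_eq_finrank_range _
  have h4 : LinearMap.range (1 - e) = LinearMap.ker e := by
    apply le_antisymm
    · rintro _ ⟨v, rfl⟩
      rw [LinearMap.mem_ker, ← Module.End.mul_apply, mul_sub, mul_one, hee, sub_self,
        LinearMap.zero_apply]
    · intro v hv
      rw [LinearMap.mem_ker] at hv
      exact ⟨v, by rw [LinearMap.sub_apply, Module.End.one_apply, hv, sub_zero]⟩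
  have h5 := LinearMap.finrank_range_add_finrank_ker e
  rw [h8] at h5
  rw [h1, h3, h4] at h2
  omega

theorem eight_ker (h8 : finrank K V = 8) {e : End K V}
    (hr : finrank K (LinearMap.range e) = 4) {z : End K V} (hez : e * z = z) (hze : z * e = 0)
    (hbig : 3 < finrank K (LinearMap.range z)) : LinearMap.ker z = LinearMap.range e := by
  have h1 : LinearMap.range z ≤ LinearMap.range e := by
    rintro _ ⟨v, rfl⟩
    exact ⟨z v, by rw [← Module.End.mul_apply, hez]⟩
  have h2 : LinearMap.range e ≤ LinearMap.ker z := by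
    rintro _ ⟨v, rfl⟩
    rw [LinearMap.mem_ker, ← Module.End.mul_apply, hze, LinearMap.zero_apply]
  have h3 := Submodule.finrank_mono h1
  have h4 := LinearMap.finrank_range_add_finrank_ker z
  exact (Submodule.eq_of_le_of_finrank_eq h2 (by omega)).symm

theorem eight_line (h8 : finrank K V = 8) {H : Submodule K (End K V)} {e : End K V}
    (hee : e * e = e) (hr : finrank K (LinearMap.range e) = 4)
    (hk : finrank K (LinearMap.ker e) = 4)
    (hbig : ∀ x ∈ H, e * x = x → x * e = 0 → x ≠ 0 → 3 < finrank K (LinearMap.range x)) :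
    ∃ x ∈ H, e * x = x ∧ x * e = 0 ∧
      ∀ y ∈ H, e * y = y → y * e = 0 → ∃ t : K, y = t • x := by
  by_cases hex : ∃ x ∈ H, e * x = x ∧ x * e = 0 ∧ x ≠ 0
  swap
  · push Not at hex
    refine ⟨0, H.zero_mem, mul_zero e, zero_mul e, fun y hy h1 h2 => ⟨0, ?_⟩⟩
    rw [hex y hy h1 h2, smul_zero]
  obtain ⟨x, hx, hex, hxe, hx0⟩ := hex
  refine ⟨x, hx, hex, hxe, fun y hy hey hye => ?_⟩
  have hdis : ∀ w, e w = 0 → w ∈ LinearMap.range e → w = 0 := by
    rintro w hw ⟨v, rfl⟩
    rwa [← Module.End.mul_apply, hee] at hw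
  have hkx := eight_ker h8 hr hex hxe (hbig x hx hex hxe hx0)
  have hmx : ∀ w ∈ LinearMap.ker e, x w ∈ LinearMap.range e := fun w _ =>
    ⟨x w, by rw [← Module.End.mul_apply, hex]⟩
  have hmy : ∀ w ∈ LinearMap.ker e, y w ∈ LinearMap.range e := fun w _ =>
    ⟨y w, by rw [← Module.End.mul_apply, hey]⟩
  have hinj : Function.Injective (x.restrict hmx) := by
    rw [injective_iff_map_eq_zero]
    intro w hw
    have h1 : x w = 0 := congrArg Subtype.val hw
    have h2 : (w : V) ∈ LinearMap.range e := by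
      rw [← hkx, LinearMap.mem_ker]
      exact h1
    exact Subtype.ext (hdis w w.2 h2)
  let f := LinearMap.linearEquivOfInjective (x.restrict hmx) hinj (hk.trans hr.symm)
  have hf : ∀ w : LinearMap.ker e, ((f w : LinearMap.range e) : V) = x w := fun w => rfl
  have : Nontrivial (LinearMap.ker e) := Module.nontrivial_of_finrank_pos (R := K) (by omega)
  obtain ⟨t, ht⟩ := Module.End.exists_eigenvalue
    (f.symm.toLinearMap ∘ₗ y.restrict hmy : End K (LinearMap.ker e))
  obtain ⟨w, hw⟩ := ht.exists_hasEigenvector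
  have h1 : f.symm (y.restrict hmy w) = t • w := hw.apply_eq_smul
  have h2 : y.restrict hmy w = t • f w := by
    rw [← map_smul, ← h1, LinearEquiv.apply_symm_apply]
  have h3 : y w = t • x w := congrArg Subtype.val h2
  refine ⟨t, ?_⟩
  by_contra hne
  have hz : y - t • x ≠ 0 := sub_ne_zero.2 hne
  have hzH : y - t • x ∈ H := H.sub_mem hy (H.smul_mem t hx)
  have hez : e * (y - t • x) = y - t • x := by rw [mul_sub, mul_smul_comm, hey, hex]
  have hze : (y - t • x) * e = 0 := by
    rw [sub_mul, smul_mul_assoc, hye, hxe, smul_zero, sub_zero]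
  have hkz := eight_ker h8 hr hez hze (hbig _ hzH hez hze hz)
  have h4 : (w : V) ∈ LinearMap.range e := by
    rw [← hkz, LinearMap.mem_ker, LinearMap.sub_apply, LinearMap.smul_apply, h3, sub_self]
  exact hw.2 (Subtype.ext (hdis w w.2 h4))

theorem eight_full (h8 : finrank K V = 8) {ψ : V →ₗ[K] V →ₗ[K] K} (halt : ∀ x, ψ x x = 0)
    (hnd : ∀ x, (∀ y, ψ x y = 0) → x = 0) {H : Submodule K (End K V)}
    (hlie : ∀ x ∈ H, ∀ y ∈ H, x * y - y * x ∈ H)
    (hskew : ∀ x ∈ H, ∀ u v, ψ (x u) v + ψ u (x v) = 0) {e : End K V} (hee : e * e = e)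
    (hmult : ∀ u v, ψ (e u) v + ψ u (e v) = ψ u v) (he : (2 : K) • e - 1 ∈ H)
    (hirr : ∀ W : Submodule K V, (∀ x ∈ H, e * x = x → x * e = 0 → ∀ w ∈ W, x w ∈ W) →
      (∀ x ∈ H, e * x = 0 → x * e = x → ∀ w ∈ W, x w ∈ W) → W = ⊥ ∨ W = ⊤)
    {N : End K V} (hN : N ∈ H) (hNN : N * N = 0) (hN0 : N ≠ 0)
    (hrk : finrank K (LinearMap.range N) ≤ 3)
    (D : End K V) (hD : ∀ u v, ψ (D u) v + ψ u (D v) = 0) : D ∈ H := by
  have h2 : (2 : K) ≠ 0 := two_ne_zero
  let g : Submodule K (End K V) := H ⊔ K ∙ (1 : End K V)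
  have hmemg : ∀ x, x ∈ g ↔ ∃ h ∈ H, ∃ c : K, x = h + c • 1 := by
    intro x
    constructor
    · intro hx
      obtain ⟨h, hh, z, hz, rfl⟩ := Submodule.mem_sup.1 hx
      obtain ⟨c, rfl⟩ := Submodule.mem_span_singleton.1 hz
      exact ⟨h, hh, c, rfl⟩
    · rintro ⟨h, hh, c, rfl⟩
      exact Submodule.add_mem_sup hh (Submodule.smul_mem _ _ (Submodule.mem_span_singleton_self 1))
  have hHg : ∀ x ∈ H, x ∈ g := fun x hx => (hmemg x).2 ⟨x, hx, 0, by rw [zero_smul, add_zero]⟩
  have heg : e ∈ g := by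
    refine (hmemg e).2 ⟨(2⁻¹ : K) • ((2 : K) • e - 1), H.smul_mem _ he, 2⁻¹, ?_⟩
    rw [smul_sub, smul_smul, inv_mul_cancel₀ h2, one_smul, sub_add_cancel]
  have hglie : ∀ a ∈ g, ∀ b ∈ g, a * b - b * a ∈ g := by
    intro a ha b hb
    obtain ⟨x, hx, c, rfl⟩ := (hmemg a).1 ha
    obtain ⟨y, hy, d, rfl⟩ := (hmemg b).1 hb
    have h3 : (x + c • 1) * (y + d • 1) - (y + d • 1) * (x + c • 1) = x * y - y * x := by
      simp only [mul_add, add_mul, mul_smul_comm, smul_mul_assoc, mul_one, one_mul, smul_add,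
        smul_smul, mul_comm d c]
      abel
    rw [h3]
    exact hHg _ (hlie x hx y hy)
  have hgsp : ∀ x ∈ g, ∃ κ : K, ∀ u v, ψ (x u) v + ψ u (x v) = κ * ψ u v := by
    intro a ha
    obtain ⟨x, hx, c, rfl⟩ := (hmemg a).1 ha
    refine ⟨2 * c, fun u v => ?_⟩
    have h3 := hskew x hx u v
    simp only [LinearMap.add_apply, LinearMap.smul_apply, Module.End.one_apply, map_add, map_smul,
      smul_eq_mul]
    linear_combination h3
  let G : Set (End K V) := {p | p ∈ g ∧ p * p = p ∧ ∀ u v, ψ (p u) v + ψ u (p v) = ψ u v}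
  have hG : ∀ p ∈ G, p ∈ g := fun p hp => hp.1
  have hGe : ∀ p ∈ G, p * p = p := fun p hp => hp.2.1
  have hGψ : ∀ p ∈ G, ∀ u v, ψ (p u) v + ψ u (p v) = ψ u v := fun p hp => hp.2.2
  have heG : e ∈ G := ⟨heg, hee, hmult⟩
  have hxG : ∀ x ∈ H, (e + x) * (e + x) = e + x → e + x ∈ G := by
    intro x hx h3
    refine ⟨g.add_mem heg (hHg x hx), h3, fun u v => ?_⟩
    have h4 := hskew x hx u v
    have h5 := hmult u v
    simp only [LinearMap.add_apply, map_add]
    linear_combination h4 + h5
  have hsq1 : ∀ x, e * x = x → x * e = 0 → x * x = 0 := by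
    intro x h3 h4
    calc x * x = x * (e * x) := by rw [h3]
      _ = 0 := by rw [← mul_assoc, h4, zero_mul]
  have hsq2 : ∀ x, e * x = 0 → x * e = x → x * x = 0 := by
    intro x h3 h4
    calc x * x = x * e * x := by rw [h4]
      _ = 0 := by rw [mul_assoc, h3, mul_zero]
  have hGirr : ∀ W : Submodule K V, (∀ p ∈ G, ∀ w ∈ W, p w ∈ W) → W = ⊥ ∨ W = ⊤ := by
    intro W hW
    refine hirr W (fun x hx h3 h4 w hw => ?_) (fun x hx h3 h4 w hw => ?_)
    · have h5 : e + x ∈ G := hxG x hx (by
        rw [add_mul, mul_add, mul_add, hee, h3, h4, hsq1 x h3 h4, add_zero, add_zero])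
      have h6 := W.sub_mem (hW _ h5 w hw) (hW _ heG w hw)
      rwa [LinearMap.add_apply, add_sub_cancel_left] at h6
    · have h5 : e + x ∈ G := hxG x hx (by
        rw [add_mul, mul_add, mul_add, hee, h3, h4, hsq2 x h3 h4, add_zero, add_zero])
      have h6 := W.sub_mem (hW _ h5 w hw) (hW _ heG w hw)
      rwa [LinearMap.add_apply, add_sub_cancel_left] at h6
  have hrk0 : finrank K (LinearMap.range N) ≠ 0 := by
    intro h3
    rw [Submodule.finrank_eq_zero, LinearMap.range_eq_bot] at h3
    exact hN0 h3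
  have hmm : ∀ u v, OddRank.mm ψ u v ∈ g := by
    intro u v
    by_cases h3 : finrank K (LinearMap.range N) = 2
    · exact OddRank.irred_two halt hnd hglie hgsp hG hGe hGψ hGirr (hHg N hN) hNN h3 u v
    · refine OddRank.irred halt hnd hglie hgsp hG hGe hGψ hGirr (hHg N hN) hNN ?_ u v
      have h4 : finrank K (LinearMap.range N) = 1 ∨ finrank K (LinearMap.range N) = 3 := by omega
      rcases h4 with h4 | h4
      · rw [h4]; decide
      · rw [h4]; decide
  have hDg : D ∈ g := OddRank.skew_mem halt hnd hmm hD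
  obtain ⟨h, hh, c, hc⟩ := (hmemg D).1 hDg
  have : Nontrivial V := Module.nontrivial_of_finrank_pos (R := K) (by omega)
  obtain ⟨u, hu⟩ := exists_ne (0 : V)
  obtain ⟨v, hv⟩ : ∃ v, ψ u v ≠ 0 := by
    by_contra hcon
    push Not at hcon
    exact hu (hnd u hcon)
  have h3 := hD u v
  have h4 := hskew h hh u v
  rw [hc] at h3
  simp only [LinearMap.add_apply, LinearMap.smul_apply, Module.End.one_apply, map_add, map_smul,
    smul_eq_mul] at h3
  have h5 : c * (2 * ψ u v) = 0 := by linear_combination h3 - h4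
  have h6 : c = 0 := by
    rcases mul_eq_zero.1 h5 with h6 | h6
    · exact h6
    · exact absurd h6 (mul_ne_zero h2 hv)
  rw [hc, h6, zero_smul, add_zero]
  exact hh

theorem eight (h8 : finrank K V = 8) {ψ : V →ₗ[K] V →ₗ[K] K} (halt : ∀ x, ψ x x = 0)
    (hnd : ∀ x, (∀ y, ψ x y = 0) → x = 0) {H : Submodule K (End K V)}
    (hlie : ∀ x ∈ H, ∀ y ∈ H, x * y - y * x ∈ H)
    (hskew : ∀ x ∈ H, ∀ u v, ψ (x u) v + ψ u (x v) = 0) {e : End K V} (hee : e * e = e)
    (hmult : ∀ u v, ψ (e u) v + ψ u (e v) = ψ u v) (he : (2 : K) • e - 1 ∈ H)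
    (hirr : ∀ W : Submodule K V, (∀ x ∈ H, e * x = x → x * e = 0 → ∀ w ∈ W, x w ∈ W) →
      (∀ x ∈ H, e * x = 0 → x * e = x → ∀ w ∈ W, x w ∈ W) → W = ⊥ ∨ W = ⊤)
    (D : End K V) (hD : ∀ u v, ψ (D u) v + ψ u (D v) = 0) : D ∈ H := by
  obtain ⟨hr, hk⟩ := eight_rank h8 hnd hee hmult
  have hsq1 : ∀ x, e * x = x → x * e = 0 → x * x = 0 := by
    intro x h3 h4
    calc x * x = x * (e * x) := by rw [h3]
      _ = 0 := by rw [← mul_assoc, h4, zero_mul]
  have hsq2 : ∀ x, e * x = 0 → x * e = x → x * x = 0 := by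
    intro x h3 h4
    calc x * x = x * e * x := by rw [h4]
      _ = 0 := by rw [mul_assoc, h3, mul_zero]
  by_cases h1 : ∃ N ∈ H, N * N = 0 ∧ N ≠ 0 ∧ finrank K (LinearMap.range N) ≤ 3
  · obtain ⟨N, hN, hNN, hN0, hrk⟩ := h1
    exact eight_full h8 halt hnd hlie hskew hee hmult he hirr hN hNN hN0 hrk D hD
  exfalso
  push Not at h1
  obtain ⟨x, hx, hex, hxe, hxall⟩ := eight_line h8 (H := H) hee hr hk
    (fun z hz h3 h4 h5 => h1 z hz (hsq1 z h3 h4) h5)
  have hee' : (1 - e) * (1 - e) = 1 - e := by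
    rw [mul_sub, mul_one, sub_mul, one_mul, hee, sub_self, sub_zero]
  have hk' : LinearMap.range (1 - e) = LinearMap.ker e := by
    apply le_antisymm
    · rintro _ ⟨v, rfl⟩
      rw [LinearMap.mem_ker, ← Module.End.mul_apply, mul_sub, mul_one, hee, sub_self,
        LinearMap.zero_apply]
    · intro v hv
      rw [LinearMap.mem_ker] at hv
      exact ⟨v, by rw [LinearMap.sub_apply, Module.End.one_apply, hv, sub_zero]⟩
  have hr' : LinearMap.ker (1 - e) = LinearMap.range e := by
    apply le_antisymm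
    · intro v hv
      rw [LinearMap.mem_ker, LinearMap.sub_apply, Module.End.one_apply, sub_eq_zero] at hv
      exact ⟨v, hv.symm⟩
    · rintro _ ⟨v, rfl⟩
      rw [LinearMap.mem_ker, ← Module.End.mul_apply, sub_mul, one_mul, hee, sub_self,
        LinearMap.zero_apply]
  have hdeg : ∀ z : End K V, (1 - e) * z = z ↔ e * z = 0 := by
    intro z
    rw [sub_mul, one_mul, sub_eq_self]
  have hdeg' : ∀ z : End K V, z * (1 - e) = 0 ↔ z * e = z := by
    intro z
    rw [mul_sub, mul_one, sub_eq_zero]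
    exact eq_comm
  obtain ⟨y, hy, hey, hye, hyall⟩ := eight_line h8 (H := H) hee' (by rw [hk', hk])
    (by rw [hr', hr])
    (fun z hz h3 h4 h5 => h1 z hz (hsq2 z ((hdeg z).1 h3) ((hdeg' z).1 h4)) h5)
  rw [hdeg] at hey
  rw [hdeg'] at hye
  -- the eigenvector
  have hmap : ∀ w ∈ LinearMap.range e, (x * y) w ∈ LinearMap.range e := fun w _ =>
    ⟨x (y w), by rw [← Module.End.mul_apply, hex, Module.End.mul_apply]⟩
  have : Nontrivial (LinearMap.range e) := Module.nontrivial_of_finrank_pos (R := K) (by omega)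
  obtain ⟨t, ht⟩ := Module.End.exists_eigenvalue
    ((x * y).restrict hmap : End K (LinearMap.range e))
  obtain ⟨w, hw⟩ := ht.exists_hasEigenvector
  have hw1 : x (y w) = t • (w : V) := congrArg Subtype.val hw.apply_eq_smul
  have hw0 : (w : V) ≠ 0 := fun h => hw.2 (Subtype.ext h)
  have hxw : x w = 0 := by
    obtain ⟨v, hv⟩ := w.2
    rw [← hv, ← Module.End.mul_apply, hxe, LinearMap.zero_apply]
  have hyy : y (y w) = 0 := by
    rw [← Module.End.mul_apply, hsq2 y hey hye, LinearMap.zero_apply]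
  have hmw : (w : V) ∈ Submodule.span K {(w : V), y w} :=
    Submodule.subset_span (Set.mem_insert _ _)
  have hmy : y w ∈ Submodule.span K {(w : V), y w} :=
    Submodule.subset_span (Set.mem_insert_of_mem _ rfl)
  have hst : ∀ z : End K V, z w ∈ Submodule.span K {(w : V), y w} →
      z (y w) ∈ Submodule.span K {(w : V), y w} →
      ∀ v ∈ Submodule.span K {(w : V), y w}, z v ∈ Submodule.span K {(w : V), y w} := by
    intro z h3 h4 v hv
    obtain ⟨a, b, rfl⟩ := Submodule.mem_span_pair.1 hv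
    rw [map_add, map_smul, map_smul]
    exact Submodule.add_mem _ (Submodule.smul_mem _ _ h3) (Submodule.smul_mem _ _ h4)
  have hcard : finrank K (Submodule.span K {(w : V), y w}) ≤ 2 := by
    classical
    have h3 := finrank_span_finset_le_card (R := K) ({(w : V), y w} : Finset V)
    have h4 : (({(w : V), y w} : Finset V) : Set V) = {(w : V), y w} := by simp
    have h5 : ({(w : V), y w} : Finset V).card ≤ 2 := Finset.card_le_two
    have h6 : Set.finrank K (({(w : V), y w} : Finset V) : Set V) =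
        finrank K (Submodule.span K {(w : V), y w}) := by
      rw [h4]
      rfl
    omega
  rcases hirr (Submodule.span K {(w : V), y w})
    (fun z hz h3 h4 => by
      obtain ⟨s, rfl⟩ := hxall z hz h3 h4
      refine hst _ ?_ ?_
      · rw [LinearMap.smul_apply, hxw, smul_zero]
        exact Submodule.zero_mem _
      · rw [LinearMap.smul_apply, hw1]
        exact Submodule.smul_mem _ _ (Submodule.smul_mem _ _ hmw))
    (fun z hz h3 h4 => by
      obtain ⟨s, rfl⟩ := hyall z hz ((hdeg z).2 h3) ((hdeg' z).2 h4)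
      refine hst _ ?_ ?_
      · rw [LinearMap.smul_apply]
        exact Submodule.smul_mem _ _ hmy
      · rw [LinearMap.smul_apply, hyy, smul_zero]
        exact Submodule.zero_mem _) with h3 | h3
  · rw [h3, Submodule.mem_bot] at hmw
    exact hw0 hmw
  · rw [h3, finrank_top, h8] at hcard
    omega

end Pool.Agent.FQ
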