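import Pool.Agent.CoprimeSig.ExpAd
import Pool.Agent.FQ.Mat

/-!
# Ideals are stable under the group generated by exponentials

PACKAGE (statements frozen). `conj_mem`: for `u = exp N`, `N ^ k = 0`, one has `u⁻¹ = exp (-N)` and
`u y u⁻¹ = ∑_{n < 2k} ∑_{i + j = n} (N^i / i!) y ((-N)^j / j!)`, all inner sums are in `s` (as in
`CoprimeSig.expAd_mem`: they are `(ad N)^n y / n!`; `expAd_rec` can be used, and `expAd_mem` has to
be repeated for an ideal `s`). The inverse of `exp N` is `exp (-N)`, so the statement for generators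
and their inverses, then `Subgroup.closure_induction`.
`idl_conj`: `u e u⁻¹ = e'`; `2 e' - 1 = u (2 e - 1) u⁻¹ ∈ idl H e`, so `idl H e' ≤ idl H e`; the
converse with `u⁻¹`.
-/

set_option autoImplicit false

namespace Pool.Agent.FQ

open Finset Pool.Agent.CoprimeSig

section Aux

variable {K A : Type*} [Field K] [CharZero K] [Ring A] [Algebra K A]

/-- The product of the truncated exponentials as a sum over the antidiagonals. -/
private theorem exp_mul_exp (N y : A) (k : ℕ) (hk : N ^ k = 0) :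
    (∑ i ∈ range k, ((i.factorial : ℕ) : K)⁻¹ • N ^ i) * y *
      (∑ i ∈ range k, ((i.factorial : ℕ) : K)⁻¹ • (-N) ^ i) =
    ∑ n ∈ range (2 * k), ∑ p ∈ antidiagonal n, expAdTerm K N y p := by
  classical
  have h1 : ∀ i, k ≤ i → N ^ i = 0 := fun i hi => pow_eq_zero_of_le hi hk
  have h2 : ∀ i, k ≤ i → (-N) ^ i = 0 := fun i hi => by
    rw [neg_pow, h1 i hi, mul_zero]
  have h0 : ∀ p : ℕ × ℕ, (k ≤ p.1 ∨ k ≤ p.2) → expAdTerm K N y p = 0 := by
    rintro ⟨i, j⟩ (h | h)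
    · simp only [expAdTerm]
      rw [h1 i h, smul_zero, zero_mul, zero_mul]
    · simp only [expAdTerm]
      rw [h2 j h, smul_zero, mul_zero]
  have e1 : (∑ i ∈ range k, ((i.factorial : ℕ) : K)⁻¹ • N ^ i) * y *
      (∑ i ∈ range k, ((i.factorial : ℕ) : K)⁻¹ • (-N) ^ i) =
      ∑ p ∈ range k ×ˢ range k, expAdTerm K N y p := by
    rw [sum_mul, sum_mul_sum, sum_product]
    rfl
  rw [e1, ← sum_biUnion]
  · refine sum_subset ?_ ?_
    · intro p hp
      rw [mem_product, mem_range, mem_range] at hp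
      rw [mem_biUnion]
      exact ⟨p.1 + p.2, mem_range.2 (by omega), HasAntidiagonal.mem_antidiagonal.2 rfl⟩
    · intro p _ hp
      apply h0
      by_contra hcon
      simp only [not_or, not_le] at hcon
      exact hp (mem_product.2 ⟨mem_range.2 hcon.1, mem_range.2 hcon.2⟩)
  · intro a _ b _ hab
    rw [Function.onFun, Finset.disjoint_left]
    intro p hp hp'
    rw [HasAntidiagonal.mem_antidiagonal] at hp hp'
    exact hab (hp.symm.trans hp')

private theorem term_mem {g s : Submodule K A} (hs : ∀ x ∈ g, ∀ y ∈ s, x * y - y * x ∈ s)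
    {N y : A} (hN : N ∈ g) (hy : y ∈ s) (n : ℕ) :
    ∑ p ∈ antidiagonal n, expAdTerm K N y p ∈ s := by
  induction n with
  | zero =>
    simpa [expAdTerm] using hy
  | succ n ih =>
    have h := expAd_rec (𝕜 := K) N y n
    have hn : ((n + 1 : ℕ) : K) ≠ 0 := by exact_mod_cast Nat.succ_ne_zero n
    have h2 : ∑ p ∈ antidiagonal (n + 1), expAdTerm K N y p = ((n + 1 : ℕ) : K)⁻¹ •
        (N * (∑ p ∈ antidiagonal n, expAdTerm K N y p) -
        (∑ p ∈ antidiagonal n, expAdTerm K N y p) * N) := by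
      rw [← h, smul_smul, inv_mul_cancel₀ hn, one_smul]
    rw [h2]
    exact s.smul_mem _ (hs N hN _ ih)

private theorem term_one (N : A) (n : ℕ) :
    ∑ p ∈ antidiagonal (n + 1), expAdTerm K N 1 p = 0 := by
  induction n with
  | zero =>
    have h := expAd_rec (𝕜 := K) N 1 0
    have h0 : ∑ p ∈ antidiagonal 0, expAdTerm K N 1 p = 1 := by simp [expAdTerm]
    rw [h0, mul_one, one_mul, sub_self] at h
    have hn : ((0 + 1 : ℕ) : K) ≠ 0 := by exact_mod_cast Nat.succ_ne_zero 0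
    exact (smul_eq_zero.1 h).resolve_left hn
  | succ n ih =>
    have h := expAd_rec (𝕜 := K) N 1 (n + 1)
    rw [ih, mul_zero, zero_mul, sub_self] at h
    have hn : ((n + 1 + 1 : ℕ) : K) ≠ 0 := by exact_mod_cast Nat.succ_ne_zero (n + 1)
    exact (smul_eq_zero.1 h).resolve_left hn

/-- The inverse of the exponential. -/
private theorem exp_mul_neg (N : A) (k : ℕ) (hk : N ^ k = 0) :
    (∑ i ∈ range k, ((i.factorial : ℕ) : K)⁻¹ • N ^ i) *
      (∑ i ∈ range k, ((i.factorial : ℕ) : K)⁻¹ • (-N) ^ i) = 1 := by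
  have h := exp_mul_exp (K := K) N 1 k hk
  rw [mul_one] at h
  rw [h]
  rcases Nat.eq_zero_or_pos k with h0 | h0
  · subst h0
    rw [pow_zero] at hk
    rw [mul_zero, sum_range_zero, hk]
  · obtain ⟨m, hm⟩ : ∃ m, 2 * k = m + 1 := ⟨2 * k - 1, by omega⟩
    rw [hm, sum_range_succ', sum_eq_zero (fun n _ => term_one (K := K) N n), zero_add]
    simp [expAdTerm]

private theorem inv_eq {N : A} {k : ℕ} (hk : N ^ k = 0) {u : Aˣ}
    (hu : (u : A) = ∑ i ∈ range k, ((i.factorial : ℕ) : K)⁻¹ • N ^ i) :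
    ((u⁻¹ : Aˣ) : A) = ∑ i ∈ range k, ((i.factorial : ℕ) : K)⁻¹ • (-N) ^ i := by
  have h := exp_mul_neg (K := K) N k hk
  rw [← hu] at h
  calc ((u⁻¹ : Aˣ) : A) = ((u⁻¹ : Aˣ) : A) *
        ((u : A) * ∑ i ∈ range k, ((i.factorial : ℕ) : K)⁻¹ • (-N) ^ i) := by rw [h, mul_one]
    _ = _ := by rw [← mul_assoc, Units.inv_mul, one_mul]

end Aux

theorem conj_mem {K A : Type*} [Field K] [CharZero K] [Ring A] [Algebra K A] {g s : Submodule K A}
    (hs : ∀ x ∈ g, ∀ y ∈ s, x * y - y * x ∈ s) {u : Aˣ} (hu : u ∈ expG K g) {y : A}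
    (hy : y ∈ s) : (u : A) * y * ((u⁻¹ : Aˣ) : A) ∈ s := by
  have key : (∀ y ∈ s, (u : A) * y * ((u⁻¹ : Aˣ) : A) ∈ s) ∧
      (∀ y ∈ s, ((u⁻¹ : Aˣ) : A) * y * (u : A) ∈ s) := by
    unfold expG at hu
    induction hu using Subgroup.closure_induction with
    | mem x hx =>
      obtain ⟨N, hN, k, hk, hx⟩ := hx
      have hi := inv_eq hk hx
      refine ⟨fun y hy => ?_, fun y hy => ?_⟩
      · rw [hi, hx, exp_mul_exp N y k hk]
        exact s.sum_mem fun n _ => term_mem hs hN hy n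
      · have hk' : (-N) ^ k = 0 := by rw [neg_pow, hk, mul_zero]
        have h := exp_mul_exp (K := K) (-N) y k hk'
        rw [neg_neg] at h
        rw [hi, hx, h]
        exact s.sum_mem fun n _ => term_mem hs (g.neg_mem hN) hy n
    | one =>
      refine ⟨fun y hy => ?_, fun y hy => ?_⟩ <;> simpa using hy
    | mul a b _ _ ha hb =>
      refine ⟨fun y hy => ?_, fun y hy => ?_⟩
      · have h := ha.1 _ (hb.1 y hy)
        rw [mul_inv_rev, Units.val_mul, Units.val_mul]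
        simpa only [mul_assoc] using h
      · have h := hb.2 _ (ha.2 y hy)
        rw [mul_inv_rev, Units.val_mul, Units.val_mul]
        simpa only [mul_assoc] using h
    | inv a _ ha =>
      refine ⟨fun y hy => ?_, fun y hy => ?_⟩
      · rw [inv_inv]
        exact ha.2 y hy
      · rw [inv_inv]
        exact ha.1 y hy
  exact key.1 y hy

variable {ι : Type} [Fintype ι] [DecidableEq ι]

theorem idl_conj {H : Submodule ℂ (Matrix ι ι ℂ)} {u : (Matrix ι ι ℂ)ˣ} (hu : u ∈ expG ℂ H)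
    (e : Matrix ι ι ℂ) :
    idl H ((u : Matrix ι ι ℂ) * e * ((u⁻¹ : (Matrix ι ι ℂ)ˣ) : Matrix ι ι ℂ)) = idl H e := by
  have key : ∀ (v : (Matrix ι ι ℂ)ˣ), v ∈ expG ℂ H → ∀ f : Matrix ι ι ℂ,
      idl H ((v : Matrix ι ι ℂ) * f * ((v⁻¹ : (Matrix ι ι ℂ)ˣ) : Matrix ι ι ℂ)) ≤ idl H f := by
    intro v hv f
    refine idl_le ?_ idl_stable
    have h := conj_mem (K := ℂ) (g := H) (s := idl H f) idl_stable hv mem_idl
    have h2 : (v : Matrix ι ι ℂ) * ((2 : ℂ) • f - 1) *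
        ((v⁻¹ : (Matrix ι ι ℂ)ˣ) : Matrix ι ι ℂ) =
        (2 : ℂ) • ((v : Matrix ι ι ℂ) * f * ((v⁻¹ : (Matrix ι ι ℂ)ˣ) : Matrix ι ι ℂ)) - 1 := by
      rw [mul_sub, sub_mul, mul_one, Units.mul_inv, mul_smul_comm, smul_mul_assoc]
    rwa [h2] at h
  refine le_antisymm (key u hu e) ?_
  have h := key u⁻¹ (inv_mem hu)
    ((u : Matrix ι ι ℂ) * e * ((u⁻¹ : (Matrix ι ι ℂ)ˣ) : Matrix ι ι ℂ))
  have h3 : ((u⁻¹ : (Matrix ι ι ℂ)ˣ) : Matrix ι ι ℂ) *
      ((u : Matrix ι ι ℂ) * e * ((u⁻¹ : (Matrix ι ι ℂ)ˣ) : Matrix ι ι ℂ)) *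
      (((u⁻¹)⁻¹ : (Matrix ι ι ℂ)ˣ) : Matrix ι ι ℂ) = e := by
    rw [inv_inv, mul_assoc, mul_assoc, Units.inv_mul, mul_one, ← mul_assoc, Units.inv_mul, one_mul]
  rwa [h3] at h

end Pool.Agent.FQ
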