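import Pool.Agent.FQ.Act
import Pool.Agent.FQ.AlgFin

/-!
# Subspaces with finitely many conjugates are defined over the algebraic numbers

PACKAGE (statement frozen). PROOF. Write `M = ι × ι`, `supp A = {m | A m ≠ 0}`. A matrix `r ∈ U`,
`r ≠ 0`, is called a circuit of `U` for `(T, m₀)` if `supp r = T`, `r m₀ = 1` and no nonzero matrix
of `U` has its support properly contained in `T`. For given `(T, m₀)` there is at most one circuit
of `U` (the difference of two has the support in `T \ {m₀}`, so it is zero). The circuits span `U`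
(as in the proof of `LargeDom.descent_aut`: induction on the size of the support). If `r` is the
circuit of `U` for `(T, m₀)` then `r.map τ` is the circuit of `act τ U` for `(T, m₀)`. Since there
are only finitely many `act τ U`, every entry `x` of `r` has only finitely many conjugates `τ x`,
so `x` is algebraic (`isAlgebraic_of_finite`). `S` is the set of all entries of the finitely many
circuits of `U`. If `τ` and `τ'` agree on `S` then `r.map τ = r.map τ'` for all circuits `r` of `U`,
and these matrices span `act τ U`, `act τ' U`.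
-/

set_option autoImplicit false

namespace Pool.Agent.FQ

open Module

variable {ι : Type} [Fintype ι] [DecidableEq ι]

/-- The support of a matrix. -/
private noncomputable def msupp (A : Matrix ι ι ℂ) : Finset (ι × ι) :=
  Finset.univ.filter fun m => A m.1 m.2 ≠ 0

private theorem mem_msupp {A : Matrix ι ι ℂ} {m : ι × ι} : m ∈ msupp A ↔ A m.1 m.2 ≠ 0 := by
  simp [msupp]

/-- A matrix of minimal support. -/
private structure Circ (U : Submodule ℂ (Matrix ι ι ℂ)) (T : Finset (ι × ι)) (m₀ : ι × ι)
    (r : Matrix ι ι ℂ) : Prop where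
  mem : r ∈ U
  supp : msupp r = T
  one : r m₀.1 m₀.2 = 1
  min : ∀ s ∈ U, msupp s ⊂ T → s = 0

private theorem Circ.unique {U : Submodule ℂ (Matrix ι ι ℂ)} {T : Finset (ι × ι)} {m₀ : ι × ι}
    {r r' : Matrix ι ι ℂ} (h : Circ U T m₀ r) (h' : Circ U T m₀ r') : r = r' := by
  refine sub_eq_zero.1 (h.min _ (U.sub_mem h.mem h'.mem) ?_)
  have h1 : m₀ ∈ T := by
    rw [← h.supp, mem_msupp, h.one]
    exact one_ne_zero
  have h2 : msupp (r - r') ⊆ T.erase m₀ := by
    intro m hm
    rw [mem_msupp, Matrix.sub_apply] at hm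
    rw [Finset.mem_erase]
    refine ⟨?_, ?_⟩
    · rintro rfl
      exact hm (by rw [h.one, h'.one, sub_self])
    · by_contra hmT
      have h3 : r m.1 m.2 = 0 := by
        by_contra h4
        exact hmT (h.supp ▸ mem_msupp.2 h4)
      have h4 : r' m.1 m.2 = 0 := by
        by_contra h5
        exact hmT (h'.supp ▸ mem_msupp.2 h5)
      exact hm (by rw [h3, h4, sub_self])
  exact h2.trans_ssubset (Finset.erase_ssubset h1)

private theorem Circ.map {U : Submodule ℂ (Matrix ι ι ℂ)} {T : Finset (ι × ι)} {m₀ : ι × ι}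
    {r : Matrix ι ι ℂ} (h : Circ U T m₀ r) (τ : ℂ ≃+* ℂ) : Circ (act τ U) T m₀ (r.map τ) := by
  have hs : ∀ (σ : ℂ ≃+* ℂ) (A : Matrix ι ι ℂ), msupp (A.map σ) = msupp A := by
    intro σ A
    ext m
    rw [mem_msupp, mem_msupp, Matrix.map_apply, Ne, Ne, map_eq_zero_iff σ σ.injective]
  refine ⟨map_mem_act.2 h.mem, ?_, ?_, fun s hs1 hs2 => ?_⟩
  · rw [hs, h.supp]
  · rw [Matrix.map_apply, h.one, map_one]
  · have h1 : s.map τ.symm = 0 := h.min _ (mem_act.1 hs1) (by rwa [hs])
    ext i j
    have h2 := congrFun (congrFun h1 i) j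
    rw [Matrix.map_apply, Matrix.zero_apply, map_eq_zero_iff τ.symm τ.symm.injective] at h2
    rw [h2, Matrix.zero_apply]

/-- The circuits span. -/
private theorem circ_span (U : Submodule ℂ (Matrix ι ι ℂ)) :
    U ≤ Submodule.span ℂ {r | ∃ T m₀, Circ U T m₀ r} := by
  suffices H : ∀ (k : ℕ) (u : Matrix ι ι ℂ), u ∈ U → (msupp u).card = k →
      u ∈ Submodule.span ℂ {r | ∃ T m₀, Circ U T m₀ r} from fun u hu => H _ u hu rfl
  intro k
  induction k using Nat.strong_induction_on with
  | _ k ih =>
    intro u hu hk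
    by_cases hu0 : u = 0
    · rw [hu0]
      exact Submodule.zero_mem _
    classical
    let P : ℕ → Prop := fun j => ∃ r ∈ U, r ≠ 0 ∧ msupp r ⊆ msupp u ∧ (msupp r).card = j
    have hP : ∃ j, P j := ⟨_, u, hu, hu0, Finset.Subset.refl _, rfl⟩
    obtain ⟨r, hrU, hr0, hrs, hrc⟩ := Nat.find_spec hP
    have hmin : ∀ s ∈ U, msupp s ⊆ msupp u → (msupp s).card < (msupp r).card → s = 0 := by
      intro s hs hss hsc
      by_contra hs0
      rw [hrc] at hsc
      exact Nat.find_min hP hsc ⟨s, hs, hs0, hss, rfl⟩
    have hex : ∃ m0 : ι × ι, r m0.1 m0.2 ≠ 0 := by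
      by_contra hcon
      push Not at hcon
      exact hr0 (Matrix.ext fun i j => hcon (i, j))
    obtain ⟨m0, hm0⟩ := hex
    have hm0u : m0 ∈ msupp u := hrs (mem_msupp.2 hm0)
    set r' : Matrix ι ι ℂ := (r m0.1 m0.2)⁻¹ • r with hr'
    have hr's : msupp r' = msupp r := by
      ext m
      rw [mem_msupp, mem_msupp, hr', Matrix.smul_apply, smul_eq_mul, mul_ne_zero_iff]
      exact and_iff_right (inv_ne_zero hm0)
    have hcirc : Circ U (msupp r) m0 r' := by
      refine ⟨U.smul_mem _ hrU, hr's, ?_, fun s hs hss => ?_⟩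
      · rw [hr', Matrix.smul_apply, smul_eq_mul]
        exact inv_mul_cancel₀ hm0
      · exact hmin s hs (hss.subset.trans hrs) (Finset.card_lt_card hss)
    have hspan : r' ∈ Submodule.span ℂ {r | ∃ T m₀, Circ U T m₀ r} :=
      Submodule.subset_span ⟨_, _, hcirc⟩
    have hvs : msupp (u - u m0.1 m0.2 • r') ⊆ (msupp u).erase m0 := by
      intro m hm
      rw [mem_msupp, Matrix.sub_apply, Matrix.smul_apply, smul_eq_mul] at hm
      rw [Finset.mem_erase]
      refine ⟨?_, ?_⟩
      · rintro rfl
        exact hm (by rw [hcirc.one, mul_one, sub_self])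
      · by_contra hmu
        have h3 : u m.1 m.2 = 0 := by
          by_contra h4
          exact hmu (mem_msupp.2 h4)
        have h4 : r' m.1 m.2 = 0 := by
          by_contra h5
          exact hmu (hrs (hr's ▸ mem_msupp.2 h5))
        exact hm (by rw [h3, h4, mul_zero, sub_self])
    have hlt : (msupp (u - u m0.1 m0.2 • r')).card < k := by
      rw [← hk]
      exact (Finset.card_le_card hvs).trans_lt (Finset.card_erase_lt_of_mem hm0u)
    have h1 := ih _ hlt _ (U.sub_mem hu (U.smul_mem _ (U.smul_mem _ hrU))) rfl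
    have h2 := Submodule.add_mem _ h1 (Submodule.smul_mem _ (u m0.1 m0.2) hspan)
    rwa [sub_add_cancel] at h2

/-- There are only finitely many circuits. -/
private theorem circ_finite (U : Submodule ℂ (Matrix ι ι ℂ)) :
    {r | ∃ T m₀, Circ U T m₀ r}.Finite := by
  classical
  choose T m hTm using fun r : {r | ∃ T m₀, Circ U T m₀ r} => r.2
  have hinj : Function.Injective fun r => (T r, m r) := by
    intro r r' h
    have h1 := hTm r
    have h2 := hTm r'
    rw [(Prod.mk.inj h).1, (Prod.mk.inj h).2] at h1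
    exact Subtype.ext (h1.unique h2)
  exact Set.finite_coe_iff.1 (Finite.of_injective _ hinj)

theorem exists_finset_act {U : Submodule ℂ (Matrix ι ι ℂ)}
    (hU : (Set.range fun τ : ℂ ≃+* ℂ => act τ U).Finite) :
    ∃ S : Finset ℂ, (∀ x ∈ S, IsAlgebraic ℚ x) ∧
      ∀ τ τ' : ℂ ≃+* ℂ, (∀ x ∈ S, τ x = τ' x) → act τ U = act τ' U := by
  classical
  set C := (circ_finite U).toFinset with hC
  have hmemC : ∀ r, r ∈ C ↔ ∃ T m₀, Circ U T m₀ r := by
    intro r
    rw [hC, Set.Finite.mem_toFinset]
    rfl
  refine ⟨C.biUnion fun r => Finset.univ.image fun m : ι × ι => r m.1 m.2, ?_, ?_⟩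
  · intro x hx
    rw [Finset.mem_biUnion] at hx
    obtain ⟨r, hr, hx⟩ := hx
    rw [Finset.mem_image] at hx
    obtain ⟨m, -, rfl⟩ := hx
    obtain ⟨T, m₀, hcirc⟩ := (hmemC r).1 hr
    apply isAlgebraic_of_finite
    set e : Submodule ℂ (Matrix ι ι ℂ) → ℂ := fun V =>
      if h : ∃ r, Circ V T m₀ r then h.choose m.1 m.2 else 0 with he
    refine (hU.image e).subset ?_
    rintro _ ⟨τ, rfl⟩
    refine ⟨act τ U, ⟨τ, rfl⟩, ?_⟩
    have h1 : ∃ r, Circ (act τ U) T m₀ r := ⟨_, hcirc.map τ⟩
    rw [he]
    simp only [dif_pos h1]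
    rw [h1.choose_spec.unique (hcirc.map τ), Matrix.map_apply]
  · have key : ∀ τ τ' : ℂ ≃+* ℂ, (∀ x ∈ C.biUnion fun r => Finset.univ.image
        fun m : ι × ι => r m.1 m.2, τ x = τ' x) → act τ U ≤ act τ' U := by
      intro τ τ' h A hA
      have h1 : ∀ B ∈ Submodule.span ℂ {r | ∃ T m₀, Circ U T m₀ r}, B.map τ ∈ act τ' U := by
        intro B hB
        induction hB using Submodule.span_induction with
        | mem r hr =>
          have h2 : r.map τ = r.map τ' := by
            ext i j
            rw [Matrix.map_apply, Matrix.map_apply]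
            refine h _ ?_
            rw [Finset.mem_biUnion]
            refine ⟨r, (hmemC r).2 hr, ?_⟩
            rw [Finset.mem_image]
            exact ⟨(i, j), Finset.mem_univ _, rfl⟩
          obtain ⟨T, m₀, hcirc⟩ := hr
          rw [h2]
          exact map_mem_act.2 hcirc.mem
        | zero =>
          have h2 : (0 : Matrix ι ι ℂ).map τ = 0 := by
            ext i j
            simp
          rw [h2]
          exact Submodule.zero_mem _
        | add B B' _ _ hB hB' =>
          have h2 : (B + B').map τ = B.map τ + B'.map τ := by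
            ext i j
            simp
          rw [h2]
          exact Submodule.add_mem _ hB hB'
        | smul c B _ hB =>
          have h2 : (c • B).map τ = τ c • B.map τ := by
            ext i j
            simp
          rw [h2]
          exact Submodule.smul_mem _ _ hB
      have h2 := h1 _ (circ_span U (mem_act.1 hA))
      have h3 : (A.map τ.symm).map τ = A := by
        ext i j
        simp
      rwa [h3] at h2
    intro τ τ' h
    exact le_antisymm (key τ τ' h) (key τ' τ fun x hx => (h x hx).symm)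

end Pool.Agent.FQ
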