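import Pool.Agent.Mod4.Split

/-!
# The part of degree `± 1` generates

PACKAGE (statement frozen). Write `x` of degree one if `e x = x`, `x e = 0`, of degree `-1` if
`e x = 0`, `x e = x`. For `x ∈ H` the parts `e x (1 - e)` and `(1 - e) x e` are in `H`: `a = e x - x e`
and `b = e a - a e` are in `H` (as `2 e - 1 ∈ H`), `a + b = 2 e x (1 - e)`,
`b - a = 2 (1 - e) x e`. Let `L` be the span of the elements of degree `± 1` of `H` and the commutators
of an element of degree one and an element of degree `-1`. `L` is an ideal of `H`: write `x ∈ H` as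
`x₁ + x₀ + x₋₁`, `x₀` commuting with `e`; elements of degree one commute (their products are zero),
`[x₀, L₁] ⊆ L₁`, `[x₁, [y₁, y₋₁]]` has degree one, `[x₀, [y₁, y₋₁]] = [[x₀, y₁], y₋₁] +
[y₁, [x₀, y₋₁]]`. By `Mod4.comm_split` `2 e - 1 ∈ L`, so `L = H` by `hid`, or `e` commutes with
`L`; in the second case the elements of degree `± 1` of `H` are zero, `e` commutes with `H`, so it is
a scalar (Schur, `PrimePow.schur_irr`), so it is `0` or `1` and `2 e - 1 = ± 1` has not trace zero.
A subspace stable under the elements of degree `± 1` is stable under `L = H`.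
-/

set_option autoImplicit false

namespace Pool.Agent.FQ

open Module

section Alg

variable {K A : Type*} [Field K] [CharZero K] [Ring A] [Algebra K A]

private theorem parts {H : Submodule K A} (hlie : ∀ x ∈ H, ∀ y ∈ H, x * y - y * x ∈ H) {e : A}
    (hee : e * e = e) (he : (2 : K) • e - 1 ∈ H) (x : A) (hx : x ∈ H) :
    e * x - e * x * e ∈ H ∧ x * e - e * x * e ∈ H := by
  have hcom : ∀ y ∈ H, e * y - y * e ∈ H := by
    intro y hy
    have h1 := H.smul_mem ((2 : K)⁻¹) (hlie _ he y hy)
    have h2 : (2 : K)⁻¹ • (((2 : K) • e - 1) * y - y * ((2 : K) • e - 1)) = e * y - y * e := by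
      rw [sub_mul, mul_sub, one_mul, mul_one, smul_mul_assoc, mul_smul_comm,
        show (2 : K) • (e * y) - y - ((2 : K) • (y * e) - y) = (2 : K) • (e * y - y * e) by
          rw [smul_sub]; abel, smul_smul, inv_mul_cancel₀ two_ne_zero, one_smul]
    rwa [h2] at h1
  have ha := hcom x hx
  have hb := hcom _ ha
  have hb' : e * (e * x - x * e) - (e * x - x * e) * e =
      (e * x - e * x * e) + (x * e - e * x * e) := by
    rw [mul_sub, sub_mul, ← mul_assoc, hee, ← mul_assoc, mul_assoc x e e, hee]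
    abel
  rw [hb'] at hb
  constructor
  · have h1 := H.smul_mem ((2 : K)⁻¹) (H.add_mem ha hb)
    have h2 : (2 : K)⁻¹ • ((e * x - x * e) + ((e * x - e * x * e) + (x * e - e * x * e))) =
        e * x - e * x * e := by
      rw [show (e * x - x * e) + ((e * x - e * x * e) + (x * e - e * x * e)) =
        (2 : K) • (e * x - e * x * e) by rw [two_smul]; abel, smul_smul,
        inv_mul_cancel₀ two_ne_zero, one_smul]
    rwa [h2] at h1
  · have h1 := H.smul_mem ((2 : K)⁻¹) (H.sub_mem hb ha)
    have h2 : (2 : K)⁻¹ • (((e * x - e * x * e) + (x * e - e * x * e)) - (e * x - x * e)) =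
        x * e - e * x * e := by
      rw [show ((e * x - e * x * e) + (x * e - e * x * e)) - (e * x - x * e) =
        (2 : K) • (x * e - e * x * e) by rw [two_smul]; abel, smul_smul,
        inv_mul_cancel₀ two_ne_zero, one_smul]
    rwa [h2] at h1

/-- Generators of the ideal. -/
private def gens (H : Submodule K A) (e : A) : Set A :=
  {z | (z ∈ H ∧ e * z = z ∧ z * e = 0) ∨ (z ∈ H ∧ e * z = 0 ∧ z * e = z) ∨
    ∃ x ∈ H, ∃ y ∈ H, (e * x = x ∧ x * e = 0) ∧ (e * y = 0 ∧ y * e = y) ∧ z = x * y - y * x}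

private theorem gens_le {H : Submodule K A} (hlie : ∀ x ∈ H, ∀ y ∈ H, x * y - y * x ∈ H) {e : A} :
    Submodule.span K (gens H e) ≤ H := by
  rw [Submodule.span_le]
  rintro z (h | h | ⟨x, hx, y, hy, -, -, rfl⟩)
  · exact h.1
  · exact h.1
  · exact hlie x hx y hy

private theorem deg_one_comm {e x y : A} (hx : e * x = x) (hy : y * e = 0) : y * x = 0 := by
  rw [← hx, ← mul_assoc, hy, zero_mul]

private theorem deg_comm {e z x : A} (hz : e * z = z * e) (hx : e * x = x) (hx' : x * e = 0) :
    e * (z * x - x * z) = z * x - x * z ∧ (z * x - x * z) * e = 0 := by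
  constructor
  · rw [mul_sub, ← mul_assoc, hz, mul_assoc, hx, ← mul_assoc, hx]
  · rw [sub_mul, mul_assoc, hx', mul_zero, mul_assoc, ← hz, ← mul_assoc, hx', zero_mul, sub_zero]

private theorem deg_comm' {e z x : A} (hz : e * z = z * e) (hx : e * x = 0) (hx' : x * e = x) :
    e * (z * x - x * z) = 0 ∧ (z * x - x * z) * e = z * x - x * z := by
  constructor
  · rw [mul_sub, ← mul_assoc, hz, mul_assoc, hx, mul_zero, ← mul_assoc, hx, zero_mul, sub_zero]
  · rw [sub_mul, mul_assoc, hx', mul_assoc, ← hz, ← mul_assoc, hx']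

private theorem gens_ideal {H : Submodule K A} (hlie : ∀ x ∈ H, ∀ y ∈ H, x * y - y * x ∈ H)
    {e : A} (hee : e * e = e) (he : (2 : K) • e - 1 ∈ H) (x : A) (hx : x ∈ H) (z : A)
    (hz : z ∈ Submodule.span K (gens H e)) :
    x * z - z * x ∈ Submodule.span K (gens H e) := by
  -- the parts of `x`
  obtain ⟨h1, h2⟩ := parts hlie hee he x hx
  set L := Submodule.span K (gens H e) with hL
  obtain ⟨x1, hx1, e1⟩ : ∃ x1, x1 ∈ H ∧ x1 = e * x - e * x * e := ⟨_, h1, rfl⟩
  obtain ⟨x2, hx2, e2⟩ : ∃ x2, x2 ∈ H ∧ x2 = x * e - e * x * e := ⟨_, h2, rfl⟩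
  obtain ⟨x0, hx0, e0⟩ : ∃ x0, x0 ∈ H ∧ x0 = x - x1 - x2 :=
    ⟨_, H.sub_mem (H.sub_mem hx hx1) hx2, rfl⟩
  have a1 : e * x1 = x1 := by
    rw [e1, mul_sub, ← mul_assoc, hee, ← mul_assoc, ← mul_assoc, hee]
  have a1' : x1 * e = 0 := by
    rw [e1, sub_mul, mul_assoc (e * x) e e, hee, sub_self]
  have a2 : e * x2 = 0 := by
    rw [e2, mul_sub, ← mul_assoc, ← mul_assoc, ← mul_assoc, hee, sub_self]
  have a2' : x2 * e = x2 := by
    rw [e2, sub_mul, mul_assoc x e e, hee, mul_assoc (e * x) e e, hee]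
  have a0 : e * x0 = x0 * e := by
    rw [e0, mul_sub, mul_sub, sub_mul, sub_mul, a1, a1', a2, a2', e1, e2]
    abel
  have ex : x = x1 + x0 + x2 := by rw [e0]; abel
  -- generators
  have g1 : ∀ y ∈ H, e * y = y → y * e = 0 → y ∈ L := fun y hy h h' =>
    Submodule.subset_span (Or.inl ⟨hy, h, h'⟩)
  have g2 : ∀ y ∈ H, e * y = 0 → y * e = y → y ∈ L := fun y hy h h' =>
    Submodule.subset_span (Or.inr (Or.inl ⟨hy, h, h'⟩))
  have g3 : ∀ y ∈ H, ∀ w ∈ H, e * y = y → y * e = 0 → e * w = 0 → w * e = w →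
      y * w - w * y ∈ L := fun y hy w hw h h' h'' h''' =>
    Submodule.subset_span (Or.inr (Or.inr ⟨y, hy, w, hw, ⟨h, h'⟩, ⟨h'', h'''⟩, rfl⟩))
  have hadd : ∀ y : A, x1 * y - y * x1 ∈ L → x0 * y - y * x0 ∈ L → x2 * y - y * x2 ∈ L →
      x * y - y * x ∈ L := by
    intro y k1 k0 k2
    have : x * y - y * x = (x1 * y - y * x1) + (x0 * y - y * x0) + (x2 * y - y * x2) := by
      rw [ex, add_mul, add_mul, mul_add, mul_add]
      abel
    rw [this]
    exact L.add_mem (L.add_mem k1 k0) k2
  induction hz using Submodule.span_induction with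
  | mem z hz =>
    rcases hz with ⟨hz, b, b'⟩ | ⟨hz, b, b'⟩ | ⟨y, hy, w, hw, ⟨b, b'⟩, ⟨c, c'⟩, rfl⟩
    · apply hadd
      · rw [deg_one_comm b a1', deg_one_comm a1 b', sub_self]
        exact L.zero_mem
      · obtain ⟨d, d'⟩ := deg_comm a0 b b'
        exact g1 _ (hlie _ hx0 _ hz) d d'
      · have := L.neg_mem (g3 z hz x2 hx2 b b' a2 a2')
        rwa [neg_sub] at this
    · apply hadd
      · exact g3 x1 hx1 z hz a1 a1' b b'
      · obtain ⟨d, d'⟩ := deg_comm' a0 b b'
        exact g2 _ (hlie _ hx0 _ hz) d d'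
      · have k1 : x2 * z = 0 := by rw [← a2', mul_assoc, b, mul_zero]
        have k2 : z * x2 = 0 := by rw [← b', mul_assoc, a2, mul_zero]
        rw [k1, k2, sub_self]
        exact L.zero_mem
    · have hzH : y * w - w * y ∈ H := hlie y hy w hw
      have hze : e * (y * w - w * y) = (y * w - w * y) * e := by
        rw [mul_sub, sub_mul, ← mul_assoc, b, ← mul_assoc, c, zero_mul, mul_assoc y w e, c',
          mul_assoc w y e, b', mul_zero]
      apply hadd
      · obtain ⟨d, d'⟩ := deg_comm hze a1 a1'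
        have := L.neg_mem (g1 _ (hlie _ hzH _ hx1) d d')
        rwa [neg_sub] at this
      · obtain ⟨d, d'⟩ := deg_comm a0 b b'
        obtain ⟨f, f'⟩ := deg_comm' a0 c c'
        have k1 := g3 _ (hlie _ hx0 _ hy) w hw d d' c c'
        have k2 := g3 y hy _ (hlie _ hx0 _ hw) b b' f f'
        have k3 : x0 * (y * w - w * y) - (y * w - w * y) * x0 =
            ((x0 * y - y * x0) * w - w * (x0 * y - y * x0)) +
              (y * (x0 * w - w * x0) - (x0 * w - w * x0) * y) := by
          simp only [mul_sub, sub_mul, mul_assoc]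
          abel
        rw [k3]
        exact L.add_mem k1 k2
      · obtain ⟨d, d'⟩ := deg_comm' hze a2 a2'
        have := L.neg_mem (g2 _ (hlie _ hzH _ hx2) d d')
        rwa [neg_sub] at this
  | zero => rw [mul_zero, zero_mul, sub_zero]; exact L.zero_mem
  | add y w _ _ hy hw =>
    have : x * (y + w) - (y + w) * x = (x * y - y * x) + (x * w - w * x) := by
      rw [mul_add, add_mul]
      abel
    rw [this]
    exact L.add_mem hy hw
  | smul c y _ hy =>
    rw [mul_smul_comm, smul_mul_assoc, ← smul_sub]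
    exact L.smul_mem c hy

end Alg

variable {K V : Type*} [Field K] [CharZero K] [IsAlgClosed K] [AddCommGroup V] [Module K V]
  [FiniteDimensional K V]

theorem irr_graded [Nontrivial V] {H : Submodule K (End K V)}
    (hlie : ∀ x ∈ H, ∀ y ∈ H, x * y - y * x ∈ H) (htr : ∀ x ∈ H, LinearMap.trace K V x = 0)
    (hirr : ∀ W : Submodule K V, (∀ x ∈ H, ∀ w ∈ W, x w ∈ W) → W = ⊥ ∨ W = ⊤) {e : End K V}
    (hee : e * e = e) (he : (2 : K) • e - 1 ∈ H)
    (hid : ∀ s : Submodule K (End K V), s ≤ H → (∀ x ∈ H, ∀ y ∈ s, x * y - y * x ∈ s) →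
      (2 : K) • e - 1 ∈ s → s = H) (W : Submodule K V)
    (hW1 : ∀ x ∈ H, e * x = x → x * e = 0 → ∀ w ∈ W, x w ∈ W)
    (hW2 : ∀ x ∈ H, e * x = 0 → x * e = x → ∀ w ∈ W, x w ∈ W) : W = ⊥ ∨ W = ⊤ := by
  have hle : Submodule.span K (gens H e) ≤ H := gens_le hlie
  have hideal := gens_ideal hlie hee he
  rcases Mod4.comm_split hlie hirr hle hideal (fun a ha => htr a (hle ha)) he hee
    (htr _ he) with h | h
  · have hLH := hid _ hle hideal h
    apply hirr
    intro x hx
    rw [← hLH] at hx
    induction hx using Submodule.span_induction with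
    | mem z hz =>
      rcases hz with ⟨hz, b, b'⟩ | ⟨hz, b, b'⟩ | ⟨y, hy, w, hw, ⟨b, b'⟩, ⟨c, c'⟩, rfl⟩
      · exact hW1 z hz b b'
      · exact hW2 z hz b b'
      · intro v hv
        rw [LinearMap.sub_apply, Module.End.mul_apply, Module.End.mul_apply]
        exact W.sub_mem (hW1 y hy b b' _ (hW2 w hw c c' _ hv))
          (hW2 w hw c c' _ (hW1 y hy b b' _ hv))
    | zero => intro v _; rw [LinearMap.zero_apply]; exact W.zero_mem
    | add y w _ _ hy hw =>
      intro v hv
      rw [LinearMap.add_apply]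
      exact W.add_mem (hy v hv) (hw v hv)
    | smul c y _ hy =>
      intro v hv
      rw [LinearMap.smul_apply]
      exact W.smul_mem c (hy v hv)
  · exfalso
    have hcomm : ∀ x ∈ H, e * x = x * e := by
      intro x hx
      obtain ⟨h1, h2⟩ := parts hlie hee he x hx
      have a1 : e * (e * x - e * x * e) = e * x - e * x * e := by
        rw [mul_sub, ← mul_assoc, hee, ← mul_assoc, ← mul_assoc, hee]
      have a1' : (e * x - e * x * e) * e = 0 := by
        rw [sub_mul, mul_assoc (e * x) e e, hee, sub_self]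
      have a2 : e * (x * e - e * x * e) = 0 := by
        rw [mul_sub, ← mul_assoc, ← mul_assoc, ← mul_assoc, hee, sub_self]
      have a2' : (x * e - e * x * e) * e = x * e - e * x * e := by
        rw [sub_mul, mul_assoc x e e, hee, mul_assoc (e * x) e e, hee]
      have k1 := h _ (Submodule.subset_span (Or.inl ⟨h1, a1, a1'⟩))
      have k2 := h _ (Submodule.subset_span (Or.inr (Or.inl ⟨h2, a2, a2'⟩)))
      rw [a1, a1', sub_eq_zero] at k1
      rw [a2, a2', eq_comm, sub_eq_zero] at k2
      rw [k1, k2]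
    obtain ⟨c, hc⟩ := PrimePow.schur_irr hirr e hcomm
    have ht := htr _ he
    have hdim : (finrank K V : K) ≠ 0 := by
      rw [Nat.cast_ne_zero]
      exact finrank_pos.ne'
    have hcc : c * c = c := by
      have h1 : (c * c) • (1 : End K V) = c • 1 := by
        have h2 := hee
        rw [hc, smul_mul_assoc, mul_smul_comm, smul_smul, one_mul] at h2
        exact h2
      have h3 : (c * c - c) • (1 : End K V) = 0 := by rw [sub_smul, h1, sub_self]
      rcases smul_eq_zero.1 h3 with h4 | h4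
      · exact sub_eq_zero.1 h4
      · exact absurd h4 one_ne_zero
    rw [hc, map_sub, map_smul, map_smul, LinearMap.trace_one, smul_eq_mul, smul_eq_mul] at ht
    have h5 : (2 * c - 1) * (finrank K V : K) = 0 := by
      rw [← ht]
      ring
    rcases mul_eq_zero.1 h5 with h6 | h6
    · have h7 : (2 * c - 1) * (2 * c - 1) = 1 := by
        linear_combination 4 * hcc
      rw [h6, mul_zero] at h7
      exact zero_ne_one h7
    · exact hdim h6

end Pool.Agent.FQ
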