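import Mathlib

/-!
# Subgroups of an index prime to the number of the points are transitive

PACKAGE (statement frozen). Let `x ∈ X`, `B` the stabiliser of `x`, `k = |X|` its index, `d` the
index of `A`, `(d, k) = 1`. The index of `A ⊓ B` is divisible by `d` and by `k` and it is
`d * (A ⊓ B).relIndex A ≤ d k`, so it is `d k`, and the orbit of `x` under `A` has
`(A ⊓ B).relIndex A = k` elements (`Subgroup.relIndex`, `MulAction.index_stabilizer`).
-/

set_option autoImplicit false

namespace Pool.Agent.FQ

open MulAction

theorem isPretransitive_of_coprime {G X : Type*} [Group G] [MulAction G X] [Finite X]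
    [IsPretransitive G X] (A : Subgroup G) (h0 : A.index ≠ 0)
    (h : A.index.Coprime (Nat.card X)) : IsPretransitive A X := by
  refine ⟨fun x y => ?_⟩
  have hk : (stabilizer G x).index = Nat.card X := index_stabilizer_of_transitive G x
  have h1 := Subgroup.relIndex_mul_index (inf_le_left : A ⊓ stabilizer G x ≤ A)
  have h2 := Subgroup.relIndex_mul_index (inf_le_right : A ⊓ stabilizer G x ≤ stabilizer G x)
  rw [Subgroup.inf_relIndex_left] at h1
  rw [hk, ← h1] at h2
  have h3 : (stabilizer A x).index = (stabilizer G x).relIndex A := by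
    rw [Subgroup.relIndex]
    congr 1
  have h4 : (stabilizer A x).index = (orbit A x).ncard := index_stabilizer A x
  have h5 : Nat.card X ∣ (stabilizer G x).relIndex A := by
    have h6 : Nat.card X ∣ (stabilizer G x).relIndex A * A.index := ⟨_, by rw [← h2, mul_comm]⟩
    exact h.symm.dvd_of_dvd_mul_right h6
  rw [← h3, h4] at h5
  have h7 : 0 < (orbit A x).ncard := by
    rw [Set.ncard_pos]
    exact ⟨x, mem_orbit_self x⟩
  have h8 : (orbit A x).ncard = Nat.card X :=
    le_antisymm (Set.ncard_le_card _) (Nat.le_of_dvd h7 h5)
  have h9 : orbit A x = Set.univ := by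
    rw [← Set.ncard_univ] at h8
    exact Set.eq_of_subset_of_ncard_le (Set.subset_univ _) h8.ge
  have h10 : y ∈ orbit A x := by
    rw [h9]
    exact Set.mem_univ y
  exact h10

end Pool.Agent.FQ
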