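import Mathlib

/-!
# The index of the group of the automorphisms of `ℂ` which fix a number field

PACKAGE (statement frozen). `G = ℂ ≃+* ℂ = RingAut ℂ` acts on the set `K →+* ℂ` of the embeddings of
`K` by composition. The stabiliser of the inclusion is `fixG K`. The action is transitive: every
embedding `φ : K →+* ℂ` extends to an automorphism of `ℂ` (give a second copy of `ℂ` the structure
of a `K`-algebra by `φ`; both are algebraically closed, uncountable, of the same cardinality, and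
`K` is countable, so the transcendence bases over `K` have the same cardinality; see
`IsAlgClosed.equivOfTranscendenceBasis`, `IsAlgClosure.equivOfEquiv`, the proof of
`IsAlgClosed.ringEquivOfCardinalEqOfCharZero`, and `exists_aut` in Pool/Agent/LargeDom/Aut.lean; or:
extend `φ` to an automorphism of the algebraic closure of `ℚ` in `ℂ` (normal extension) and apply the
argument of `exists_aut`). So the index of the stabiliser is the number of the embeddings, that is
`finrank ℚ K` (`NumberField.Embeddings.card` or `AlgHom.card`). `Subgroup.index` and orbits: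
`MulAction.index_stabilizer`.
-/

set_option autoImplicit false

namespace Pool.Agent.FQ

/-- The automorphisms of `ℂ` which fix the elements of `K`. -/
def fixG (K : Subfield ℂ) : Subgroup (RingAut ℂ) where
  carrier := {τ | ∀ x ∈ K, τ x = x}
  mul_mem' := fun {a b} ha hb x hx => by
    rw [RingAut.mul_apply, hb x hx, ha x hx]
  one_mem' := fun x _ => rfl
  inv_mem' := fun {a} ha x hx => by
    have h := ha x hx
    calc a⁻¹ x = a⁻¹ (a x) := by rw [h]
      _ = x := by rw [← RingAut.mul_apply, inv_mul_cancel, RingAut.one_apply]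

theorem mem_fixG {K : Subfield ℂ} {τ : RingAut ℂ} : τ ∈ fixG K ↔ ∀ x ∈ K, τ x = x := Iff.rfl

/-- Automorphisms of `ℂ` extending an automorphism of a subfield. -/
private theorem Index_exists_aut {K : Type*} [Field K] [Algebra K ℂ] (τ : K ≃+* K) {T : Type*}
    {x : T → ℂ} (hx : IsTranscendenceBasis K x) :
    ∃ σ : ℂ ≃+* ℂ, ∀ a : K, σ (algebraMap K ℂ a) = algebraMap K ℂ (τ a) := by
  let h0 : IsAlgClosure (Algebra.adjoin K (Set.range x)) ℂ :=
    IsAlgClosed.isAlgClosure_of_transcendence_basis x hx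
  let e : Algebra.adjoin K (Set.range x) ≃+* Algebra.adjoin K (Set.range x) :=
    hx.1.aevalEquiv.symm.toRingEquiv.trans
      ((MvPolynomial.mapEquiv T τ).trans hx.1.aevalEquiv.toRingEquiv)
  have he : ∀ p : MvPolynomial T K, e (hx.1.aevalEquiv p) =
      hx.1.aevalEquiv (MvPolynomial.map (τ : K →+* K) p) := by
    intro p
    change hx.1.aevalEquiv (MvPolynomial.map (τ : K →+* K)
      (hx.1.aevalEquiv.symm (hx.1.aevalEquiv p))) = _
    rw [AlgEquiv.symm_apply_apply]
  have hσ : ∀ p : MvPolynomial T K, IsAlgClosure.equivOfEquiv ℂ ℂ e (MvPolynomial.aeval x p) =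
      MvPolynomial.aeval x (MvPolynomial.map (τ : K →+* K) p) := by
    intro p
    rw [← hx.1.algebraMap_aevalEquiv, IsAlgClosure.equivOfEquiv_algebraMap, he,
      hx.1.algebraMap_aevalEquiv]
  refine ⟨IsAlgClosure.equivOfEquiv ℂ ℂ e, ?_⟩
  intro a
  have h1 := hσ (MvPolynomial.C a)
  rw [MvPolynomial.map_C, MvPolynomial.aeval_C, MvPolynomial.aeval_C] at h1
  exact h1

/-- Every embedding of `K` extends to an automorphism of `ℂ`. -/
private theorem Index_extend (K : Subfield ℂ) [FiniteDimensional ℚ K] (φ : K →+* ℂ) :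
    ∃ σ : ℂ ≃+* ℂ, ∀ a : K, σ (a : ℂ) = φ a := by
  let pb := Field.powerBasisOfFiniteOfSeparable ℚ K
  let θ : K := pb.gen
  let L := algebraicClosure ℚ ℂ
  have hcl : IsAlgClosure ℚ L := algebraicClosure.isAlgClosure ℚ ℂ
  have hnorm : Normal ℚ L := IsAlgClosure.normal ℚ L
  let ι : K →ₐ[ℚ] ℂ := (K.subtype).toRatAlgHom
  let ψ : K →ₐ[ℚ] ℂ := φ.toRatAlgHom
  have hι : ∀ a, ι a = (a : ℂ) := fun a => rfl
  have hψ : ∀ a, ψ a = φ a := fun a => rfl
  have halg : ∀ a : K, IsAlgebraic ℚ a := fun a => Algebra.IsAlgebraic.isAlgebraic a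
  have hmem : ∀ (χ : K →ₐ[ℚ] ℂ) (a : K), χ a ∈ L := fun χ a =>
    mem_algebraicClosure_iff.mpr ((halg a).algHom χ)
  have hroot : Polynomial.aeval (⟨ψ θ, hmem ψ θ⟩ : L) (minpoly ℚ (⟨ι θ, hmem ι θ⟩ : L)) = 0 := by
    have h1 : minpoly ℚ (⟨ι θ, hmem ι θ⟩ : L) = minpoly ℚ θ := by
      have h2 : minpoly ℚ (ι θ) = minpoly ℚ (⟨ι θ, hmem ι θ⟩ : L) :=
        minpoly.algebraMap_eq (algebraMap L ℂ).injective (⟨ι θ, hmem ι θ⟩ : L)
      rw [← h2]
      exact minpoly.algHom_eq ι ι.injective θ
    rw [h1]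
    apply (algebraMap L ℂ).injective
    rw [map_zero, ← Polynomial.aeval_algebraMap_apply]
    change Polynomial.aeval (ψ θ) (minpoly ℚ θ) = 0
    rw [Polynomial.aeval_algHom_apply, minpoly.aeval, map_zero]
  obtain ⟨τ, hτ⟩ := minpoly.exists_algEquiv_of_root' (K := ℚ) (L := L)
    (x := (⟨ψ θ, hmem ψ θ⟩ : L)) (y := (⟨ι θ, hmem ι θ⟩ : L))
    (Algebra.IsAlgebraic.isAlgebraic _) hroot
  obtain ⟨s, hs⟩ := exists_isTranscendenceBasis L ℂ
  obtain ⟨σ, hσ⟩ := Index_exists_aut (τ : L ≃+* L) hs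
  refine ⟨σ, fun a => ?_⟩
  have h1 : (σ : ℂ →+* ℂ).toRatAlgHom.comp ι = ψ := by
    refine pb.algHom_ext ?_
    have h2 := hσ (⟨ι θ, hmem ι θ⟩ : L)
    have h3 : ((τ : L ≃+* L) (⟨ι θ, hmem ι θ⟩ : L)) = (⟨ψ θ, hmem ψ θ⟩ : L) := hτ
    rw [h3] at h2
    exact h2
  have h2 := congrArg (fun f : K →ₐ[ℚ] ℂ => f a) h1
  exact h2

theorem index_fixG (K : Subfield ℂ) [FiniteDimensional ℚ K] :
    (fixG K).index = Module.finrank ℚ K := by
  have hK : NumberField K :=
    { to_charZero := inferInstance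
      to_finiteDimensional := inferInstance }
  let act : MulAction (RingAut ℂ) (K →+* ℂ) :=
    { smul := fun τ φ => ((τ : ℂ ≃+* ℂ) : ℂ →+* ℂ).comp φ
      one_smul := fun φ => by
        ext x
        rfl
      mul_smul := fun a b φ => by
        ext x
        rfl }
  have h1 : fixG K = MulAction.stabilizer (RingAut ℂ) (K.subtype) := by
    ext τ
    rw [mem_fixG, MulAction.mem_stabilizer_iff]
    constructor
    · intro h
      ext x
      exact h x x.2
    · intro h x hx
      exact congrArg (fun f : K →+* ℂ => f ⟨x, hx⟩) h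
  have h2 : MulAction.orbit (RingAut ℂ) (K.subtype) = Set.univ := by
    refine Set.eq_univ_of_forall fun φ => ?_
    obtain ⟨σ, hσ⟩ := Index_extend K φ
    refine ⟨σ, ?_⟩
    ext x
    exact hσ x
  rw [h1, MulAction.index_stabilizer, h2, Set.ncard_univ, Nat.card_eq_fintype_card,
    NumberField.Embeddings.card]

end Pool.Agent.FQ
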