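import Pool.Agent.Tube.Final

/-!
# Interface to the theorems on tube gradings (Pool/Agent/Tube)
-/

set_option autoImplicit false

namespace Pool.Agent.FQ

open Module

variable {K V : Type*} [Field K] [CharZero K] [IsAlgClosed K] [AddCommGroup V] [Module K V]
  [FiniteDimensional K V]

theorem tube_sp {ψ : V →ₗ[K] V →ₗ[K] K} (halt : ∀ x, ψ x x = 0)
    (hnd : ∀ x, (∀ y, ψ x y = 0) → x = 0) {g : Submodule K (End K V)}
    (hlie : ∀ x ∈ g, ∀ y ∈ g, x * y - y * x ∈ g)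
    (hskew : ∀ x ∈ g, ∀ u v, ψ (x u) v + ψ u (x v) = 0) {e : End K V} (hee : e * e = e)
    (hmult : ∀ u v, ψ (e u) v + ψ u (e v) = ψ u v) (he : (2 : K) • e - 1 ∈ g)
    {x : End K V} (hx : x ∈ g) (hex : e * x = x) (hxe : x * e = 0)
    (hinj : ∀ v, e v = 0 → x v = 0 → v = 0)
    (hirr : ∀ W : Submodule K V, (∀ y ∈ g, e * y = y → y * e = 0 → ∀ w ∈ W, y w ∈ W) →
      (∀ y ∈ g, e * y = 0 → y * e = y → ∀ w ∈ W, y w ∈ W) → W = ⊥ ∨ W = ⊤)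
    (hn : ∀ m : ℕ, 5 ≤ m → finrank K V ≠ 2 ^ m) (D : End K V)
    (hD : ∀ u v, ψ (D u) v + ψ u (D v) = 0) : D ∈ g := by
  refine Tube.tube_sp hlie halt hnd hskew hee hmult he hx hex hxe hinj (fun W hW => ?_) hn hD
  exact hirr W (fun y hy h1 h2 => hW y hy (Or.inl ⟨h1, h2⟩))
    (fun y hy h1 h2 => hW y hy (Or.inr ⟨h1, h2⟩))

theorem exists_tube {g : Submodule K (End K V)} (hlie : ∀ x ∈ g, ∀ y ∈ g, x * y - y * x ∈ g)
    {e : End K V} (hee : e * e = e) (he : (2 : K) • e - 1 ∈ g) {u : (End K V)ˣ}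
    (hu : u ∈ expG K g) (hue : (u : End K V) * e * ((u⁻¹ : (End K V)ˣ) : End K V) = 1 - e) :
    ∃ x ∈ g, e * x = x ∧ x * e = 0 ∧ ∀ v, e v = 0 → x v = 0 → v = 0 :=
  Tube.exists_tube_expG hlie hee he hu hue

end Pool.Agent.FQ
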