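import Mathlib

/-!
# A matrix algebra and an algebra which commutes with it

PACKAGE (statements frozen). `A` and `B` are commuting subalgebras of `E` and `A` is isomorphic to a
matrix algebra. Let `E i j ∈ A` be the elements which correspond to the matrix units.
* `exists_mul_equiv`: the algebra homomorphism `A ⊗ B → E` (`Algebra.TensorProduct.lift`) has the
  range `A ⊔ B`. It is injective: an element of `A ⊗ B` is `∑ E i j ⊗ b i j` in a unique way
  (the `E i j` are a basis of `A`; `TensorProduct.equivFinsuppOfBasisLeft` or similar), and if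
  `∑ E i j * b i j = 0` then `b k l = ∑ r, E r k * (∑ E i j * b i j) * E l r = 0`.
* `finrank_sup`: `finrank_tensorProduct`.
* `finrank_iSup`: induction on `T` with `finrank_sup`; the supremum over the empty set is `⊥`, the
  scalars (`Subalgebra.finrank_bot`).
-/

set_option autoImplicit false

namespace Pool.Agent.FQ

open Module TensorProduct

variable {K E : Type*} [Field K] [Ring E] [Algebra K E] [FiniteDimensional K E]

section units

omit [FiniteDimensional K E]

variable {A : Subalgebra K E} {m : ℕ} (φ : A ≃ₐ[K] Matrix (Fin m) (Fin m) K)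

/-- the elements of `A` which correspond to the matrix units -/
private def mu (i j : Fin m) : E := (φ.symm (Matrix.single i j 1) : A)

private theorem mu_mul_same (i j k : Fin m) : mu φ i j * mu φ j k = mu φ i k := by
  unfold mu
  rw [← MulMemClass.coe_mul, ← map_mul, Matrix.single_mul_single_same, mul_one]

private theorem mu_mul_ne (i : Fin m) {j k : Fin m} (l : Fin m) (h : j ≠ k) :
    mu φ i j * mu φ k l = 0 := by
  unfold mu
  rw [← MulMemClass.coe_mul, ← map_mul, Matrix.single_mul_single_of_ne _ _ _ _ h, map_zero,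
    ZeroMemClass.coe_zero]

private theorem sum_mu : ∑ r, mu φ r r = 1 := by
  have h1 : ∑ r : Fin m, Matrix.single r r (1 : K) = 1 := by
    ext a b
    rw [Matrix.sum_apply, Matrix.one_apply]
    by_cases hab : a = b
    · subst hab
      rw [if_pos rfl, Finset.sum_eq_single a]
      · simp
      · intro c _ hc
        simp [Matrix.single, hc]
      · intro h
        exact absurd (Finset.mem_univ _) h
    · rw [if_neg hab]
      refine Finset.sum_eq_zero fun c _ => ?_
      simp only [Matrix.single, Matrix.of_apply]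
      rw [if_neg]
      rintro ⟨rfl, rfl⟩
      exact hab rfl
  unfold mu
  rw [← AddSubmonoidClass.coe_finsetSum, ← map_sum, h1, map_one, OneMemClass.coe_one]

end units

omit [FiniteDimensional K E] in
private theorem comm_val {A B : Subalgebra K E} (hAB : ∀ a ∈ A, ∀ b ∈ B, a * b = b * a)
    (x : A) (y : B) : Commute (A.val x) (B.val y) := hAB x x.2 y y.2

omit [FiniteDimensional K E] in
private noncomputable def mulHom {A B : Subalgebra K E}
    (hAB : ∀ a ∈ A, ∀ b ∈ B, a * b = b * a) : (A ⊗[K] B) →ₐ[K] E :=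
  Algebra.TensorProduct.lift A.val B.val (comm_val hAB)

omit [FiniteDimensional K E] in
private theorem mulHom_tmul {A B : Subalgebra K E} (hAB : ∀ a ∈ A, ∀ b ∈ B, a * b = b * a)
    (a : A) (b : B) : mulHom hAB (a ⊗ₜ b) = a * b :=
  Algebra.TensorProduct.lift_tmul A.val B.val (comm_val hAB) a b

omit [FiniteDimensional K E] in
private theorem mulHom_inj {A B : Subalgebra K E} {m : ℕ}
    (φ : A ≃ₐ[K] Matrix (Fin m) (Fin m) K) (hAB : ∀ a ∈ A, ∀ b ∈ B, a * b = b * a) :
    Function.Injective (mulHom hAB) := by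
  set g : (A ⊗[K] B) →ₐ[K] E := mulHom hAB with hg
  set ℬ : Basis (Fin m × Fin m) K A :=
    (Matrix.stdBasis K (Fin m) (Fin m)).map φ.symm.toLinearEquiv with hℬ
  have hℬa : ∀ p : Fin m × Fin m, (ℬ p : E) = mu φ p.1 p.2 := by
    intro p
    rw [hℬ, Basis.map_apply, Matrix.stdBasis_eq_single]
    rfl
  rw [injective_iff_map_eq_zero]
  intro x hx
  obtain ⟨c, hc⟩ := TensorProduct.eq_repr_basis_left ℬ x
  have h1 : ∑ p : Fin m × Fin m, mu φ p.1 p.2 * (c p : E) = 0 := by
    rw [← hx, ← hc, Finsupp.sum_fintype _ _ fun p => TensorProduct.tmul_zero _ _, map_sum]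
    refine Finset.sum_congr rfl fun p _ => ?_
    rw [hg, mulHom_tmul, ← hℬa]
  have h2 : ∀ k l : Fin m, (c (k, l) : E) = 0 := by
    intro k l
    have h3 : ∀ r : Fin m, mu φ r k * (∑ p : Fin m × Fin m, mu φ p.1 p.2 * (c p : E)) *
        mu φ l r = mu φ r r * (c (k, l) : E) := by
      intro r
      rw [Finset.mul_sum, Finset.sum_mul, Finset.sum_eq_single (k, l)]
      · have h4 : (c (k, l) : E) * mu φ l r = mu φ l r * (c (k, l) : E) :=
          (hAB _ (φ.symm (Matrix.single l r 1)).2 _ (c (k, l)).2).symm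
        rw [← mul_assoc, mu_mul_same, mul_assoc, h4, ← mul_assoc, mu_mul_same]
      · intro p _ hp
        have h4 : (c p : E) * mu φ l r = mu φ l r * (c p : E) :=
          (hAB _ (φ.symm (Matrix.single l r 1)).2 _ (c p).2).symm
        by_cases h5 : k = p.1
        · have h6 : p.2 ≠ l := fun h => hp (Prod.ext h5.symm h)
          rw [mul_assoc, mul_assoc, h4, ← mul_assoc (mu φ p.1 p.2), mu_mul_ne φ _ _ h6,
            zero_mul, mul_zero]
        · rw [← mul_assoc, mu_mul_ne φ _ _ h5, zero_mul, zero_mul]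
      · intro h
        exact absurd (Finset.mem_univ _) h
    calc (c (k, l) : E) = (∑ r, mu φ r r) * (c (k, l) : E) := by rw [sum_mu, one_mul]
      _ = ∑ r, mu φ r k * (∑ p : Fin m × Fin m, mu φ p.1 p.2 * (c p : E)) * mu φ l r := by
          rw [Finset.sum_mul]
          exact Finset.sum_congr rfl fun r _ => (h3 r).symm
      _ = 0 := by
          rw [h1]
          simp
  have h3 : c = 0 := by
    ext p
    exact h2 p.1 p.2
  rw [← hc, h3, Finsupp.sum_zero_index]

theorem exists_mul_equiv {A B : Subalgebra K E} {m : ℕ} (φ : A ≃ₐ[K] Matrix (Fin m) (Fin m) K)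
    (hAB : ∀ a ∈ A, ∀ b ∈ B, a * b = b * a) :
    ∃ f : (A ⊗[K] B) ≃ₗ[K] ↥(A ⊔ B), ∀ (a : A) (b : B), (f (a ⊗ₜ b) : E) = a * b := by
  set g : (A ⊗[K] B) →ₐ[K] E := mulHom hAB with hg
  have hr : g.range = A ⊔ B := by
    apply le_antisymm
    · rintro _ ⟨x, rfl⟩
      change g x ∈ A ⊔ B
      induction x using TensorProduct.induction_on with
      | zero =>
        rw [map_zero]
        exact zero_mem _
      | tmul a b =>
        rw [hg, mulHom_tmul]
        exact mul_mem ((le_sup_left : A ≤ A ⊔ B) a.2) ((le_sup_right : B ≤ A ⊔ B) b.2)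
      | add x y hx hy =>
        rw [map_add]
        exact add_mem hx hy
    · refine sup_le ?_ ?_
      · intro a ha
        refine ⟨(⟨a, ha⟩ : A) ⊗ₜ (1 : B), ?_⟩
        change g _ = a
        rw [hg, mulHom_tmul, OneMemClass.coe_one, mul_one]
      · intro b hb
        refine ⟨(1 : A) ⊗ₜ (⟨b, hb⟩ : B), ?_⟩
        change g _ = b
        rw [hg, mulHom_tmul, OneMemClass.coe_one, one_mul]
  refine ⟨(AlgEquiv.ofInjective g (mulHom_inj φ hAB)).toLinearEquiv.trans
    (Subalgebra.equivOfEq _ _ hr).toLinearEquiv, fun a b => ?_⟩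
  change g (a ⊗ₜ b) = a * b
  rw [hg, mulHom_tmul]

theorem finrank_sup {A B : Subalgebra K E} {m : ℕ} (φ : A ≃ₐ[K] Matrix (Fin m) (Fin m) K)
    (hAB : ∀ a ∈ A, ∀ b ∈ B, a * b = b * a) :
    finrank K ↥(A ⊔ B) = finrank K A * finrank K B := by
  obtain ⟨f, -⟩ := exists_mul_equiv φ hAB
  rw [← f.finrank_eq, finrank_tensorProduct]

theorem finrank_iSup {J : Type*} (A : J → Subalgebra K E)
    (hA : ∀ i j, i ≠ j → ∀ a ∈ A i, ∀ b ∈ A j, a * b = b * a)
    (hm : ∀ i, ∃ m : ℕ, Nonempty (A i ≃ₐ[K] Matrix (Fin m) (Fin m) K)) [Nontrivial E]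
    (T : Finset J) : finrank K ↥(⨆ i ∈ T, A i) = ∏ i ∈ T, finrank K (A i) := by
  classical
  induction T using Finset.induction_on with
  | empty =>
    have h1 : (⨆ i ∈ (∅ : Finset J), A i) = ⊥ := by simp
    rw [h1, Finset.prod_empty, Subalgebra.finrank_bot]
  | insert j T hj ih =>
    obtain ⟨m, ⟨φ⟩⟩ := hm j
    have h1 : (⨆ i ∈ T, A i) ≤ Subalgebra.centralizer K (A j : Set E) := by
      refine iSup₂_le fun i hi b hb => ?_
      rw [Subalgebra.mem_centralizer_iff]
      intro a ha
      refine hA j i ?_ a ha b hb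
      rintro rfl
      exact hj hi
    rw [Finset.iSup_insert, Finset.prod_insert hj, ← ih]
    refine finrank_sup φ fun a ha b hb => ?_
    exact (Subalgebra.mem_centralizer_iff K).1 (h1 hb) a ha

end Pool.Agent.FQ
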