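import Pool.Agent.FQ.Orb
import Pool.Agent.FQ.ExpStab

/-!
# The action of the components on the ideals

PACKAGE (statements frozen). `cj ν U` is the subspace of the `ν A ν⁻¹`, `A ∈ U`.
* `cj_idl`: conjugation by `ν` is an automorphism of the Lie algebra `H` (`hν` and the equality of
  dimensions, or `cj ν H = H` as `cj ν H ≤ H` and the dimensions are equal) which maps `2 e - 1` to
  `2 (ν e ν⁻¹) - 1`.
* `cj_act`: the entries of `(ν A ν⁻¹).map τ` are those of `ν (A.map τ) ν⁻¹` as `ν.map τ = ν`.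
* `cj_exp`: `conj_mem`.
* `cochar_conj`: immediate.
* `exists_hom`: `cj (ν c)` permutes `orb h e₀` (`mem_orb`, `cochar_conj`, `cj_idl`; injective and the set
  is finite), `cj (ν c * ν c') = cj (ν (c * c'))` on ideals by `CompData.mul` and `cj_exp` (the scalar
  `a` is not zero and cancels).
-/

set_option autoImplicit false

namespace Pool.Agent.FQ

open Module

variable {ι : Type} [Fintype ι] [DecidableEq ι]

/-- The conjugate of a subspace by an invertible matrix. -/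
def cj (ν : (Matrix ι ι ℂ)ˣ) (U : Submodule ℂ (Matrix ι ι ℂ)) :
    Submodule ℂ (Matrix ι ι ℂ) where
  carrier := {A | ((ν⁻¹ : (Matrix ι ι ℂ)ˣ) : Matrix ι ι ℂ) * A * ν ∈ U}
  add_mem' := fun {A B} hA hB => by
    rw [Set.mem_ofPred_eq, mul_add, add_mul]
    exact U.add_mem hA hB
  zero_mem' := by
    rw [Set.mem_ofPred_eq, mul_zero, zero_mul]
    exact U.zero_mem
  smul_mem' := fun c A hA => by
    rw [Set.mem_ofPred_eq, Matrix.mul_smul, Matrix.smul_mul]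
    exact U.smul_mem _ hA

variable {F : Matrix ι ι ℚ} {h : Submodule ℚ (Matrix ι ι ℚ)} {e e₀ A : Matrix ι ι ℂ}
  {ν ν' u : (Matrix ι ι ℂ)ˣ} {U s : Submodule ℂ (Matrix ι ι ℂ)} {τ : ℂ ≃+* ℂ}

theorem mem_cj : A ∈ cj ν U ↔ ((ν⁻¹ : (Matrix ι ι ℂ)ˣ) : Matrix ι ι ℂ) * A * ν ∈ U := Iff.rfl

theorem cj_one : cj 1 U = U := by
  ext A
  rw [mem_cj, inv_one, Units.val_one, one_mul, mul_one]

theorem cj_mul : cj (ν * ν') U = cj ν (cj ν' U) := by
  ext A
  rw [mem_cj, mem_cj, mem_cj, mul_inv_rev, Units.val_mul, Units.val_mul]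
  simp only [mul_assoc]

private theorem norm_inj {U V : Submodule ℂ (Matrix ι ι ℂ)} (h : cj ν U = cj ν V) : U = V := by
  have h1 : cj ν⁻¹ (cj ν U) = cj ν⁻¹ (cj ν V) := by rw [h]
  rwa [← cj_mul, ← cj_mul, inv_mul_cancel, cj_one, cj_one] at h1

theorem cj_exp (hs : IsIdl (cx h) s) (hu : u ∈ expG ℂ (cx h)) : cj u s = s := by
  ext A
  rw [mem_cj]
  constructor
  · intro hA
    have h1 := conj_mem hs.2 hu hA
    have h2 : (u : Matrix ι ι ℂ) * (((u⁻¹ : (Matrix ι ι ℂ)ˣ) : Matrix ι ι ℂ) * A * u) *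
        ((u⁻¹ : (Matrix ι ι ℂ)ˣ) : Matrix ι ι ℂ) = A := by
      simp only [mul_assoc, Units.mul_inv, mul_one]
      rw [← mul_assoc, Units.mul_inv, one_mul]
    rwa [h2] at h1
  · intro hA
    have h1 := conj_mem hs.2 (inv_mem hu) hA
    rwa [inv_inv] at h1

/-- Conjugation as a linear equivalence. -/
private def norm_equiv (ν : (Matrix ι ι ℂ)ˣ) : Matrix ι ι ℂ ≃ₗ[ℂ] Matrix ι ι ℂ where
  toFun x := (ν : Matrix ι ι ℂ) * x * ((ν⁻¹ : (Matrix ι ι ℂ)ˣ) : Matrix ι ι ℂ)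
  invFun x := ((ν⁻¹ : (Matrix ι ι ℂ)ˣ) : Matrix ι ι ℂ) * x * ν
  left_inv x := by
    simp only [mul_assoc, Units.inv_mul, mul_one]
    rw [← mul_assoc, Units.inv_mul, one_mul]
  right_inv x := by
    simp only [mul_assoc, Units.mul_inv, mul_one]
    rw [← mul_assoc, Units.mul_inv, one_mul]
  map_add' x y := by rw [mul_add, add_mul]
  map_smul' c x := by rw [Matrix.mul_smul, Matrix.smul_mul, RingHom.id_apply]

private theorem norm_apply (ν : (Matrix ι ι ℂ)ˣ) (x : Matrix ι ι ℂ) : norm_equiv ν x =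
    (ν : Matrix ι ι ℂ) * x * ((ν⁻¹ : (Matrix ι ι ℂ)ˣ) : Matrix ι ι ℂ) := rfl

private theorem norm_symm (ν : (Matrix ι ι ℂ)ˣ) (x : Matrix ι ι ℂ) : (norm_equiv ν).symm x =
    ((ν⁻¹ : (Matrix ι ι ℂ)ˣ) : Matrix ι ι ℂ) * x * ν := rfl

private theorem norm_mul (ν : (Matrix ι ι ℂ)ˣ) (x y : Matrix ι ι ℂ) :
    norm_equiv ν (x * y) = norm_equiv ν x * norm_equiv ν y := by
  rw [norm_apply, norm_apply, norm_apply]
  simp only [mul_assoc]
  rw [← mul_assoc ((ν⁻¹ : (Matrix ι ι ℂ)ˣ) : Matrix ι ι ℂ) (ν : Matrix ι ι ℂ), Units.inv_mul,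
    one_mul]

private theorem norm_comm (ν : (Matrix ι ι ℂ)ˣ) (x y : Matrix ι ι ℂ) :
    norm_equiv ν (x * y - y * x) =
      norm_equiv ν x * norm_equiv ν y - norm_equiv ν y * norm_equiv ν x := by
  rw [map_sub, norm_mul, norm_mul]

private theorem norm_one (ν : (Matrix ι ι ℂ)ˣ) : norm_equiv ν 1 = 1 := by
  rw [norm_apply, mul_one, Units.mul_inv]

private theorem norm_two (ν : (Matrix ι ι ℂ)ˣ) (e : Matrix ι ι ℂ) :
    norm_equiv ν ((2 : ℂ) • e - 1) = (2 : ℂ) • norm_equiv ν e - 1 := by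
  rw [map_sub, map_smul, norm_one]

private theorem norm_mem (ν : (Matrix ι ι ℂ)ˣ) (U : Submodule ℂ (Matrix ι ι ℂ))
    (A : Matrix ι ι ℂ) : A ∈ cj ν U ↔ (norm_equiv ν).symm A ∈ U := Iff.rfl

private theorem norm_mem' (ν : (Matrix ι ι ℂ)ˣ) (U : Submodule ℂ (Matrix ι ι ℂ))
    (A : Matrix ι ι ℂ) : A ∈ cj ν⁻¹ U ↔ norm_equiv ν A ∈ U := by
  rw [mem_cj, inv_inv]
  rfl

theorem cj_cx (hν : ∀ x ∈ cx h, (ν : Matrix ι ι ℂ) * x * (ν⁻¹ : (Matrix ι ι ℂ)ˣ) ∈ cx h) :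
    cj ν (cx h) = cx h := by
  have h1 : Submodule.map (norm_equiv ν : Matrix ι ι ℂ →ₗ[ℂ] Matrix ι ι ℂ) (cx h) ≤ cx h := by
    rintro _ ⟨x, hx, rfl⟩
    exact hν x hx
  have h2 : Submodule.map (norm_equiv ν : Matrix ι ι ℂ →ₗ[ℂ] Matrix ι ι ℂ) (cx h) = cx h :=
    Submodule.eq_of_le_of_finrank_le h1 (LinearEquiv.finrank_map_eq (norm_equiv ν) (cx h)).ge
  ext A
  rw [norm_mem]
  constructor
  · intro hA
    have h3 := hν _ hA
    rw [← norm_apply, LinearEquiv.apply_symm_apply] at h3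
    exact h3
  · intro hA
    rw [← h2] at hA
    obtain ⟨x, hx, rfl⟩ := hA
    change (norm_equiv ν).symm (norm_equiv ν x) ∈ cx h
    rwa [LinearEquiv.symm_apply_apply]

theorem cochar_conj (hν : ∀ x ∈ cx h, (ν : Matrix ι ι ℂ) * x * (ν⁻¹ : (Matrix ι ι ℂ)ˣ) ∈ cx h)
    (he : IsCochar h e) : IsCochar h ((ν : Matrix ι ι ℂ) * e * (ν⁻¹ : (Matrix ι ι ℂ)ˣ)) := by
  rw [← norm_apply]
  refine ⟨?_, ?_⟩
  · rw [← norm_mul, he.idem]
  · rw [← norm_two]
    exact hν _ he.mem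

theorem cj_idl (hν : ∀ x ∈ cx h, (ν : Matrix ι ι ℂ) * x * (ν⁻¹ : (Matrix ι ι ℂ)ˣ) ∈ cx h)
    (e : Matrix ι ι ℂ) :
    cj ν (idl (cx h) e) = idl (cx h) ((ν : Matrix ι ι ℂ) * e * (ν⁻¹ : (Matrix ι ι ℂ)ˣ)) := by
  rw [← norm_apply]
  apply le_antisymm
  · have h1 : idl (cx h) e ≤ cj ν⁻¹ (idl (cx h) (norm_equiv ν e)) := by
      refine idl_le ?_ fun x hx y hy => ?_
      · rw [norm_mem', norm_two]
        exact mem_idl
      · rw [norm_mem', norm_comm]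
        exact idl_stable _ (hν x hx) _ ((norm_mem' ν _ y).1 hy)
    intro A hA
    have h2 := (norm_mem' ν _ _).1 (h1 hA)
    change norm_equiv ν ((norm_equiv ν).symm A) ∈ _ at h2
    rwa [LinearEquiv.apply_symm_apply] at h2
  · refine idl_le ?_ fun x hx y hy => ?_
    · rw [norm_mem, ← norm_two, LinearEquiv.symm_apply_apply]
      exact mem_idl
    · have hx' : (norm_equiv ν).symm x ∈ cx h := by
        rw [← norm_mem, cj_cx hν]
        exact hx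
      have h3 : (norm_equiv ν).symm (x * y - y * x) = (norm_equiv ν).symm x *
          (norm_equiv ν).symm y - (norm_equiv ν).symm y * (norm_equiv ν).symm x := by
        rw [LinearEquiv.symm_apply_eq, norm_comm, LinearEquiv.apply_symm_apply,
          LinearEquiv.apply_symm_apply]
      rw [norm_mem, h3]
      exact idl_stable _ hx' _ hy

omit [DecidableEq ι] in
private theorem norm_map_mul (τ : ℂ ≃+* ℂ) (A B : Matrix ι ι ℂ) :
    (A * B).map τ = A.map τ * B.map τ := by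
  ext i j
  simp [Matrix.mul_apply, Matrix.map_apply]

omit [Fintype ι] in
private theorem norm_map_one (τ : ℂ ≃+* ℂ) : (1 : Matrix ι ι ℂ).map τ = 1 := by
  ext i j
  rw [Matrix.map_apply, Matrix.one_apply, apply_ite τ, map_one, map_zero]

theorem cj_act (hν : (ν : Matrix ι ι ℂ).map τ = ν) : act τ (cj ν U) = cj ν (act τ U) := by
  have h1 : (ν : Matrix ι ι ℂ).map τ.symm = ν := by
    conv_lhs => rw [← hν]
    ext i j
    simp [Matrix.map_apply]
  have h2 : ((ν⁻¹ : (Matrix ι ι ℂ)ˣ) : Matrix ι ι ℂ).map τ.symm =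
      ((ν⁻¹ : (Matrix ι ι ℂ)ˣ) : Matrix ι ι ℂ) := by
    refine (Units.inv_eq_of_mul_eq_one_right (u := ν) ?_).symm
    conv_lhs => rw [← h1]
    rw [← norm_map_mul, Units.mul_inv, norm_map_one]
  ext A
  change ((ν⁻¹ : (Matrix ι ι ℂ)ˣ) : Matrix ι ι ℂ) * A.map τ.symm * ν ∈ U ↔
    (((ν⁻¹ : (Matrix ι ι ℂ)ˣ) : Matrix ι ι ℂ) * A * ν).map τ.symm ∈ U
  rw [norm_map_mul, norm_map_mul, h1, h2]

private theorem norm_scalar [Nonempty ι] {w w' : (Matrix ι ι ℂ)ˣ} {a : ℂ}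
    (hw : (w : Matrix ι ι ℂ) = a • (w' : Matrix ι ι ℂ)) : cj w U = cj w' U := by
  have ha : a ≠ 0 := by
    rintro rfl
    rw [zero_smul] at hw
    exact w.ne_zero hw
  have h1 : ((w⁻¹ : (Matrix ι ι ℂ)ˣ) : Matrix ι ι ℂ) =
      a⁻¹ • ((w'⁻¹ : (Matrix ι ι ℂ)ˣ) : Matrix ι ι ℂ) := by
    refine Units.inv_eq_of_mul_eq_one_right ?_
    rw [hw, Matrix.smul_mul, Matrix.mul_smul, smul_smul, mul_inv_cancel₀ ha, one_smul,
      Units.mul_inv]
  ext A
  rw [mem_cj, mem_cj, h1, hw, Matrix.mul_smul, Matrix.smul_mul, Matrix.smul_mul, smul_smul,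
    mul_inv_cancel₀ ha, one_smul]

private theorem norm_orb [Nonempty ι] (D : LieData F h) (he₀ : IsCochar h e₀)
    (hν : ∀ x ∈ cx h, (ν : Matrix ι ι ℂ) * x * (ν⁻¹ : (Matrix ι ι ℂ)ˣ) ∈ cx h)
    {I : Submodule ℂ (Matrix ι ι ℂ)} (hI : I ∈ orb h e₀) : cj ν I ∈ orb h e₀ := by
  obtain ⟨σ, rfl⟩ := hI
  dsimp only
  rw [cj_idl hν]
  exact mem_orb D he₀ (cochar_conj hν (he₀.map σ))

theorem exists_hom [Nonempty ι] (D : LieData F h) (he₀ : IsCochar h e₀) {C : Type} [Group C]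
    {ν : C → (Matrix ι ι ℂ)ˣ} (hν : CompData h τ ν) :
    ∃ b : C →* Equiv.Perm (orb h e₀), ∀ c I, ((b c I : orb h e₀) : Submodule ℂ _) = cj (ν c) I := by
  have hfin : Finite (orb h e₀) := (orb_finite D he₀).to_subtype
  let f : C → orb h e₀ → orb h e₀ := fun c I => ⟨cj (ν c) I, norm_orb D he₀ (hν.norm c) I.2⟩
  have hf : ∀ c, Function.Bijective (f c) := fun c => by
    refine Finite.injective_iff_bijective.1 fun I J hIJ => ?_
    exact Subtype.ext (norm_inj (congrArg Subtype.val hIJ))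
  have hmul : ∀ c c' : C, Equiv.ofBijective (f (c * c')) (hf (c * c')) =
      Equiv.ofBijective (f c) (hf c) * Equiv.ofBijective (f c') (hf c') := fun c c' => by
    ext1 I
    apply Subtype.ext
    change cj (ν (c * c')) I = cj (ν c) (cj (ν c') I)
    obtain ⟨a, u, hu, h1⟩ := hν.mul c c'
    have h2 : cj (ν c * ν c') (I : Submodule ℂ (Matrix ι ι ℂ)) = cj (u * ν (c * c')) I :=
      norm_scalar (a := a) (by rw [Units.val_mul, h1, Units.val_mul])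
    rw [← cj_mul, h2, cj_mul, cj_exp _ hu]
    exact (orb_isIdl D he₀ (norm_orb D he₀ (hν.norm (c * c')) I.2)).1
  exact ⟨MonoidHom.mk' (fun c => Equiv.ofBijective (f c) (hf c)) hmul, fun c I => rfl⟩

end Pool.Agent.FQ
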