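import Pool.Agent.FQ.Desc

/-!
# The ideals generated by the cocharacters

PACKAGE (statements frozen). `orb h e` is the set of the ideals `idl (cx h) (e.map τ)`, the conjugates
of `idl (cx h) e` (`act_idl`). Write `H = cx h`.
* `orb_sup`: the sum of the conjugates is an ideal stable under all automorphisms, not zero
  (`idl_ne_bot`), so it is `H` (`eq_bot_or_eq_cx`).
* `orb_eq_or_comm`: `idl_eq_or_comm` (`IsCochar.map`).
* `orb_finite`: different elements of `orb h e` commute, so the family of the elements of `orb h e` is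
  independent: if `x` is in `I` and in the sum of the other ones then `x` commutes with `I` (it is a
  sum of elements which commute with `I`) and it is in `I`; the set of all elements of `I` commuting
  with `I` is an abelian ideal of `H`, so it is zero (`IsIdl.abelian`). An independent family of
  nonzero subspaces of a finite dimensional space is finite (`iSupIndep`, `sSupIndep`,
  `WellFoundedGT.finite_of_sSupIndep` or similar).
* `mem_orb`: if `idl H e'` is none of them then it commutes with all of them, so with their sum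
  `H` (`orb_sup`), so it is abelian, hence zero, contradiction.
-/

set_option autoImplicit false

namespace Pool.Agent.FQ

open Module

variable {ι : Type} [Fintype ι] [DecidableEq ι]

/-- The conjugates of the ideal generated by `2 e - 1`. -/
def orb (h : Submodule ℚ (Matrix ι ι ℚ)) (e : Matrix ι ι ℂ) :
    Set (Submodule ℂ (Matrix ι ι ℂ)) :=
  Set.range fun τ : ℂ ≃+* ℂ => idl (cx h) (e.map τ)

variable {F : Matrix ι ι ℚ} {h : Submodule ℚ (Matrix ι ι ℚ)} {e e' : Matrix ι ι ℂ}

/-- The centralizer of a subspace. -/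
private def cen (I : Submodule ℂ (Matrix ι ι ℂ)) : Submodule ℂ (Matrix ι ι ℂ) where
  carrier := {z | ∀ y ∈ I, z * y = y * z}
  add_mem' := fun {a b} ha hb y hy => by rw [add_mul, mul_add, ha y hy, hb y hy]
  zero_mem' := fun y _ => by rw [zero_mul, mul_zero]
  smul_mem' := fun c a ha y hy => by rw [smul_mul_assoc, mul_smul_comm, ha y hy]

/-- The elements of the ideal commuting with the ideal are zero. -/
private theorem inf_cen [Nonempty ι] {H I : Submodule ℂ (Matrix ι ι ℂ)} (hH : CxLie H)
    (hI : IsIdl H I) : I ⊓ cen I = ⊥ := by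
  refine IsIdl.abelian hH ⟨inf_le_left.trans hI.1, fun x hx y hy => ?_⟩ fun a ha b hb => ?_
  · refine ⟨hI.2 x hx y hy.1, ?_⟩
    change ∀ w ∈ I, (x * y - y * x) * w = w * (x * y - y * x)
    intro w hw
    have h1 : y * w = w * y := hy.2 w hw
    have h2 : y * (x * w - w * x) = (x * w - w * x) * y := hy.2 _ (hI.2 x hx w hw)
    have h3 : (x * y - y * x) * w - w * (x * y - y * x) =
        x * (y * w - w * y) - (y * w - w * y) * x +
          ((x * w - w * x) * y - y * (x * w - w * x)) := by noncomm_ring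
    have h4 : (x * y - y * x) * w - w * (x * y - y * x) = 0 := by
      rw [h3, sub_eq_zero.2 h1, sub_eq_zero.2 h2.symm, mul_zero, zero_mul, sub_zero, add_zero]
    exact sub_eq_zero.1 h4
  · exact ha.2 b hb.1

theorem orb_isIdl [Nonempty ι] (D : LieData F h) (he : IsCochar h e)
    {I : Submodule ℂ (Matrix ι ι ℂ)} (hI : I ∈ orb h e) : IsIdl (cx h) I ∧ I ≠ ⊥ := by
  obtain ⟨τ, rfl⟩ := hI
  exact ⟨isIdl_idl (cxLie D) (he.map τ).mem, idl_ne_bot (he.map τ).idem⟩

omit [Fintype ι] [DecidableEq ι] in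
private theorem map_map (e : Matrix ι ι ℂ) (τ τ' : ℂ ≃+* ℂ) :
    (e.map τ).map τ' = e.map (τ.trans τ') := by
  ext i j
  simp

theorem orb_act (h : Submodule ℚ (Matrix ι ι ℚ)) (e : Matrix ι ι ℂ) (τ : ℂ ≃+* ℂ)
    {I : Submodule ℂ (Matrix ι ι ℂ)} (hI : I ∈ orb h e) : act τ I ∈ orb h e := by
  obtain ⟨σ, rfl⟩ := hI
  refine ⟨σ.trans τ, ?_⟩
  dsimp only
  rw [act_idl, map_map]

theorem orb_trans (h : Submodule ℚ (Matrix ι ι ℚ)) (e : Matrix ι ι ℂ)
    {I J : Submodule ℂ (Matrix ι ι ℂ)} (hI : I ∈ orb h e) (hJ : J ∈ orb h e) :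
    ∃ τ : ℂ ≃+* ℂ, act τ I = J := by
  obtain ⟨σ, rfl⟩ := hI
  obtain ⟨σ', rfl⟩ := hJ
  refine ⟨σ.symm.trans σ', ?_⟩
  dsimp only
  rw [act_idl, map_map]
  congr 1
  ext i j
  simp

theorem orb_sup [Nonempty ι] (D : LieData F h) (he : IsCochar h e) : sSup (orb h e) = cx h := by
  have h1 : IsIdl (cx h) (sSup (orb h e)) := by
    refine ⟨sSup_le fun I hI => (orb_isIdl D he hI).1.1, fun x hx y hy => ?_⟩
    let T : Submodule ℂ (Matrix ι ι ℂ) :=
      { carrier := {y | x * y - y * x ∈ sSup (orb h e)}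
        add_mem' := fun {a b} ha hb => by
          have h2 : x * (a + b) - (a + b) * x = (x * a - a * x) + (x * b - b * x) := by
            noncomm_ring
          rw [Set.mem_ofPred_eq, h2]
          exact Submodule.add_mem _ ha hb
        zero_mem' := by
          rw [Set.mem_ofPred_eq, mul_zero, zero_mul, sub_zero]
          exact Submodule.zero_mem _
        smul_mem' := fun c a ha => by
          have h2 : x * (c • a) - (c • a) * x = c • (x * a - a * x) := by
            rw [mul_smul_comm, smul_mul_assoc, smul_sub]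
          rw [Set.mem_ofPred_eq, h2]
          exact Submodule.smul_mem _ _ ha }
    have h2 : sSup (orb h e) ≤ T := sSup_le fun I hI z hz =>
      le_sSup hI ((orb_isIdl D he hI).1.2 x hx z hz)
    exact h2 hy
  have h2 : ∀ τ : ℂ ≃+* ℂ, act τ (sSup (orb h e)) ≤ sSup (orb h e) := by
    intro τ
    rw [sSup_eq_iSup', act_iSup]
    refine iSup_le fun I => ?_
    rw [← sSup_eq_iSup']
    exact le_sSup (orb_act h e τ I.2)
  rcases eq_bot_or_eq_cx D h1 h2 with h3 | h3
  · exfalso
    have h4 : idl (cx h) (e.map (RingEquiv.refl ℂ)) ∈ orb h e := ⟨RingEquiv.refl ℂ, rfl⟩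
    have h5 := le_sSup h4
    rw [h3, le_bot_iff] at h5
    exact (orb_isIdl D he h4).2 h5
  · exact h3

theorem orb_eq_or_comm [Nonempty ι] (D : LieData F h) (he : IsCochar h e)
    {I J : Submodule ℂ (Matrix ι ι ℂ)} (hI : I ∈ orb h e) (hJ : J ∈ orb h e) :
    I = J ∨ ∀ z ∈ I, ∀ y ∈ J, z * y = y * z := by
  obtain ⟨σ, rfl⟩ := hI
  obtain ⟨σ', rfl⟩ := hJ
  exact idl_eq_or_comm (cxLie D) (he.map σ).idem (he.map σ).mem (he.map σ').idem
    (he.map σ').mem

theorem orb_indep [Nonempty ι] (D : LieData F h) (he : IsCochar h e) :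
    sSupIndep (orb h e) := by
  intro I hI
  have h1 : sSup (orb h e \ {I}) ≤ cen I := by
    refine sSup_le fun J hJ z hz => ?_
    rcases orb_eq_or_comm D he hJ.1 hI with h2 | h2
    · exact absurd h2 hJ.2
    · exact fun y hy => h2 z hz y hy
  rw [disjoint_iff, ← le_bot_iff, ← inf_cen (cxLie D) (orb_isIdl D he hI).1]
  exact inf_le_inf_left I h1

theorem orb_finite [Nonempty ι] (D : LieData F h) (he : IsCochar h e) : (orb h e).Finite :=
  WellFoundedGT.finite_of_sSupIndep (orb_indep D he)

theorem mem_orb [Nonempty ι] (D : LieData F h) (he : IsCochar h e) (he' : IsCochar h e') :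
    idl (cx h) e' ∈ orb h e := by
  by_contra hn
  have hI : IsIdl (cx h) (idl (cx h) e') := isIdl_idl (cxLie D) he'.mem
  have h1 : sSup (orb h e) ≤ cen (idl (cx h) e') := by
    refine sSup_le fun J hJ z hz => ?_
    obtain ⟨σ, rfl⟩ := hJ
    rcases idl_eq_or_comm (cxLie D) (he.map σ).idem (he.map σ).mem he'.idem he'.mem with h2 | h2
    · exact absurd ⟨σ, h2⟩ hn
    · exact fun y hy => h2 z hz y hy
  rw [orb_sup D he] at h1
  have h2 : idl (cx h) e' ≤ idl (cx h) e' ⊓ cen (idl (cx h) e') :=
    le_inf le_rfl (hI.1.trans h1)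
  rw [inf_cen (cxLie D) hI, le_bot_iff] at h2
  exact idl_ne_bot he'.idem h2

end Pool.Agent.FQ
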