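import Pool.Agent.FQ.MulTensor

/-!
# The trace of an involution on a product of commuting algebras

PACKAGE (statements frozen). `tr σ U` is the trace of `σ` on the stable subspace `U`.
* `tr_sup`: `σ (a * b) = σ b * σ a = σ a * σ b` for `a ∈ A`, `b ∈ B`, so by `exists_mul_equiv` the map
  `σ` on `A ⊔ B` corresponds to `σ ⊗ σ` on `A ⊗ B` (`LinearMap.trace_tensorProduct'`,
  `LinearMap.trace_conj'`). `A ⊔ B` is stable under `σ`: its elements are `f t`, sums of products.
* `tr_iSup`: induction on `T` with `tr_sup`; the supremum over the empty set is `⊥`, the scalars, and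
  the trace of the identity on a space of dimension one is one (`σ 1 = 1`).
-/

set_option autoImplicit false

namespace Pool.Agent.FQ

open Module TensorProduct

section

variable {K E : Type*} [Field K] [Ring E] [Algebra K E]

/-- The trace of `σ` on `U`. -/
noncomputable def tr (σ : E →ₗ[K] E) (U : Submodule K E) : K := by
  classical
  exact if h : ∀ x ∈ U, σ x ∈ U then LinearMap.trace K U (σ.restrict h) else 0

theorem tr_eq {σ : E →ₗ[K] E} {U : Submodule K E} (h : ∀ x ∈ U, σ x ∈ U) :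
    tr σ U = LinearMap.trace K U (σ.restrict h) := by
  unfold tr
  rw [dif_pos h]

end

variable {K E : Type*} [Field K] [Ring E] [Algebra K E] [FiniteDimensional K E]

theorem stable_sup {A B : Subalgebra K E} {σ : E →ₗ[K] E} (hσ : ∀ x y, σ (x * y) = σ y * σ x)
    (h1 : σ 1 = 1) (hA : ∀ a ∈ A, σ a ∈ A) (hB : ∀ b ∈ B, σ b ∈ B) : ∀ x ∈ A ⊔ B, σ x ∈ A ⊔ B := by
  have key : ∀ x ∈ Algebra.adjoin K ((A : Set E) ∪ (B : Set E)), σ x ∈ A ⊔ B := by
    intro x hx
    induction hx using Algebra.adjoin_induction with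
    | mem x hx =>
      rcases hx with hx | hx
      · exact (le_sup_left : A ≤ A ⊔ B) (hA x hx)
      · exact (le_sup_right : B ≤ A ⊔ B) (hB x hx)
    | algebraMap r =>
      rw [Algebra.algebraMap_eq_smul_one, map_smul, h1, ← Algebra.algebraMap_eq_smul_one]
      exact Subalgebra.algebraMap_mem _ r
    | add x y hx hy ih1 ih2 =>
      rw [map_add]
      exact Subalgebra.add_mem _ ih1 ih2
    | mul x y hx hy ih1 ih2 =>
      rw [hσ]
      exact Subalgebra.mul_mem _ ih2 ih1
  intro x hx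
  exact key x hx

/-- The restriction of `σ` to a stable subalgebra. -/
private def sA (σ : E →ₗ[K] E) (A : Subalgebra K E) (hA : ∀ a ∈ A, σ a ∈ A) : A →ₗ[K] A where
  toFun a := ⟨σ a, hA a a.2⟩
  map_add' a b := Subtype.ext (map_add σ (a : E) b)
  map_smul' c a := Subtype.ext (map_smul σ c (a : E))

omit [FiniteDimensional K E] in
private theorem tr_sA (σ : E →ₗ[K] E) (A : Subalgebra K E) (hA : ∀ a ∈ A, σ a ∈ A) :
    tr σ (Subalgebra.toSubmodule A) = LinearMap.trace K A (sA σ A hA) := by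
  have h : ∀ x ∈ Subalgebra.toSubmodule A, σ x ∈ Subalgebra.toSubmodule A := hA
  rw [tr_eq h, ← LinearMap.trace_conj' (σ.restrict h) A.toSubmoduleEquiv]
  congr 1

theorem tr_sup {A B : Subalgebra K E} {m : ℕ} (φ : A ≃ₐ[K] Matrix (Fin m) (Fin m) K)
    (hAB : ∀ a ∈ A, ∀ b ∈ B, a * b = b * a) {σ : E →ₗ[K] E}
    (hσ : ∀ x y, σ (x * y) = σ y * σ x) (h1 : σ 1 = 1) (hA : ∀ a ∈ A, σ a ∈ A)
    (hB : ∀ b ∈ B, σ b ∈ B) :
    tr σ (Subalgebra.toSubmodule (A ⊔ B)) =
      tr σ (Subalgebra.toSubmodule A) * tr σ (Subalgebra.toSubmodule B) := by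
  have hS := stable_sup hσ h1 hA hB
  obtain ⟨f, hf⟩ := exists_mul_equiv φ hAB
  rw [tr_sA σ _ hS, tr_sA σ _ hA, tr_sA σ _ hB, ← LinearMap.trace_tensorProduct',
    ← LinearMap.trace_conj' (TensorProduct.map (sA σ A hA) (sA σ B hB)) f]
  congr 1
  have hkey : ∀ t, f (TensorProduct.map (sA σ A hA) (sA σ B hB) t) = sA σ (A ⊔ B) hS (f t) := by
    intro t
    induction t using TensorProduct.induction_on with
    | zero => simp
    | tmul a b =>
      apply Subtype.ext
      rw [TensorProduct.map_tmul, hf]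
      have h2 : ((sA σ (A ⊔ B) hS (f (a ⊗ₜ b)) : ↥(A ⊔ B)) : E) = σ (a * b) := by
        rw [← hf a b]
        rfl
      rw [h2, hσ]
      exact hAB _ (hA a a.2) _ (hB b b.2)
    | add x y hx hy => rw [map_add, map_add, map_add, map_add, hx, hy]
  ext x
  rw [LinearEquiv.conj_apply_apply, hkey, LinearEquiv.apply_symm_apply]

private theorem stable_iSup {J : Type*} (A : J → Subalgebra K E)
    {σ : E →ₗ[K] E} (hσ : ∀ x y, σ (x * y) = σ y * σ x) (h1 : σ 1 = 1)
    (hst : ∀ i, ∀ a ∈ A i, σ a ∈ A i) (T : Finset J) :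
    ∀ x ∈ ⨆ i ∈ T, A i, σ x ∈ ⨆ i ∈ T, A i := by
  classical
  induction T using Finset.induction_on with
  | empty =>
    intro x hx
    simp only [Finset.notMem_empty, iSup_false, iSup_bot] at hx ⊢
    obtain ⟨r, rfl⟩ := Algebra.mem_bot.1 hx
    rw [Algebra.algebraMap_eq_smul_one, map_smul, h1, ← Algebra.algebraMap_eq_smul_one]
    exact Subalgebra.algebraMap_mem _ r
  | insert i T hi ih =>
    rw [Finset.iSup_insert]
    exact stable_sup hσ h1 (hst i) ih

theorem tr_iSup {J : Type*} (A : J → Subalgebra K E)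
    (hA : ∀ i j, i ≠ j → ∀ a ∈ A i, ∀ b ∈ A j, a * b = b * a)
    (hm : ∀ i, ∃ m : ℕ, Nonempty (A i ≃ₐ[K] Matrix (Fin m) (Fin m) K)) [Nontrivial E]
    {σ : E →ₗ[K] E} (hσ : ∀ x y, σ (x * y) = σ y * σ x) (h1 : σ 1 = 1)
    (hst : ∀ i, ∀ a ∈ A i, σ a ∈ A i) (T : Finset J) :
    tr σ (Subalgebra.toSubmodule (⨆ i ∈ T, A i)) =
      ∏ i ∈ T, tr σ (Subalgebra.toSubmodule (A i)) := by
  classical
  induction T using Finset.induction_on with
  | empty =>
    have h0 : (⨆ i ∈ (∅ : Finset J), A i) = ⊥ := by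
      simp only [Finset.notMem_empty, iSup_false, iSup_bot]
    have hb : ∀ a ∈ (⊥ : Subalgebra K E), σ a = a := by
      intro a ha
      obtain ⟨r, rfl⟩ := Algebra.mem_bot.1 ha
      rw [Algebra.algebraMap_eq_smul_one, map_smul, h1]
    rw [h0, Finset.prod_empty, tr_sA σ ⊥ (fun a ha => by rw [hb a ha]; exact ha)]
    have h2 : sA σ ⊥ (fun a ha => by rw [hb a ha]; exact ha) = LinearMap.id := by
      ext x
      exact hb x x.2
    rw [h2, LinearMap.trace_id, Subalgebra.finrank_bot, Nat.cast_one]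
  | insert i T hi ih =>
    obtain ⟨m, ⟨φ⟩⟩ := hm i
    have hc : (⨆ j ∈ T, A j) ≤ Subalgebra.centralizer K (A i : Set E) := by
      refine iSup₂_le fun j hj => ?_
      intro b hb
      rw [Subalgebra.mem_centralizer_iff]
      intro a ha
      refine hA i j ?_ a ha b hb
      rintro rfl
      exact hi hj
    rw [Finset.iSup_insert, Finset.prod_insert hi, ← ih]
    refine tr_sup φ ?_ hσ h1 (hst i) (stable_iSup A hσ h1 hst T)
    intro a ha b hb
    exact (Subalgebra.mem_centralizer_iff K).1 (hc hb) a ha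

end Pool.Agent.FQ
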