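import Pool.Agent.FQ.Sig
import Pool.Agent.FQ.TrTensor

/-!
# The trace of the involution given by the form

PACKAGE (statements frozen).
* `tr_sig_top`: the trace is the sum over `i j` of the coefficient of `E i j` in
  `F⁻¹ * E j i * F`, that is `∑ (F⁻¹) i j * F i j = - trace (F⁻¹ * F) = - card ι` because
  `F i j = - F j i` (`LinearMap.trace_eq_matrix_trace`, `Matrix.stdBasis`, and `tr_eq` with
  `LinearMap.trace_conj'` for the passage from `⊤`).
* `tr_sig_int`: `σ = sig F` has `σ² = 1`, so `p = (1 + σ) / 2` is a projection of the stable subspace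
  `U` onto `U ⊓ ker (σ - 1)`, and the trace of `σ` on `U` is `2 dim (U ⊓ ker (σ - 1)) - dim U`
  (`LinearMap.IsProj.trace`). `act τ` maps `U ⊓ ker (σ - 1)` to `act τ U ⊓ ker (σ - 1)` by `sig_map`
  and preserves dimensions (`finrank_act`).
-/

set_option autoImplicit false

namespace Pool.Agent.FQ

open Module
open Pool.Agent.CoprimeSig (ratM)

variable {ι : Type} [Fintype ι] [DecidableEq ι] {F : Matrix ι ι ℚ}

private theorem tr_top (σ : Matrix ι ι ℂ →ₗ[ℂ] Matrix ι ι ℂ) :
    tr σ ⊤ = LinearMap.trace ℂ (Matrix ι ι ℂ) σ := by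
  have h : ∀ x ∈ (⊤ : Submodule ℂ (Matrix ι ι ℂ)), σ x ∈ (⊤ : Submodule ℂ (Matrix ι ι ℂ)) :=
    fun _ _ => Submodule.mem_top
  rw [tr_eq h, ← LinearMap.trace_conj' (σ.restrict h)
    (Submodule.topEquiv (R := ℂ) (M := Matrix ι ι ℂ))]
  congr 1

theorem tr_sig_top (hF : IsUnit F) (halt : F.transpose = -F) :
    tr (sig F) ⊤ = -(Fintype.card ι : ℂ) := by
  rw [tr_top, LinearMap.trace_eq_matrix_trace ℂ (Matrix.stdBasis ℂ ι ι)]
  have halt' : ∀ i j, ratM F i j = -ratM F j i := by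
    intro i j
    have h := congrFun (congrFun halt j) i
    rw [Matrix.transpose_apply, Matrix.neg_apply] at h
    show ((F i j : ℚ) : ℂ) = -((F j i : ℚ) : ℂ)
    rw [h]
    push_cast
    rfl
  have h1 : ∀ q : ι × ι, (LinearMap.toMatrix (Matrix.stdBasis ℂ ι ι) (Matrix.stdBasis ℂ ι ι)
      (sig F)).diag q = (ratM F)⁻¹ q.1 q.2 * ratM F q.1 q.2 := by
    rintro ⟨i, j⟩
    rw [Matrix.diag_apply, LinearMap.toMatrix_apply, Matrix.stdBasis_eq_single, sig_apply,
      Matrix.transpose_single]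
    have h2 : ∀ A : Matrix ι ι ℂ, (Matrix.stdBasis ℂ ι ι).repr A (i, j) = A i j := fun A => rfl
    rw [h2]
    simp [Matrix.mul_apply, Matrix.single_apply, ite_and]
  unfold Matrix.trace
  rw [Finset.sum_congr rfl fun q _ => h1 q, Fintype.sum_prod_type]
  have h3 : ∑ i, ∑ j, (ratM F)⁻¹ i j * ratM F i j = -Matrix.trace ((ratM F)⁻¹ * ratM F) := by
    unfold Matrix.trace
    rw [← Finset.sum_neg_distrib]
    refine Finset.sum_congr rfl fun i _ => ?_
    rw [Matrix.diag_apply, Matrix.mul_apply, ← Finset.sum_neg_distrib]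
    refine Finset.sum_congr rfl fun j _ => ?_
    rw [halt' i j]
    ring
  rw [h3, Matrix.nonsing_inv_mul _ (isUnit_det_ratM hF), Matrix.trace_one]

private theorem trace_invol {E : Type*} [AddCommGroup E] [Module ℂ E] [FiniteDimensional ℂ E]
    (s : E →ₗ[ℂ] E) (hs : ∀ x, s (s x) = x) (V : Submodule ℂ E) (hV : ∀ x, x ∈ V ↔ s x = x) :
    LinearMap.trace ℂ E s = 2 * (finrank ℂ V : ℂ) - finrank ℂ E := by
  obtain ⟨p, hp⟩ : ∃ p : E →ₗ[ℂ] E, p = (1 / 2 : ℂ) • (LinearMap.id + s) := ⟨_, rfl⟩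
  have hpv : ∀ x : E, p x = (1 / 2 : ℂ) • (x + s x) := by
    intro x
    rw [hp, LinearMap.smul_apply, LinearMap.add_apply, LinearMap.id_apply]
  have hproj : LinearMap.IsProj V p := by
    constructor
    · intro x
      rw [hV, hpv, map_smul, map_add, hs, add_comm]
    · intro x hx
      rw [hV] at hx
      rw [hpv, hx, ← two_smul ℂ x, smul_smul]
      norm_num
  have h1 := hproj.trace
  rw [hp, map_smul, map_add, LinearMap.trace_id, smul_eq_mul] at h1
  linear_combination 2 * h1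

/-- the fixed vectors of the involution in `U` -/
private noncomputable def fixU (F : Matrix ι ι ℚ) (U : Submodule ℂ (Matrix ι ι ℂ)) :
    Submodule ℂ (Matrix ι ι ℂ) := U ⊓ LinearMap.ker (sig F - LinearMap.id)

private theorem mem_fixU {U : Submodule ℂ (Matrix ι ι ℂ)} {x : Matrix ι ι ℂ} :
    x ∈ fixU F U ↔ x ∈ U ∧ sig F x = x := by
  unfold fixU
  rw [Submodule.mem_inf, LinearMap.mem_ker, LinearMap.sub_apply, LinearMap.id_apply, sub_eq_zero]

private theorem tr_eq_fixU (hF : IsUnit F) (halt : F.transpose = -F)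
    {U : Submodule ℂ (Matrix ι ι ℂ)} (hU : ∀ x ∈ U, sig F x ∈ U) :
    tr (sig F) U = 2 * (finrank ℂ (fixU F U) : ℂ) - finrank ℂ U := by
  have hle : fixU F U ≤ U := inf_le_left
  have hVr : finrank ℂ ((fixU F U).comap U.subtype) = finrank ℂ (fixU F U) :=
    (Submodule.comapSubtypeEquivOfLe hle).finrank_eq
  rw [tr_eq hU, ← hVr]
  refine trace_invol ((sig F).restrict hU) (fun x => ?_) _ (fun x => ?_)
  · apply Subtype.ext
    show sig F (sig F (x : Matrix ι ι ℂ)) = x
    rw [sig_sig hF halt]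
  · rw [Submodule.mem_comap, mem_fixU, Subtype.ext_iff]
    exact ⟨fun h => h.2, fun h => ⟨x.2, h⟩⟩

theorem tr_sig_int (hF : IsUnit F) (halt : F.transpose = -F) {U : Submodule ℂ (Matrix ι ι ℂ)}
    (hU : ∀ x ∈ U, sig F x ∈ U) :
    ∃ z : ℤ, tr (sig F) U = z ∧ ∀ τ : ℂ ≃+* ℂ, tr (sig F) (act τ U) = z := by
  refine ⟨2 * (finrank ℂ (fixU F U) : ℤ) - finrank ℂ U, ?_, fun τ => ?_⟩
  · rw [tr_eq_fixU hF halt hU]
    push_cast
    rfl
  · have hU' : ∀ x ∈ act τ U, sig F x ∈ act τ U := by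
      intro x hx
      rw [mem_act] at hx ⊢
      rw [sig_map]
      exact hU _ hx
    have hfix : fixU F (act τ U) = act τ (fixU F U) := by
      ext x
      rw [mem_fixU, mem_act, mem_act, mem_fixU, ← sig_map]
      constructor
      · rintro ⟨h1, h2⟩
        exact ⟨h1, by rw [h2]⟩
      · rintro ⟨h1, h2⟩
        refine ⟨h1, ?_⟩
        ext i j
        have h3 := congrFun (congrFun h2 i) j
        rw [Matrix.map_apply, Matrix.map_apply] at h3
        exact τ.symm.injective h3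
    rw [tr_eq_fixU hF halt hU', hfix, finrank_act, finrank_act]
    push_cast
    rfl

end Pool.Agent.FQ
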