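import Pool.Agent.FQ.Orb
import Pool.Agent.FQ.Burnside
import Pool.Agent.FQ.SigTr

/-!
# The dimension is a power and the number of the ideals is odd

PACKAGE (statement frozen). `A I` is the subalgebra of the matrices generated by the ideal `I` in
`orb h e`, `k` is the number of these ideals.
* `A I` commutes with `A J` if `I ≠ J` (`orb_eq_or_comm`, `Algebra.adjoin_induction` or
  `Algebra.adjoin` and centralisers).
* `A I ≃ Matrix (Fin m) (Fin m) ℂ` by `exists_matrix` (translated by `Matrix.toLinAlgEquiv'`) for `A I`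
  and the algebra `B` generated by all the other ideals: a subspace stable under both is stable under
  `sSup (orb h e) = cx h` (`orb_sup`), so it is `⊥` or `⊤`.
* The supremum of the `A I` is `⊤` by `eq_top_of_irr`.
* `act τ` maps `A I` to `A (act τ I)` (`act τ` of an algebra is an algebra), so by `finrank_act` and
  `tr_sig_int` the numbers `dim (A I) = m ^ 2` and `tr (sig F) (A I) = z` do not depend on `I`
  (`orb_trans`). `sig F` maps `A I` to itself as the elements of `I` are skew (`sig_skew`).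
* `finrank_iSup`: `card ι ^ 2 = (m ^ 2) ^ k`, so `card ι = m ^ k`.
* `tr_iSup` and `tr_sig_top`: `- card ι = z ^ k`, so `k` is odd (if `k` is even `z ^ k ≥ 0`).
-/

set_option autoImplicit false

namespace Pool.Agent.FQ

open Module
open Pool.Agent.CoprimeSig (ratM)

variable {ι : Type} [Fintype ι] [DecidableEq ι]

/-- the algebra generated by a subspace -/
private abbrev alg (I : Submodule ℂ (Matrix ι ι ℂ)) : Subalgebra ℂ (Matrix ι ι ℂ) :=
  Algebra.adjoin ℂ (I : Set (Matrix ι ι ℂ))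

private theorem alg_comm {s t : Set (Matrix ι ι ℂ)} (h : ∀ z ∈ s, ∀ y ∈ t, z * y = y * z) :
    ∀ a ∈ Algebra.adjoin ℂ s, ∀ b ∈ Algebra.adjoin ℂ t, a * b = b * a := by
  have h1 : Algebra.adjoin ℂ t ≤ Subalgebra.centralizer ℂ s := by
    refine Algebra.adjoin_le fun y hy => ?_
    exact (Subalgebra.mem_centralizer_iff ℂ).2 fun z hz => h z hz y hy
  have h2 : Algebra.adjoin ℂ s ≤
      Subalgebra.centralizer ℂ (Algebra.adjoin ℂ t : Set (Matrix ι ι ℂ)) := by
    refine Algebra.adjoin_le fun z hz => ?_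
    exact (Subalgebra.mem_centralizer_iff ℂ).2 fun b hb =>
      ((Subalgebra.mem_centralizer_iff ℂ).1 (h1 hb) z hz).symm
  intro a ha b hb
  exact ((Subalgebra.mem_centralizer_iff ℂ).1 (h2 ha) b hb).symm

private theorem map_mem_alg {I : Submodule ℂ (Matrix ι ι ℂ)} (τ : ℂ ≃+* ℂ) {x : Matrix ι ι ℂ}
    (hx : x ∈ alg I) : x.map τ ∈ alg (act τ I) := by
  induction hx using Algebra.adjoin_induction with
  | mem x hx => exact Algebra.subset_adjoin (map_mem_act.2 hx)
  | algebraMap r =>
    have h : (algebraMap ℂ (Matrix ι ι ℂ) r).map τ = algebraMap ℂ (Matrix ι ι ℂ) (τ r) := by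
      ext i j
      by_cases hij : i = j
      · subst hij
        simp [Matrix.algebraMap_matrix_apply]
      · simp [Matrix.algebraMap_matrix_apply, hij]
    rw [h]
    exact Subalgebra.algebraMap_mem _ _
  | add x y _ _ hx hy =>
    have h : (x + y).map τ = x.map τ + y.map τ := by
      ext i j
      simp
    rw [h]
    exact Subalgebra.add_mem _ hx hy
  | mul x y _ _ hx hy =>
    have h : (x * y).map τ = x.map τ * y.map τ := by
      ext i j
      simp [Matrix.mul_apply]
    rw [h]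
    exact Subalgebra.mul_mem _ hx hy

private theorem act_alg_le (I : Submodule ℂ (Matrix ι ι ℂ)) (τ : ℂ ≃+* ℂ) :
    act τ (Subalgebra.toSubmodule (alg I)) ≤ Subalgebra.toSubmodule (alg (act τ I)) := by
  intro x hx
  rw [mem_act] at hx
  have h := map_mem_alg τ hx
  have h1 : (x.map τ.symm).map τ = x := by
    ext i j
    simp
  rw [h1] at h
  exact h

private theorem act_alg (I : Submodule ℂ (Matrix ι ι ℂ)) (τ : ℂ ≃+* ℂ) :
    act τ (Subalgebra.toSubmodule (alg I)) = Subalgebra.toSubmodule (alg (act τ I)) := by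
  refine le_antisymm (act_alg_le I τ) ?_
  have h := act_mono (τ := τ) (act_alg_le (act τ I) τ.symm)
  have h1 : act τ (act τ.symm (Subalgebra.toSubmodule (alg (act τ I)))) =
      Subalgebra.toSubmodule (alg (act τ I)) := act_symm_act (τ := τ.symm)
  rw [h1, act_symm_act] at h
  exact h

private theorem sig_mem_alg {F : Matrix ι ι ℚ} {h : Submodule ℚ (Matrix ι ι ℚ)}
    (D : LieData F h) {I : Submodule ℂ (Matrix ι ι ℂ)} (hI : I ≤ cx h) {x : Matrix ι ι ℂ}
    (hx : x ∈ alg I) : sig F x ∈ alg I := by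
  induction hx using Algebra.adjoin_induction with
  | mem x hx =>
    rw [sig_skew D (hI hx)]
    exact Subalgebra.neg_mem _ (Algebra.subset_adjoin hx)
  | algebraMap r =>
    rw [Algebra.algebraMap_eq_smul_one, map_smul, sig_one D.nondeg]
    exact Subalgebra.smul_mem _ (Subalgebra.one_mem _) _
  | add x y _ _ hx hy =>
    rw [map_add]
    exact Subalgebra.add_mem _ hx hy
  | mul x y _ _ hx hy =>
    rw [sig_mul D.nondeg]
    exact Subalgebra.mul_mem _ hy hx

/-- a subspace stable under all the ideals is trivial -/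
private theorem stable_triv [Nonempty ι] {F : Matrix ι ι ℚ} {h : Submodule ℚ (Matrix ι ι ℚ)}
    (D : LieData F h) {e : Matrix ι ι ℂ} (he : IsCochar h e) (W : Submodule ℂ (ι → ℂ))
    (hW : ∀ I ∈ orb h e, ∀ x ∈ I, ∀ w ∈ W, x.mulVec w ∈ W) : W = ⊥ ∨ W = ⊤ := by
  let S : Submodule ℂ (Matrix ι ι ℂ) :=
    { carrier := {x | ∀ w ∈ W, x.mulVec w ∈ W}
      add_mem' := fun {a b} ha hb w hw => by
        rw [Matrix.add_mulVec]
        exact W.add_mem (ha w hw) (hb w hw)
      zero_mem' := fun w _ => by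
        rw [Matrix.zero_mulVec]
        exact W.zero_mem
      smul_mem' := fun c a ha w hw => by
        rw [Matrix.smul_mulVec]
        exact W.smul_mem c (ha w hw) }
  have h1 : sSup (orb h e) ≤ S := sSup_le fun I hI x hx w hw => hW I hI x hx w hw
  rw [orb_sup D he] at h1
  exact (cxLie D).irr W fun x hx w hw => h1 hx w hw

theorem exists_pow [Nonempty ι] {F : Matrix ι ι ℚ} {h : Submodule ℚ (Matrix ι ι ℚ)}
    (D : LieData F h) {e : Matrix ι ι ℂ} (he : IsCochar h e) :
    ∃ m : ℕ, Fintype.card ι = m ^ (orb h e).ncard ∧ Odd (orb h e).ncard := by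
  classical
  have hfin := orb_finite D he
  have hfi : Finite (orb h e) := hfin
  have : Fintype (orb h e) := Fintype.ofFinite _
  let A : orb h e → Subalgebra ℂ (Matrix ι ι ℂ) := fun I => alg I.1
  let Φ : Matrix ι ι ℂ ≃ₐ[ℂ] Module.End ℂ (ι → ℂ) := Matrix.toLinAlgEquiv'
  have hΦ : ∀ (x : Matrix ι ι ℂ) (w : ι → ℂ), Φ x w = x.mulVec w := fun x w =>
    Matrix.toLinAlgEquiv'_apply x w
  have hcomm : ∀ i j, i ≠ j → ∀ a ∈ A i, ∀ b ∈ A j, a * b = b * a := by
    intro i j hij
    refine alg_comm ?_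
    rcases orb_eq_or_comm D he i.2 j.2 with h1 | h1
    · exact absurd (Subtype.ext h1) hij
    · exact h1
  have hm : ∀ i, ∃ m : ℕ, Nonempty (A i ≃ₐ[ℂ] Matrix (Fin m) (Fin m) ℂ) := by
    intro i
    let s : Set (Matrix ι ι ℂ) := {x | ∃ j : orb h e, j ≠ i ∧ x ∈ j.1}
    have h1 : ∀ a ∈ A i, ∀ b ∈ Algebra.adjoin ℂ s, a * b = b * a := by
      refine alg_comm ?_
      rintro z hz y ⟨j, hj, hy⟩
      rcases orb_eq_or_comm D he i.2 j.2 with h1 | h1
      · exact absurd (Subtype.ext h1).symm hj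
      · exact h1 z hz y hy
    obtain ⟨m, ⟨ψ⟩⟩ := exists_matrix ((A i).map Φ.toAlgHom)
      ((Algebra.adjoin ℂ s).map Φ.toAlgHom) (by
        rintro _ ⟨a, ha, rfl⟩ _ ⟨b, hb, rfl⟩
        show Φ a * Φ b = Φ b * Φ a
        rw [← map_mul, ← map_mul, h1 a ha b hb]) (by
        intro W hWA hWB
        refine stable_triv D he W fun I hI x hx w hw => ?_
        rw [← hΦ]
        by_cases hIi : (⟨I, hI⟩ : orb h e) = i
        · refine hWA _ ⟨x, ?_, rfl⟩ w hw
          rw [← hIi]
          exact Algebra.subset_adjoin hx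
        · exact hWB _ ⟨x, Algebra.subset_adjoin ⟨⟨I, hI⟩, hIi, hx⟩, rfl⟩ w hw)
    exact ⟨m, ⟨((A i).equivMapOfInjective Φ.toAlgHom Φ.injective).trans ψ⟩⟩
  have htop : (⨆ i ∈ (Finset.univ : Finset (orb h e)), A i) = ⊤ := by
    set B : Subalgebra ℂ (Matrix ι ι ℂ) := ⨆ i ∈ (Finset.univ : Finset (orb h e)), A i with hB
    have hAB : ∀ i, A i ≤ B := fun i => le_iSup₂_of_le i (Finset.mem_univ i) le_rfl
    have h1 : B.map Φ.toAlgHom = ⊤ := by
      refine eq_top_of_irr _ fun W hW => stable_triv D he W fun I hI x hx w hw => ?_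
      rw [← hΦ]
      exact hW _ ⟨x, hAB ⟨I, hI⟩ (Algebra.subset_adjoin hx), rfl⟩ w hw
    rw [eq_top_iff]
    intro x _
    have h2 : Φ x ∈ B.map Φ.toAlgHom := by
      rw [h1]
      exact Algebra.mem_top
    obtain ⟨y, hy, hyx⟩ := h2
    have h3 : y = x := Φ.injective hyx
    rw [← h3]
    exact hy
  -- a fixed ideal
  obtain ⟨i₀⟩ : Nonempty (orb h e) := ⟨⟨_, RingEquiv.refl ℂ, rfl⟩⟩
  obtain ⟨m, ⟨ψ⟩⟩ := hm i₀
  have hst : ∀ i, ∀ a ∈ A i, sig F a ∈ A i := fun i a ha =>
    sig_mem_alg D (orb_isIdl D he i.2).1.1 ha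
  obtain ⟨z, hz0, hz⟩ := tr_sig_int D.nondeg D.alt (U := Subalgebra.toSubmodule (A i₀))
    (hst i₀)
  have hconj : ∀ i : orb h e, ∃ τ : ℂ ≃+* ℂ,
      act τ (Subalgebra.toSubmodule (A i₀)) = Subalgebra.toSubmodule (A i) := by
    intro i
    obtain ⟨τ, hτ⟩ := orb_trans h e i₀.2 i.2
    refine ⟨τ, ?_⟩
    show act τ (Subalgebra.toSubmodule (alg i₀.1)) = Subalgebra.toSubmodule (alg i.1)
    rw [act_alg, hτ]
  have hcard : Fintype.card (orb h e) = (orb h e).ncard := by
    rw [← Nat.card_eq_fintype_card, Nat.card_coe_set_eq]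
  have hdim : ∀ i, finrank ℂ (A i) = m ^ 2 := by
    intro i
    have h0 : finrank ℂ (A i₀) = m ^ 2 := by
      rw [ψ.toLinearEquiv.finrank_eq, Module.finrank_matrix, Fintype.card_fin,
        Module.finrank_self, mul_one, sq]
    obtain ⟨τ, hτ⟩ := hconj i
    have h1 := finrank_act (τ := τ) (U := Subalgebra.toSubmodule (A i₀))
    rw [hτ] at h1
    exact h1.trans h0
  have htr : ∀ i, tr (sig F) (Subalgebra.toSubmodule (A i)) = z := by
    intro i
    obtain ⟨τ, hτ⟩ := hconj i
    rw [← hτ]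
    exact hz τ
  refine ⟨m, ?_, ?_⟩
  · have h1 := finrank_iSup A hcomm hm Finset.univ
    rw [htop, subalgebra_top_finrank_eq_submodule_top_finrank, finrank_top,
      Module.finrank_matrix, Module.finrank_self, mul_one] at h1
    simp only [hdim] at h1
    rw [Finset.prod_const, Finset.card_univ, hcard, ← pow_mul, mul_comm 2, pow_mul, ← sq] at h1
    exact (Nat.pow_left_injective (by norm_num : (2 : ℕ) ≠ 0)) h1
  · have h1 := tr_iSup A hcomm hm (σ := sig F) (sig_mul D.nondeg) (sig_one D.nondeg) hst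
      Finset.univ
    rw [htop, Algebra.top_toSubmodule, tr_sig_top D.nondeg D.alt] at h1
    simp only [htr] at h1
    rw [Finset.prod_const, Finset.card_univ, hcard] at h1
    have h2 : -(Fintype.card ι : ℤ) = z ^ (orb h e).ncard := by exact_mod_cast h1
    by_contra hodd
    rw [Nat.not_odd_iff_even] at hodd
    have h3 : 0 ≤ z ^ (orb h e).ncard := hodd.pow_nonneg z
    have h4 : 0 < (Fintype.card ι : ℤ) := by exact_mod_cast Fintype.card_pos
    omega

end Pool.Agent.FQ
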