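import Pool.Agent.FQ.Desc

/-!
# The involution given by the form

PACKAGE (statements frozen). `sig F x = F⁻¹ xᵀ F`.
* `sig_mul`, `sig_one`, `sig_sig` (use `Fᵀ = -F`); `sig_skew`: elements of `cx h` are mapped to `-x`
  by `skew_cx`; `sig_map`: `F` is rational, `(ratM F)⁻¹ = ratM F⁻¹`.
-/

set_option autoImplicit false

namespace Pool.Agent.FQ

open Module
open Pool.Agent.CoprimeSig (ratM)

variable {ι : Type} [Fintype ι] [DecidableEq ι]

/-- The involution given by the form with the matrix `F`. -/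
noncomputable def sig (F : Matrix ι ι ℚ) : Matrix ι ι ℂ →ₗ[ℂ] Matrix ι ι ℂ where
  toFun x := (ratM F)⁻¹ * x.transpose * ratM F
  map_add' x y := by
    rw [Matrix.transpose_add, mul_add, add_mul]
  map_smul' c x := by
    rw [Matrix.transpose_smul, Matrix.mul_smul, Matrix.smul_mul, RingHom.id_apply]

variable {F : Matrix ι ι ℚ} {h : Submodule ℚ (Matrix ι ι ℚ)}

theorem sig_apply (x : Matrix ι ι ℂ) : sig F x = (ratM F)⁻¹ * x.transpose * ratM F := rfl

private theorem Sig_ratM (F : Matrix ι ι ℚ) : ratM F = (Rat.castHom ℂ).mapMatrix F := rfl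

theorem isUnit_det_ratM (hF : IsUnit F) : IsUnit (ratM F).det := by
  rw [Sig_ratM, ← RingHom.map_det]
  exact ((Matrix.isUnit_iff_isUnit_det F).1 hF).map (Rat.castHom ℂ)

theorem sig_mul (hF : IsUnit F) (x y : Matrix ι ι ℂ) : sig F (x * y) = sig F y * sig F x := by
  have h1 := Matrix.mul_nonsing_inv (ratM F) (isUnit_det_ratM hF)
  rw [sig_apply, sig_apply, sig_apply, Matrix.transpose_mul]
  calc (ratM F)⁻¹ * (y.transpose * x.transpose) * ratM F
      = (ratM F)⁻¹ * y.transpose * (1 * (x.transpose * ratM F)) := by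
        rw [one_mul]
        noncomm_ring
    _ = (ratM F)⁻¹ * y.transpose * (ratM F * (ratM F)⁻¹ * (x.transpose * ratM F)) := by rw [h1]
    _ = _ := by noncomm_ring

theorem sig_one (hF : IsUnit F) : sig F (1 : Matrix ι ι ℂ) = 1 := by
  rw [sig_apply, Matrix.transpose_one, mul_one,
    Matrix.nonsing_inv_mul (ratM F) (isUnit_det_ratM hF)]

theorem sig_sig (hF : IsUnit F) (halt : F.transpose = -F) (x : Matrix ι ι ℂ) :
    sig F (sig F x) = x := by
  have h1 := Matrix.mul_nonsing_inv (ratM F) (isUnit_det_ratM hF)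
  have h2 := Matrix.nonsing_inv_mul (ratM F) (isUnit_det_ratM hF)
  have h3 : (ratM F).transpose = -ratM F := by
    have e : (ratM F).transpose = ratM F.transpose := rfl
    rw [e, halt]
    ext i j
    simp [ratM]
  have h4 : ((ratM F)⁻¹).transpose * ratM F = -1 := by
    have e : ((ratM F)⁻¹).transpose * (ratM F).transpose = 1 := by
      rw [← Matrix.transpose_mul, h1, Matrix.transpose_one]
    rw [h3, mul_neg] at e
    rw [← e, neg_neg]
  rw [sig_apply, sig_apply, Matrix.transpose_mul, Matrix.transpose_mul, Matrix.transpose_transpose,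
    h3]
  calc (ratM F)⁻¹ * (-ratM F * (x * ((ratM F)⁻¹).transpose)) * ratM F
      = -((ratM F)⁻¹ * ratM F * (x * (((ratM F)⁻¹).transpose * ratM F))) := by noncomm_ring
    _ = x := by rw [h2, h4, one_mul, mul_neg, mul_one, neg_neg]

theorem sig_skew (D : LieData F h) {x : Matrix ι ι ℂ} (hx : x ∈ cx h) : sig F x = -x := by
  have h2 := Matrix.nonsing_inv_mul (ratM F) (isUnit_det_ratM D.nondeg)
  have h3 := eq_neg_of_add_eq_zero_left (skew_cx D hx)
  rw [sig_apply, mul_assoc, h3, mul_neg, ← mul_assoc, h2, one_mul]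

theorem sig_map (τ : ℂ ≃+* ℂ) (x : Matrix ι ι ℂ) : (sig F x).map τ = sig F (x.map τ) := by
  have h1 : ∀ A : Matrix ι ι ℂ, A.map τ = (τ : ℂ →+* ℂ).mapMatrix A := fun _ => rfl
  have h2 : (τ : ℂ →+* ℂ).mapMatrix (ratM F) = ratM F := by
    ext i j
    simp [ratM]
  have h3 : (τ : ℂ →+* ℂ).mapMatrix (ratM F)⁻¹ = (ratM F)⁻¹ := by
    rw [Matrix.inv_def, Ring.inverse_eq_inv']
    have e : (τ : ℂ →+* ℂ).mapMatrix ((ratM F).det⁻¹ • (ratM F).adjugate) =
        (τ : ℂ →+* ℂ) (ratM F).det⁻¹ • (τ : ℂ →+* ℂ).mapMatrix (ratM F).adjugate := by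
      ext i j
      simp
    rw [e, RingHom.map_adjugate, map_inv₀, RingHom.map_det, h2]
  rw [sig_apply, sig_apply, h1, map_mul, map_mul, h2, h3]
  rfl

end Pool.Agent.FQ
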