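import Pool.Agent.FQ.Norm
import Pool.Agent.FQ.FinOrb
import Pool.Agent.FQ.Index
import Pool.Agent.FQ.Power
import Pool.Agent.FQ.Group
import Pool.Agent.FQGrp.Prime

/-!
# The Lie algebra is simple over the complex numbers

PACKAGE (statement frozen). PROOF. `hH` for `γ = 1` and `S = ∅` gives a cocharacter `e₀`. Let
`X = orb h e₀`, finite (`orb_finite`), with `k` elements; `card ι = m ^ k`, `k` is odd (`exists_pow`).
`RingAut ℂ` acts on `X` by `act` (`orb_act`), transitively (`orb_trans`). If `k = 1` then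
`X = {cx h}` by `orb_sup` and `idl (cx h) e ∈ X` by `mem_orb`. Assume `k ≥ 3`. By `hk` the index
`[K : ℚ]` of `fixG K` (`index_fixG`) is prime to `k`, so `fixG K` is transitive on `X`
(`isPretransitive_of_coprime`). By `exists_finset_act` (the conjugates of `I ∈ X` are in `X`) there is a
finite set `S` of algebraic numbers such that `act τ I = act γ I` for all `I ∈ X` if `τ = γ` on `S`.
For `γ ∈ fixG K` take `τ` by `hH` with `Φ`, `e`, `ν`, `c`, `u`. Then for `I = idl (cx h) e ∈ X` (`mem_orb`):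
`act γ I = act τ I = idl (cx h) (e.map τ) = cj (ν c) (cj u I) = cj (ν c) I = b c I` (`act_idl`, `cj_idl`,
`cj_exp`, `cj_mul`), where `b` is given by `exists_hom`.
If `C` is trivial then `b = 1`: every element of `fixG K` has a fixed point on `X`, so `X` has at most one
element by Jordan's theorem (`FQGrp.jordan_hom`), contradiction.
If `k` is prime then `FQGrp.index_prime` for `Γ = fixG K`, `S = X` gives a normal subgroup of `C` of index
`k`: `b c` commutes with `act γ` on `X` because it commutes with `act τ` (`cj_act`), contradiction.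
-/

set_option autoImplicit false

namespace Pool.Agent.FQ

open Module

variable {ι : Type} [Fintype ι] [DecidableEq ι]

/-- The ideals are permuted by the automorphisms of `ℂ`. -/
private noncomputable abbrev orbAction (h : Submodule ℚ (Matrix ι ι ℚ)) (e : Matrix ι ι ℂ) :
    MulAction (RingAut ℂ) (orb h e) where
  smul τ I := ⟨act τ I, orb_act h e τ I.2⟩
  one_smul _ := Subtype.ext act_refl
  mul_smul _ _ _ := Subtype.ext act_trans

/-- A finite set of algebraic numbers which controls the action on the ideals. -/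
private theorem exists_control [Nonempty ι] {F : Matrix ι ι ℚ} {h : Submodule ℚ (Matrix ι ι ℚ)}
    (D : LieData F h) {e : Matrix ι ι ℂ} (he : IsCochar h e) :
    ∃ S : Finset ℂ, (∀ x ∈ S, IsAlgebraic ℚ x) ∧
      ∀ τ τ' : ℂ ≃+* ℂ, (∀ x ∈ S, τ x = τ' x) → ∀ I ∈ orb h e, act τ I = act τ' I := by
  classical
  have hfin := orb_finite D he
  have h1 : ∀ I ∈ orb h e, ∃ S : Finset ℂ, (∀ x ∈ S, IsAlgebraic ℚ x) ∧
      ∀ τ τ' : ℂ ≃+* ℂ, (∀ x ∈ S, τ x = τ' x) → act τ I = act τ' I := by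
    intro I hI
    apply exists_finset_act
    refine hfin.subset ?_
    rintro _ ⟨τ, rfl⟩
    exact orb_act h e τ hI
  choose! S hS hS' using h1
  refine ⟨hfin.toFinset.biUnion S, ?_, ?_⟩
  · intro x hx
    rw [Finset.mem_biUnion] at hx
    obtain ⟨I, hI, hx⟩ := hx
    exact hS I (hfin.mem_toFinset.1 hI) x hx
  · intro τ τ' hτ I hI
    refine hS' I hI τ τ' fun x hx => hτ x ?_
    rw [Finset.mem_biUnion]
    exact ⟨I, hfin.mem_toFinset.2 hI, hx⟩

/-- Conjugation by an element of a component and an element of the group of exponentials. -/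
private theorem cj_comp [Nonempty ι] {F : Matrix ι ι ℚ} {h : Submodule ℚ (Matrix ι ι ℚ)}
    (D : LieData F h) {e : Matrix ι ι ℂ} (he : IsCochar h e) {ν u : (Matrix ι ι ℂ)ˣ}
    (hν : ∀ x ∈ cx h, (ν : Matrix ι ι ℂ) * x * (ν⁻¹ : (Matrix ι ι ℂ)ˣ) ∈ cx h)
    (hu : u ∈ expG ℂ (cx h)) :
    idl (cx h) (((ν * u : (Matrix ι ι ℂ)ˣ) : Matrix ι ι ℂ) * e *
      (((ν * u)⁻¹ : (Matrix ι ι ℂ)ˣ) : Matrix ι ι ℂ)) = cj ν (idl (cx h) e) := by
  have h0 : IsIdl (cx h) (cx h) := ⟨le_rfl, (cxLie D).lie⟩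
  have h1 : ∀ x ∈ cx h, (u : Matrix ι ι ℂ) * x * (u⁻¹ : (Matrix ι ι ℂ)ˣ) ∈ cx h := by
    intro x hx
    rw [← cj_exp h0 hu, mem_cj]
    have h2 : ((u⁻¹ : (Matrix ι ι ℂ)ˣ) : Matrix ι ι ℂ) *
        ((u : Matrix ι ι ℂ) * x * (u⁻¹ : (Matrix ι ι ℂ)ˣ)) * u = x := by
      rw [mul_assoc, mul_assoc, Units.inv_mul, mul_one, ← mul_assoc, Units.inv_mul, one_mul]
    rw [h2]
    exact hx
  have h2 : ∀ x ∈ cx h, ((ν * u : (Matrix ι ι ℂ)ˣ) : Matrix ι ι ℂ) * x *
      (((ν * u)⁻¹ : (Matrix ι ι ℂ)ˣ) : Matrix ι ι ℂ) ∈ cx h := by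
    intro x hx
    have h3 : ((ν * u : (Matrix ι ι ℂ)ˣ) : Matrix ι ι ℂ) * x *
        (((ν * u)⁻¹ : (Matrix ι ι ℂ)ˣ) : Matrix ι ι ℂ) =
        (ν : Matrix ι ι ℂ) * ((u : Matrix ι ι ℂ) * x * (u⁻¹ : (Matrix ι ι ℂ)ˣ)) *
          (ν⁻¹ : (Matrix ι ι ℂ)ˣ) := by
      rw [mul_inv_rev, Units.val_mul, Units.val_mul]
      simp only [mul_assoc]
    rw [h3]
    exact hν _ (h1 x hx)
  rw [← cj_idl h2, cj_mul, cj_exp (isIdl_idl (cxLie D) he.mem) hu]

theorem idl_eq [Nonempty ι] {F : Matrix ι ι ℚ} {h : Submodule ℚ (Matrix ι ι ℚ)} (D : LieData F h)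
    (K : Subfield ℂ) [FiniteDimensional ℚ K] {P : Polynomial ℚ} {C : Type} [Group C]
    (hH : ∀ γ : RingAut ℂ, (∀ x ∈ K, γ x = x) → ∀ S : Finset ℂ, (∀ x ∈ S, IsAlgebraic ℚ x) →
      ∃ τ : ℂ ≃+* ℂ, (∀ x ∈ S, τ x = γ x) ∧ HodgeTate h P C τ)
    (hk : ∀ k m : ℕ, Odd k → 3 ≤ k → Fintype.card ι = m ^ k → (finrank ℚ K).Coprime k ∧
      (Subsingleton C ∨ (k.Prime ∧ ∀ N : Subgroup C, N.Normal → N.index ≠ k)))
    {e : Matrix ι ι ℂ} (he : IsCochar h e) : idl (cx h) e = cx h := by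
  classical
  have hfin := orb_finite D he
  have hmem : idl (cx h) e ∈ orb h e := mem_orb D he he
  obtain ⟨m, hm, hodd⟩ := exists_pow D he
  by_cases h1 : (orb h e).ncard = 1
  · obtain ⟨I, hI⟩ := Set.ncard_eq_one.1 h1
    have h2 := orb_sup D he
    rw [hI, sSup_singleton] at h2
    rw [hI, Set.mem_singleton_iff] at hmem
    rw [hmem, h2]
  · exfalso
    have h3 : 3 ≤ (orb h e).ncard := by
      obtain ⟨j, hj⟩ := hodd
      omega
    obtain ⟨hcop, hC⟩ := hk _ m hodd h3 hm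
    have hfinX : Finite (orb h e) := hfin
    have hcard : Nat.card (orb h e) = (orb h e).ncard := Nat.card_coe_set_eq _
    let _ : MulAction (RingAut ℂ) (orb h e) := orbAction h e
    have htr : MulAction.IsPretransitive (RingAut ℂ) (orb h e) := by
      refine ⟨fun I J => ?_⟩
      obtain ⟨τ, hτ⟩ := orb_trans h e I.2 J.2
      exact ⟨τ, Subtype.ext hτ⟩
    have hidx := index_fixG K
    have htrK : MulAction.IsPretransitive (fixG K) (orb h e) := by
      refine isPretransitive_of_coprime (fixG K) ?_ ?_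
      · rw [hidx]
        exact finrank_pos.ne'
      · rw [hidx, hcard]
        exact hcop
    obtain ⟨S, hS, hS'⟩ := exists_control D he
    let α : fixG K →* Equiv.Perm (orb h e) := MulAction.toPermHom (fixG K) (orb h e)
    have hα : ∀ (g : fixG K) (I : orb h e), (α g I).1 = act g.1 I.1 := fun _ _ => rfl
    have ht : ∀ x y : orb h e, ∃ g : fixG K, α g x = y := fun x y =>
      MulAction.exists_smul_eq (fixG K) x y
    have hb : ∀ g : fixG K, ∃ b : C →* Equiv.Perm (orb h e),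
        (∀ c x, b c (α g x) = α g (b c x)) ∧ ∃ s c, α g s = b c s := by
      intro g
      obtain ⟨τ, hτ, Φ, e', ν, -, -, -, -, he', hcomp, c, u, hu, heq⟩ := hH g g.2 S hS
      obtain ⟨b, hbb⟩ := exists_hom D he hcomp
      have hact : ∀ I ∈ orb h e, act (g : RingAut ℂ) I = act τ I := fun I hI =>
        hS' _ _ (fun x hx => (hτ x hx).symm) I hI
      refine ⟨b, ?_, ⟨_, mem_orb D he he'⟩, c, ?_⟩
      · intro c x
        apply Subtype.ext
        rw [hbb, hα, hα, hact _ x.2, hact _ (b c x).2, hbb, cj_act (hcomp.fixed c)]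
      · apply Subtype.ext
        rw [hbb, hα, hact _ (mem_orb D he he'), act_idl, heq, cj_comp D he' (hcomp.norm c) hu]
    rcases hC with hC | ⟨hp, hN⟩
    · have h4 : Subsingleton (orb h e) := by
        refine FQGrp.jordan_hom α ht fun g => ?_
        obtain ⟨b, -, s, c, hs⟩ := hb g
        refine ⟨s, ?_⟩
        rw [hs, Subsingleton.elim c 1, map_one]
        rfl
      have h5 : Nat.card (orb h e) ≤ 1 := Finite.card_le_one_iff_subsingleton.2 h4
      omega
    · rw [← hcard] at hp hN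
      obtain ⟨N, hN1, hN2⟩ := FQGrp.index_prime hp α ht hb
      exact hN N hN1 hN2

end Pool.Agent.FQ
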